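import Pool.Agent.PTN.Stmts

set_option autoImplicit false

/-!
# PTN / Prof
-/

namespace Pool.Agent.PTN

open MeasureTheory Pool.Agent.PT

theorem prof_reg {ρ : ℝ} {a : Fin 3 → ℝ} (h : Reg ρ a) :
    ∀ i, 0 ≤ a i ∧ a i ≤ ρ := by
  intro i
  refine ⟨h.1 i, ?_⟩
  have h1 := h.2 i (i + 1) (by fin_cases i <;> decide)
  have h2 := h.1 (i + 1)
  linarith

theorem prof_mul {x x' y y' ρ : ℝ} (hx : 0 ≤ x ∧ x ≤ ρ) (hy : 0 ≤ y' ∧ y' ≤ ρ) :
    |x * y - x' * y'| ≤ ρ * (|x - x'| + |y - y'|) := by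
  have h : x * y - x' * y' = x * (y - y') + y' * (x - x') := by ring
  rw [h]
  refine (abs_add_le _ _).trans ?_
  rw [abs_mul, abs_mul, abs_of_nonneg hx.1, abs_of_nonneg hy.1]
  nlinarith [mul_le_mul_of_nonneg_right hx.2 (abs_nonneg (y - y')),
    mul_le_mul_of_nonneg_right hy.2 (abs_nonneg (x - x'))]

theorem thm_Prof : St_Prof := by
  intro c e ρ hρ
  have hc := abs_nonneg c
  have he := abs_nonneg e
  refine ⟨1 + 3 * |c| + 3 * |e| + (|c| + 2 * |e|) / ρ, ?_, ?_, ?_⟩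
  · intro a
    have hq : 0 ≤ (|c| + 2 * |e|) / ρ := by positivity
    by_cases h : Reg ρ a
    · rw [FP, if_pos h]
      obtain ⟨h0, h0'⟩ := prof_reg h 0
      obtain ⟨h1, h1'⟩ := prof_reg h 1
      obtain ⟨h2, h2'⟩ := prof_reg h 2
      have e1 : |c * (a 0 + a 1 + a 2) / ρ| ≤ 3 * |c| := by
        rw [abs_div, abs_mul, abs_of_nonneg (by linarith : 0 ≤ a 0 + a 1 + a 2),
          abs_of_pos hρ, div_le_iff₀ hρ]
        nlinarith
      have e2 : |e * (a 0 * a 1 + a 0 * a 2 + a 1 * a 2) / ρ ^ 2| ≤ 3 * |e| := by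
        rw [abs_div, abs_mul, abs_of_nonneg (by positivity : 0 ≤ a 0 * a 1 + a 0 * a 2 + a 1 * a 2),
          abs_of_pos (by positivity : 0 < ρ ^ 2), div_le_iff₀ (by positivity)]
        have q1 : a 0 * a 1 ≤ ρ * ρ := mul_le_mul h0' h1' h1 hρ.le
        have q2 : a 0 * a 2 ≤ ρ * ρ := mul_le_mul h0' h2' h2 hρ.le
        have q3 : a 1 * a 2 ≤ ρ * ρ := mul_le_mul h1' h2' h2 hρ.le
        nlinarith
      have e3 := abs_add_le (1 - c * (a 0 + a 1 + a 2) / ρ)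
        (e * (a 0 * a 1 + a 0 * a 2 + a 1 * a 2) / ρ ^ 2)
      have e4 := abs_sub (1 : ℝ) (c * (a 0 + a 1 + a 2) / ρ)
      rw [abs_one] at e4
      linarith
    · rw [FP, if_neg h, abs_zero]
      positivity
  · intro a h
    rw [FP, if_neg h]
  · intro a a' h h'
    rw [FP, if_pos h, FP, if_pos h', Fin.sum_univ_three]
    obtain ⟨h0, h0'⟩ := prof_reg h 0
    obtain ⟨h1, h1'⟩ := prof_reg h 1
    have k1 := prof_reg h' 1
    have k2 := prof_reg h' 2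
    have m1 := prof_mul (x' := a' 0) (y := a 1) ⟨h0, h0'⟩ k1
    have m2 := prof_mul (x' := a' 0) (y := a 2) ⟨h0, h0'⟩ k2
    have m3 := prof_mul (x' := a' 1) (y := a 2) ⟨h1, h1'⟩ k2
    have eq : 1 - c * (a 0 + a 1 + a 2) / ρ + e * (a 0 * a 1 + a 0 * a 2 + a 1 * a 2) / ρ ^ 2 -
        (1 - c * (a' 0 + a' 1 + a' 2) / ρ + e * (a' 0 * a' 1 + a' 0 * a' 2 + a' 1 * a' 2) / ρ ^ 2)
        = -(c / ρ * ((a 0 - a' 0) + (a 1 - a' 1) + (a 2 - a' 2))) +
          e / ρ ^ 2 * ((a 0 * a 1 - a' 0 * a' 1) + (a 0 * a 2 - a' 0 * a' 2) +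
            (a 1 * a 2 - a' 1 * a' 2)) := by ring
    rw [eq]
    set D := |a 0 - a' 0| + |a 1 - a' 1| + |a 2 - a' 2| with hD
    have hD0 : 0 ≤ D := by positivity
    have t1 : |(a 0 - a' 0) + (a 1 - a' 1) + (a 2 - a' 2)| ≤ D :=
      (abs_add_three _ _ _)
    have t2 : |(a 0 * a 1 - a' 0 * a' 1) + (a 0 * a 2 - a' 0 * a' 2) +
            (a 1 * a 2 - a' 1 * a' 2)| ≤ 2 * ρ * D := by
      refine (abs_add_three _ _ _).trans ?_
      rw [hD]
      linarith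
    refine (abs_add_le _ _).trans ?_
    rw [abs_neg, abs_mul, abs_mul, abs_div, abs_div, abs_of_pos hρ,
      abs_of_pos (by positivity : 0 < ρ ^ 2)]
    have s1 := mul_le_mul_of_nonneg_left t1 (by positivity : 0 ≤ |c| / ρ)
    have s2 := mul_le_mul_of_nonneg_left t2 (by positivity : 0 ≤ |e| / ρ ^ 2)
    have s3 : |e| / ρ ^ 2 * (2 * ρ * D) = 2 * |e| / ρ * D := by
      field_simp
    have s4 : (1 + 3 * |c| + 3 * |e| + (|c| + 2 * |e|) / ρ) * D =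
      (1 + 3 * |c| + 3 * |e|) * D + |c| / ρ * D + 2 * |e| / ρ * D := by ring
    rw [s4]
    have s5 : 0 ≤ (1 + 3 * |c| + 3 * |e|) * D := by positivity
    linarith

end Pool.Agent.PTN
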