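import Pool.Agent.PTN.Stmts

set_option autoImplicit false

/-!
# PTN: continuity of the inner integrals in their parameters
-/

namespace Pool.Agent.PTN

open MeasureTheory Pool.Agent.PT

theorem cont_gg : Continuous (fun q : (ℝ × ℝ × ℝ) × ℝ => gg q.1.1 q.1.2.1 q.1.2.2 q.2) := by
  unfold gg GR
  fun_prop

theorem cont_R1 : Continuous (fun q : ℝ × ℝ × ℝ => R1 q.1 q.2.1 q.2.2) := by
  have h1 : (fun q : ℝ × ℝ × ℝ => R1 q.1 q.2.1 q.2.2) = fun q : ℝ × ℝ × ℝ =>
      ∫ x in (1 / 1000 : ℝ)..(1 / 2), gg q.1 q.2.1 q.2.2 x ^ 2 /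
        (max x (1 / 1000) * max (1 - x) (1 / 2)) := by
    funext q
    unfold R1
    refine intervalIntegral.integral_congr fun x hx => ?_
    rw [Set.uIcc_of_le (by norm_num)] at hx
    have h2 : max x (1 / 1000) = x := max_eq_left hx.1
    have h3 : max (1 - x) (1 / 2) = 1 - x := max_eq_left (by linarith [hx.2])
    simp only [h2, h3]
  rw [h1]
  refine intervalIntegral.continuous_parametric_intervalIntegral_of_continuous'
    (f := fun (q : ℝ × ℝ × ℝ) (x : ℝ) => gg q.1 q.2.1 q.2.2 x ^ 2 /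
        (max x (1 / 1000) * max (1 - x) (1 / 2))) ?_ _ _
  refine Continuous.div (cont_gg.pow 2) (by fun_prop) ?_
  intro q
  have h2 : 0 < max q.2 (1 / 1000) := lt_max_of_lt_right (by norm_num)
  have h3 : 0 < max (1 - q.2) (1 / 2) := lt_max_of_lt_right (by norm_num)
  exact (mul_pos h2 h3).ne'

/-- the regularised integrand of `R2` -/
noncomputable def cont_h (q : ℝ × ℝ × ℝ) (x z : ℝ) : ℝ :=
  (gg q.1 q.2.1 q.2.2 x + gg q.1 q.2.1 q.2.2 z - gg q.1 q.2.1 q.2.2 (x + z)) ^ 2 /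
    (max x (1 / 1000) * max z (1 / 1000) * max (1 - x - z) (1 / 3))

theorem cont_hc : Continuous (fun q : ((ℝ × ℝ × ℝ) × ℝ) × ℝ => cont_h q.1.1 q.1.2 q.2) := by
  unfold cont_h
  refine Continuous.div ?_ (by fun_prop) ?_
  · refine Continuous.pow ?_ 2
    refine Continuous.sub (Continuous.add ?_ ?_) ?_
    · exact cont_gg.comp (f := fun q : ((ℝ × ℝ × ℝ) × ℝ) × ℝ => (q.1.1, q.1.2)) (by fun_prop)
    · exact cont_gg.comp (f := fun q : ((ℝ × ℝ × ℝ) × ℝ) × ℝ => (q.1.1, q.2)) (by fun_prop)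
    · exact cont_gg.comp (f := fun q : ((ℝ × ℝ × ℝ) × ℝ) × ℝ => (q.1.1, q.1.2 + q.2))
        (by fun_prop)
  · intro q
    have h2 : 0 < max q.1.2 (1 / 1000) := lt_max_of_lt_right (by norm_num)
    have h4 : 0 < max q.2 (1 / 1000) := lt_max_of_lt_right (by norm_num)
    have h3 : 0 < max (1 - q.1.2 - q.2) (1 / 3) := lt_max_of_lt_right (by norm_num)
    exact (mul_pos (mul_pos h2 h4) h3).ne'

theorem cont_R2 : Continuous (fun q : ℝ × ℝ × ℝ => R2 q.1 q.2.1 q.2.2) := by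
  have hint : ∀ (q : ℝ × ℝ × ℝ) (x a b : ℝ), IntervalIntegrable (cont_h q x) volume a b := by
    intro q x a b
    exact (cont_hc.comp (f := fun z : ℝ => ((q, x), z)) (by fun_prop)).intervalIntegrable _ _
  have h1 : (fun q : ℝ × ℝ × ℝ => R2 q.1 q.2.1 q.2.2) = fun q : ℝ × ℝ × ℝ =>
      ∫ x in (1 / 1000 : ℝ)..(1 / 3), ((∫ z in (0 : ℝ)..((1 - x) / 2), cont_h q x z) -
        ∫ z in (0 : ℝ)..x, cont_h q x z) := by
    funext q
    unfold R2
    refine intervalIntegral.integral_congr fun x hx => ?_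
    rw [Set.uIcc_of_le (by norm_num)] at hx
    have e1 : (∫ z in x..((1 - x) / 2), cont_h q x z) =
        (∫ z in (0 : ℝ)..((1 - x) / 2), cont_h q x z) - ∫ z in (0 : ℝ)..x, cont_h q x z :=
      (intervalIntegral.integral_interval_sub_left (hint q x _ _) (hint q x _ _)).symm
    refine Eq.trans ?_ e1
    refine intervalIntegral.integral_congr fun z hz => ?_
    rw [Set.uIcc_of_le (by linarith [hx.2])] at hz
    have h2 : max x (1 / 1000) = x := max_eq_left hx.1
    have h4 : max z (1 / 1000) = z := max_eq_left (by linarith [hx.1, hz.1])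
    have h3 : max (1 - x - z) (1 / 3) = 1 - x - z := max_eq_left (by linarith [hx.2, hz.2])
    simp only [cont_h, h2, h3, h4]
  rw [h1]
  refine intervalIntegral.continuous_parametric_intervalIntegral_of_continuous'
    (f := fun (q : ℝ × ℝ × ℝ) (x : ℝ) => (∫ z in (0 : ℝ)..((1 - x) / 2), cont_h q x z) -
        ∫ z in (0 : ℝ)..x, cont_h q x z) ?_ _ _
  refine Continuous.sub ?_ ?_
  · exact intervalIntegral.continuous_parametric_intervalIntegral_of_continuous
      (f := fun (p : (ℝ × ℝ × ℝ) × ℝ) (z : ℝ) => cont_h p.1 p.2 z) (a₀ := 0)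
      (s := fun p : (ℝ × ℝ × ℝ) × ℝ => (1 - p.2) / 2) cont_hc (by fun_prop)
  · exact intervalIntegral.continuous_parametric_intervalIntegral_of_continuous
      (f := fun (p : (ℝ × ℝ × ℝ) × ℝ) (z : ℝ) => cont_h p.1 p.2 z) (a₀ := 0)
      (s := fun p : (ℝ × ℝ × ℝ) × ℝ => p.2) cont_hc (by fun_prop)

theorem thm_Cont : St_Cont := ⟨cont_R1, cont_R2⟩

end Pool.Agent.PTN
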