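import Pool.Agent.PTN.Stmts

set_option autoImplicit false

/-!
# PTN: module DD1
-/

namespace Pool.Agent.PTN

open MeasureTheory Pool.Agent.PT

theorem dD1_zero (ρ : ℝ) (hρ : ρ < 1) : DD ρ 0 = Set.univ := by
  refine Set.eq_univ_of_forall fun u => ?_
  refine ⟨fun i => i.elim0, fun i => i.elim0, fun i => i.elim0, ?_⟩
  simpa using hρ

theorem dD1_one (ρ : ℝ) (hρ : ρ ≤ 1 / 2) :
    DD ρ 1 = (MeasurableEquiv.funUnique (Fin 1) ℝ) ⁻¹' Set.Ioo (1 / 1000) (1 / 2) := by
  ext u
  have h1 : (MeasurableEquiv.funUnique (Fin 1) ℝ) u = u 0 := rfl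
  rw [Set.mem_preimage, h1, Set.mem_Ioo]
  constructor
  · rintro ⟨h2, -, h4, -⟩
    have h2' := h2 0
    have h4' := h4 0
    rw [Fin.sum_univ_one] at h4'
    exact ⟨h2', by linarith⟩
  · rintro ⟨h2, h3⟩
    refine ⟨fun i => ?_, fun i j hij => ?_, fun i => ?_, ?_⟩
    · rw [Subsingleton.elim i 0]; exact h2
    · exact absurd hij (by rw [Subsingleton.elim i j]; exact lt_irrefl _)
    · rw [Subsingleton.elim i 0, Fin.sum_univ_one]; linarith
    · rw [Fin.sum_univ_one]; linarith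

theorem thm_DD1 : St_DD1 := by
  refine ⟨fun ρ k hρ => ?_, fun ρ k hρ => ?_⟩
  · rw [dD1_zero ρ hρ, Measure.restrict_univ, Measure.volume_pi_eq_dirac]
    rw [integral_dirac]
    simp [dens]
  · have hmp := volume_preserving_funUnique (Fin 1) ℝ
    have h1 := hmp.setIntegral_preimage_emb (MeasurableEquiv.measurableEmbedding _)
      (fun x : ℝ => k x / (x * (1 - x))) (Set.Ioo (1 / 1000) (1 / 2))
    rw [← dD1_one ρ hρ] at h1
    rw [intervalIntegral.integral_of_le (by norm_num), integral_Ioc_eq_integral_Ioo, ← h1]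
    refine integral_congr_ae (Filter.Eventually.of_forall fun u => ?_)
    have h2 : (MeasurableEquiv.funUnique (Fin 1) ℝ) u = u 0 := rfl
    simp only [h2, dens, Fin.prod_univ_one, Fin.sum_univ_one]
    ring

end Pool.Agent.PTN
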