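import Pool.Agent.PTN.Stmts

set_option autoImplicit false

/-!
# PTN, module DD2: the integral over `DD ρ 2`
-/

namespace Pool.Agent.PTN

open MeasureTheory Pool.Agent.PT

/-- the region in the plane -/
def dd2_E : Set (ℝ × ℝ) := {p | 1 / 1000 < p.1 ∧ p.1 < p.2 ∧ p.2 < (1 - p.1) / 2}

/-- its closure -/
def dd2_K : Set (ℝ × ℝ) := {p | 1 / 1000 ≤ p.1 ∧ p.1 ≤ p.2 ∧ p.2 ≤ (1 - p.1) / 2}

theorem dd2_pre (ρ : ℝ) (hρ : ρ ≤ 1 / 3) :
    DD ρ 2 = (MeasurableEquiv.finTwoArrow (α := ℝ)) ⁻¹' dd2_E := by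
  ext u
  have h1 : u ∈ DD ρ 2 ↔ (∀ i, 1 / 1000 < u i) ∧ StrictMono u ∧ (∀ i, u i < 1 - ∑ l, u l) ∧
      ρ < 1 - ∑ l, u l := Iff.rfl
  have h2 : u ∈ (MeasurableEquiv.finTwoArrow (α := ℝ)) ⁻¹' dd2_E ↔
      1 / 1000 < u 0 ∧ u 0 < u 1 ∧ u 1 < (1 - u 0) / 2 := Iff.rfl
  rw [h1, h2, Fin.forall_fin_two, Fin.forall_fin_two, Fin.sum_univ_two]
  constructor
  · rintro ⟨⟨a, b⟩, c, ⟨d, e⟩, f⟩
    have := c (show (0 : Fin 2) < 1 by decide)
    exact ⟨a, this, by linarith⟩
  · rintro ⟨a, b, c⟩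
    refine ⟨⟨a, by linarith⟩, ?_, ⟨by linarith, by linarith⟩, by linarith⟩
    intro i j hij
    match i, j with
    | 0, 0 => exact absurd hij (lt_irrefl _)
    | 0, 1 => exact b
    | 1, 0 => exact absurd hij (by decide)
    | 1, 1 => exact absurd hij (lt_irrefl _)

theorem dd2_meas : MeasurableSet dd2_E := by
  unfold dd2_E
  refine MeasurableSet.inter (measurableSet_lt measurable_const measurable_fst) ?_
  refine MeasurableSet.inter (measurableSet_lt measurable_fst measurable_snd) ?_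
  exact measurableSet_lt measurable_snd ((measurable_const.sub measurable_fst).div_const _)

theorem dd2_compact : IsCompact dd2_K := by
  have hc : IsClosed dd2_K := by
    unfold dd2_K
    refine IsClosed.inter (isClosed_le continuous_const continuous_fst) ?_
    refine IsClosed.inter (isClosed_le continuous_fst continuous_snd) ?_
    exact isClosed_le continuous_snd ((continuous_const.sub continuous_fst).div_const _)
  refine (isCompact_Icc (a := ((0 : ℝ), (0 : ℝ))) (b := ((1 : ℝ), (1 : ℝ)))).of_isClosed_subset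
    hc ?_
  rintro ⟨x, z⟩ ⟨h1, h2, h3⟩
  simp only at h1 h2 h3
  exact ⟨⟨by simp only; linarith, by simp only; linarith⟩,
    ⟨by simp only; linarith, by simp only; linarith⟩⟩

theorem dd2_int (k : ℝ → ℝ → ℝ) (hk : Continuous (fun q : ℝ × ℝ => k q.1 q.2)) :
    IntegrableOn (fun p : ℝ × ℝ => k p.1 p.2 / (p.1 * p.2 * (1 - p.1 - p.2))) dd2_E := by
  refine IntegrableOn.mono_set (t := dd2_K) ?_ ?_
  · refine ContinuousOn.integrableOn_compact dd2_compact ?_
    refine hk.continuousOn.div (by fun_prop) ?_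
    rintro ⟨x, z⟩ ⟨h1, h2, h3⟩
    simp only at h1 h2 h3
    have hx : 0 < x := by linarith
    have hz : 0 < z := by linarith
    have hw : 0 < 1 - x - z := by linarith
    exact (mul_pos (mul_pos hx hz) hw).ne'
  · rintro ⟨x, z⟩ ⟨h1, h2, h3⟩
    exact ⟨h1.le, h2.le, h3.le⟩

theorem dd2_slice (g : ℝ × ℝ → ℝ) (x : ℝ) :
    ∫ z, dd2_E.indicator g (x, z) =
      (Set.Ioo (1 / 1000 : ℝ) (1 / 3)).indicator (fun x => ∫ z in x..((1 - x) / 2), g (x, z)) x := by
  by_cases hx : x ∈ Set.Ioo (1 / 1000 : ℝ) (1 / 3)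
  · rw [Set.indicator_of_mem hx]
    have hle : x ≤ (1 - x) / 2 := by
      have := hx.2
      linarith
    rw [intervalIntegral.integral_of_le hle, integral_Ioc_eq_integral_Ioo,
      ← integral_indicator measurableSet_Ioo]
    refine integral_congr_ae (Filter.Eventually.of_forall fun z => ?_)
    by_cases hz : z ∈ Set.Ioo x ((1 - x) / 2)
    · have h : (x, z) ∈ dd2_E := ⟨hx.1, hz.1, hz.2⟩
      simp only [Set.indicator_of_mem h, Set.indicator_of_mem hz]
    · have h : (x, z) ∉ dd2_E := fun h => hz ⟨h.2.1, h.2.2⟩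
      simp only [Set.indicator_of_notMem h, Set.indicator_of_notMem hz]
  · rw [Set.indicator_of_notMem hx]
    have : ∀ z, dd2_E.indicator g (x, z) = 0 := by
      intro z
      refine Set.indicator_of_notMem ?_ _
      rintro ⟨h1, h2, h3⟩
      simp only at h1 h2 h3
      exact hx ⟨h1, by linarith⟩
    simp only [this, integral_zero]

theorem thm_DD2 : St_DD2 := by
  intro ρ k hρ hk
  have h1 : ∫ u in DD ρ 2, k (u 0) (u 1) * dens u =
      ∫ p in dd2_E, k p.1 p.2 / (p.1 * p.2 * (1 - p.1 - p.2)) := by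
    rw [dd2_pre ρ hρ, ← (volume_preserving_finTwoArrow ℝ).setIntegral_preimage_emb
      (MeasurableEquiv.measurableEmbedding _)]
    refine integral_congr_ae (Filter.Eventually.of_forall fun u => ?_)
    simp only [dens, Fin.prod_univ_two, Fin.sum_univ_two]
    change k (u 0) (u 1) * (1 / (u 0 * u 1 * (1 - (u 0 + u 1)))) =
      k (u 0) (u 1) / (u 0 * u 1 * (1 - u 0 - u 1))
    rw [sub_add_eq_sub_sub, mul_one_div]
  rw [h1, ← integral_indicator dd2_meas]
  have hI := (integrable_indicator_iff dd2_meas).2 (dd2_int k hk)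
  rw [Measure.volume_eq_prod] at hI ⊢
  rw [integral_prod _ hI]
  simp only [dd2_slice]
  rw [integral_indicator measurableSet_Ioo, ← integral_Ioc_eq_integral_Ioo,
    ← intervalIntegral.integral_of_le (by norm_num)]

end Pool.Agent.PTN
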