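import Pool.Agent.PTN.Stmts

set_option autoImplicit false

/-!
# PTN / DDm: measurability and bounds of `DD`, `dens`
-/

namespace Pool.Agent.PTN

open MeasureTheory Pool.Agent.PT

theorem ddm_meas (n : ℕ) (ρ : ℝ) : MeasurableSet (DD ρ n) := by
  have hs : Measurable (fun u : Fin n → ℝ => 1 - ∑ l, u l) := by fun_prop
  have h1 : MeasurableSet {u : Fin n → ℝ | ∀ i, 1 / 1000 < u i} := by
    have e : {u : Fin n → ℝ | ∀ i, 1 / 1000 < u i} = ⋂ i, {u : Fin n → ℝ | 1 / 1000 < u i} := by
      ext u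
      simp
    rw [e]
    exact MeasurableSet.iInter fun i => measurableSet_lt measurable_const (measurable_pi_apply i)
  have h2 : MeasurableSet {u : Fin n → ℝ | StrictMono u} := by
    have e : {u : Fin n → ℝ | StrictMono u} =
        ⋂ i, ⋂ j, ⋂ (_ : i < j), {u : Fin n → ℝ | u i < u j} := by
      ext u
      simp only [Set.mem_setOf_eq, Set.mem_iInter]
      exact ⟨fun h i j hij => h hij, fun h i j hij => h i j hij⟩
    rw [e]
    exact MeasurableSet.iInter fun i => MeasurableSet.iInter fun j => MeasurableSet.iInter fun _ =>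
      measurableSet_lt (measurable_pi_apply i) (measurable_pi_apply j)
  have h3 : MeasurableSet {u : Fin n → ℝ | ∀ i, u i < 1 - ∑ l, u l} := by
    have e : {u : Fin n → ℝ | ∀ i, u i < 1 - ∑ l, u l} =
        ⋂ i, {u : Fin n → ℝ | u i < 1 - ∑ l, u l} := by
      ext u
      simp
    rw [e]
    exact MeasurableSet.iInter fun i => measurableSet_lt (measurable_pi_apply i) hs
  have h4 : MeasurableSet {u : Fin n → ℝ | ρ < 1 - ∑ l, u l} :=
    measurableSet_lt measurable_const hs
  exact h1.inter (h2.inter (h3.inter h4))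

theorem thm_DDm : St_DDm := by
  intro n ρ hρ
  refine ⟨ddm_meas n ρ, ?_, ?_, ?_⟩
  · unfold dens
    exact measurable_const.div ((Finset.measurable_prod _ fun i _ => measurable_pi_apply i).mul
      (by fun_prop))
  · intro u hu i
    obtain ⟨h1, -, h3, -⟩ := hu
    have h4 : 0 ≤ ∑ l, u l := Finset.sum_nonneg fun l _ => by
      have := h1 l
      linarith
    have h5 := h1 i
    have h6 := h3 i
    exact ⟨by linarith, by linarith⟩
  · intro u hu
    obtain ⟨h1, -, -, h4⟩ := hu
    have h5 : (1 / 1000 : ℝ) ^ n ≤ ∏ i, u i := by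
      have h6 : ∏ _i : Fin n, (1 / 1000 : ℝ) ≤ ∏ i, u i :=
        Finset.prod_le_prod (fun i _ => by norm_num) fun i _ => (h1 i).le
      rwa [Finset.prod_const, Finset.card_univ, Fintype.card_fin] at h6
    have h6 : (0 : ℝ) < (1 / 1000 : ℝ) ^ n := by positivity
    have h7 : 0 < ∏ i, u i := lt_of_lt_of_le h6 h5
    have h8 : 0 < 1 - ∑ l, u l := by linarith
    unfold dens
    refine ⟨by positivity, ?_⟩
    have h9 : (1 / 1000 : ℝ) ^ n * ρ ≤ (∏ i, u i) * (1 - ∑ l, u l) :=
      mul_le_mul h5 h4.le hρ.le h7.le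
    calc 1 / ((∏ i, u i) * (1 - ∑ l, u l)) ≤ 1 / ((1 / 1000 : ℝ) ^ n * ρ) :=
          one_div_le_one_div_of_le (by positivity) h9
      _ = 1000 ^ n / ρ := by
          rw [one_div_pow, one_div_mul_eq_div, one_div_div]

end Pool.Agent.PTN
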