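import Pool.Agent.PTN.Stmts

set_option autoImplicit false

/-!
# PTN / HB
-/

namespace Pool.Agent.PTN

open MeasureTheory Pool.Agent.PT

theorem hb_gg0 (A B T : ℝ) (hT : 0 ≤ T) : gg A B T 0 = 0 := by
  unfold gg GR
  rw [min_eq_left hT]
  ring

theorem hb_sum3 (f : Finset (Fin 3) → ℝ) : ∑ S, f S =
    f ∅ + f {0} + f {1} + f {2} + f {0, 1} + f {0, 2} + f {1, 2} + f {0, 1, 2} := by
  rw [show (Finset.univ : Finset (Finset (Fin 3))) =
      {∅, {0}, {1}, {2}, {0, 1}, {0, 2}, {1, 2}, {0, 1, 2}} by decide]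
  rw [Finset.sum_insert (by decide), Finset.sum_insert (by decide),
      Finset.sum_insert (by decide), Finset.sum_insert (by decide),
      Finset.sum_insert (by decide), Finset.sum_insert (by decide),
      Finset.sum_pair (by decide)]
  ring

theorem thm_hB (h : St_hh) : St_hB := by
  intro c e ρ j a b hρ ha hb hab
  have hT : 0 ≤ ρ - max a b := by
    rcases max_cases a b with ⟨h1, _⟩ | ⟨h1, _⟩ <;> rw [h1] <;> linarith
  have H := fun u hu => h c e ρ j a b u hρ ha hb hab hu
  have g0 := hb_gg0 (Aab c e ρ a b) (Bab c e ρ a b) (ρ - max a b) hT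
  refine ⟨?_, ?_, ?_, ?_⟩
  · intro u
    unfold hB
    rw [show (Finset.univ : Finset (Finset (Fin 0))) = {∅} from rfl, Finset.sum_singleton]
    simp only [Finset.sum_empty, Finset.card_empty, pow_zero, one_mul]
    rw [H 0 le_rfl, g0, sub_zero]
  · intro u hu
    unfold hB
    rw [show (Finset.univ : Finset (Finset (Fin 1))) = {∅, {0}} by decide,
      Finset.sum_pair (by decide)]
    simp only [Finset.sum_empty, Finset.card_empty, pow_zero, one_mul, Finset.sum_singleton,
      Finset.card_singleton, pow_one]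
    rw [H 0 le_rfl, H _ (hu 0), g0]
    ring
  · intro u hu
    unfold hB
    rw [show (Finset.univ : Finset (Finset (Fin 2))) = {∅, {0}, {1}, {0, 1}} by decide]
    rw [Finset.sum_insert (by decide), Finset.sum_insert (by decide),
      Finset.sum_pair (by decide)]
    rw [show (({0, 1} : Finset (Fin 2))).card = 2 by decide, Finset.sum_pair (by decide)]
    simp only [Finset.sum_empty, Finset.card_empty, pow_zero, one_mul, Finset.sum_singleton,
      Finset.card_singleton, pow_one]
    rw [H 0 le_rfl, H _ (hu 0), H _ (hu 1), H _ (add_nonneg (hu 0) (hu 1)), g0]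
    ring
  · intro u hu
    unfold hB
    rw [hb_sum3]
    rw [show (({0, 1} : Finset (Fin 3))).card = 2 by decide,
      show (({0, 2} : Finset (Fin 3))).card = 2 by decide,
      show (({1, 2} : Finset (Fin 3))).card = 2 by decide,
      show (({0, 1, 2} : Finset (Fin 3))).card = 3 by decide,
      show ∑ i ∈ ({0, 1} : Finset (Fin 3)), u i = u 0 + u 1 from Finset.sum_pair (by decide),
      show ∑ i ∈ ({0, 2} : Finset (Fin 3)), u i = u 0 + u 2 from Finset.sum_pair (by decide),
      show ∑ i ∈ ({1, 2} : Finset (Fin 3)), u i = u 1 + u 2 from Finset.sum_pair (by decide),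
      show ∑ i ∈ ({0, 1, 2} : Finset (Fin 3)), u i = u 0 + u 1 + u 2 from Fin.sum_univ_three u]
    simp only [Finset.sum_empty, Finset.card_empty, pow_zero, one_mul, Finset.sum_singleton,
      Finset.card_singleton, pow_one]
    rw [H 0 le_rfl, H _ (hu 0), H _ (hu 1), H _ (hu 2), H _ (add_nonneg (hu 0) (hu 1)),
      H _ (add_nonneg (hu 0) (hu 2)), H _ (add_nonneg (hu 1) (hu 2)),
      H _ (add_nonneg (add_nonneg (hu 0) (hu 1)) (hu 2)), g0]
    ring

end Pool.Agent.PTN
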