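import Pool.Agent.PTN.Stmts

set_option autoImplicit false

/-!
# PTN / Hh: explicit tail integral of the profile
-/

namespace Pool.Agent.PTN

open MeasureTheory Pool.Agent.PT

theorem hh_reg (ρ : ℝ) (j : Fin 3) (a b t : ℝ) (ha : 0 ≤ a) (hb : 0 ≤ b) (hab : a + b ≤ ρ)
    (ht : 0 ≤ t) : Reg ρ (cor j a b t) ↔ t ≤ ρ - max a b := by
  have h1 : t ≤ ρ - max a b ↔ a + t ≤ ρ ∧ b + t ≤ ρ := by
    rw [le_sub_iff_add_le, add_comm, max_add_add_right a b t |>.symm, max_le_iff]
  rw [h1]
  unfold Reg
  constructor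
  · rintro ⟨-, h2⟩
    fin_cases j
    · exact ⟨by simpa [cor, o1] using h2 1 0 (by decide), by simpa [cor, o1] using h2 2 0 (by decide)⟩
    · exact ⟨by simpa [cor, o1] using h2 0 1 (by decide), by simpa [cor, o1] using h2 2 1 (by decide)⟩
    · exact ⟨by simpa [cor, o1] using h2 0 2 (by decide), by simpa [cor, o1] using h2 1 2 (by decide)⟩
  · rintro ⟨h2, h3⟩
    have h4 : b + a ≤ ρ := by linarith
    have h5 : t + a ≤ ρ := by linarith
    have h6 : t + b ≤ ρ := by linarith
    constructor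
    · intro i
      unfold cor
      split_ifs <;> assumption
    · intro i i' hii
      fin_cases j <;> fin_cases i <;> fin_cases i' <;>
        simp_all [cor, o1]

theorem hh_val (c e ρ : ℝ) (j : Fin 3) (a b t : ℝ) (ha : 0 ≤ a) (hb : 0 ≤ b) (hab : a + b ≤ ρ)
    (ht : 0 ≤ t) (htT : t ≤ ρ - max a b) :
    FP c e ρ (cor j a b t) = Aab c e ρ a b + Bab c e ρ a b * t := by
  unfold FP
  rw [if_pos ((hh_reg ρ j a b t ha hb hab ht).2 htT)]
  unfold Aab Bab
  fin_cases j
  · simp [cor, o1]
    ring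
  · simp [cor, o1]
    ring
  · simp [cor, o1]
    ring

theorem hh_val0 (c e ρ : ℝ) (j : Fin 3) (a b t : ℝ) (ha : 0 ≤ a) (hb : 0 ≤ b) (hab : a + b ≤ ρ)
    (ht : 0 ≤ t) (htT : ρ - max a b < t) : FP c e ρ (cor j a b t) = 0 := by
  unfold FP
  rw [if_neg]
  intro h
  exact absurd ((hh_reg ρ j a b t ha hb hab ht).1 h) (not_le.2 htT)

theorem hh_zero (c e ρ : ℝ) (j : Fin 3) (a b x y : ℝ) (ha : 0 ≤ a) (hb : 0 ≤ b)
    (hab : a + b ≤ ρ) (hx : ρ - max a b ≤ x) (hy : ρ - max a b ≤ y) :
    (IntervalIntegrable (fun t => FP c e ρ (cor j a b t)) volume x y) ∧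
    ∫ t in x..y, FP c e ρ (cor j a b t) = 0 := by
  have hT : 0 ≤ ρ - max a b := by
    rcases max_choice a b with h | h <;> rw [h] <;> linarith
  have h1 : Set.EqOn (fun _ : ℝ => (0 : ℝ)) (fun t => FP c e ρ (cor j a b t)) (Set.uIoc x y) := by
    intro t ht
    have h2 : ρ - max a b < t := (le_min hx hy).trans_lt ht.1
    exact (hh_val0 c e ρ j a b t ha hb hab (hT.trans h2.le) h2).symm
  refine ⟨(intervalIntegrable_const (c := (0 : ℝ))).congr h1, ?_⟩
  rw [intervalIntegral.integral_congr_ae (g := fun _ => (0 : ℝ))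
    (Filter.Eventually.of_forall fun t ht => (h1 ht).symm)]
  simp

theorem thm_hh : St_hh := by
  intro c e ρ j a b u hρ ha hb hab hu
  have hT : 0 ≤ ρ - max a b := by
    rcases max_choice a b with h | h <;> rw [h] <;> linarith
  have hTρ : ρ - max a b ≤ ρ := by
    have := ha.trans (le_max_left a b)
    linarith
  unfold hh gg
  rcases le_total u (ρ - max a b) with h | h
  · rw [min_eq_left h]
    have h1 : Set.EqOn (fun t : ℝ => Aab c e ρ a b + Bab c e ρ a b * t)
        (fun t => FP c e ρ (cor j a b t)) (Set.uIoc u (ρ - max a b)) := by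
      intro t ht
      rw [Set.uIoc_of_le h] at ht
      exact (hh_val c e ρ j a b t ha hb hab (hu.trans ht.1.le) ht.2).symm
    have hc : Continuous fun t : ℝ => Aab c e ρ a b + Bab c e ρ a b * t := by fun_prop
    have h2 : IntervalIntegrable (fun t => FP c e ρ (cor j a b t)) volume u (ρ - max a b) :=
      (hc.intervalIntegrable _ _).congr h1
    obtain ⟨h3, h4⟩ := hh_zero c e ρ j a b (ρ - max a b) ρ ha hb hab le_rfl hTρ
    rw [← intervalIntegral.integral_add_adjacent_intervals h2 h3, h4, add_zero,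
      intervalIntegral.integral_congr_ae (g := fun t : ℝ => Aab c e ρ a b + Bab c e ρ a b * t)
        (Filter.Eventually.of_forall fun t ht => (h1 ht).symm)]
    have i1 : IntervalIntegrable (fun _ : ℝ => Aab c e ρ a b) volume u (ρ - max a b) :=
      continuous_const.intervalIntegrable _ _
    have i2 : IntervalIntegrable (fun t : ℝ => Bab c e ρ a b * t) volume u (ρ - max a b) :=
      (continuous_const.mul continuous_id).intervalIntegrable _ _
    have i3 : ∫ t in u..(ρ - max a b), Bab c e ρ a b * t =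
        Bab c e ρ a b * (((ρ - max a b) ^ 2 - u ^ 2) / 2) := by
      rw [← integral_id]
      exact intervalIntegral.integral_const_mul _ _
    rw [intervalIntegral.integral_add i1 i2, i3, intervalIntegral.integral_const, smul_eq_mul]
    unfold GR
    ring
  · rw [min_eq_right h, sub_self]
    exact (hh_zero c e ρ j a b u ρ ha hb hab h hTρ).2

end Pool.Agent.PTN
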