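import Pool.Agent.PTN.Stmts

set_option autoImplicit false

/-!
# PTN / II
-/

namespace Pool.Agent.PTN

open MeasureTheory Pool.Agent.PT

theorem ii_cut (f : ℝ → ℝ) {T ρ : ℝ} (h0 : 0 ≤ T) (h : T ≤ ρ) :
    ∫ x in (0 : ℝ)..ρ, (if x ≤ T then f x else 0) = ∫ x in (0 : ℝ)..T, f x := by
  rw [intervalIntegral.integral_of_le (h0.trans h), intervalIntegral.integral_of_le h0]
  have h1 : (fun x => if x ≤ T then f x else 0) = (Set.Iic T).indicator f := by
    funext x
    by_cases hx : x ≤ T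
    · rw [if_pos hx, Set.indicator_of_mem (Set.mem_Iic.2 hx)]
    · rw [if_neg hx, Set.indicator_of_notMem (fun h => hx (Set.mem_Iic.1 h))]
  rw [h1, setIntegral_indicator measurableSet_Iic]
  congr 2
  ext x
  simp only [Set.mem_inter_iff, Set.mem_Ioc, Set.mem_Iic]
  constructor
  · rintro ⟨⟨h1, _⟩, h3⟩
    exact ⟨h1, h3⟩
  · rintro ⟨h1, h2⟩
    exact ⟨⟨h1, h2.trans h⟩, h2⟩

theorem ii_reg {ρ a b t : ℝ} (ha : 0 ≤ a) (hb : 0 ≤ b) (ht : 0 ≤ t) :
    Reg ρ ![a, b, t] ↔ b ≤ ρ - a ∧ t ≤ ρ - max a b := by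
  have key : Reg ρ ![a, b, t] ↔ a + b ≤ ρ ∧ a + t ≤ ρ ∧ b + t ≤ ρ := by
    constructor
    · intro h
      exact ⟨h.2 0 1 (by decide), h.2 0 2 (by decide), h.2 1 2 (by decide)⟩
    · rintro ⟨h1, h2, h3⟩
      refine ⟨fun i => ?_, fun i j hij => ?_⟩
      · fin_cases i
        · exact ha
        · exact hb
        · exact ht
      · fin_cases i <;> fin_cases j
        · exact absurd rfl hij
        · exact h1
        · exact h2
        · exact (add_comm b a).trans_le h1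
        · exact absurd rfl hij
        · exact h3
        · exact (add_comm t a).trans_le h2
        · exact (add_comm t b).trans_le h3
        · exact absurd rfl hij
  rw [key]
  rcases max_cases a b with ⟨h1, h2⟩ | ⟨h1, h2⟩ <;> rw [h1]
  · constructor
    · rintro ⟨h3, h4, h5⟩
      exact ⟨by linarith, by linarith⟩
    · rintro ⟨h3, h4⟩
      exact ⟨by linarith, by linarith, by linarith⟩
  · constructor
    · rintro ⟨h3, h4, h5⟩
      exact ⟨by linarith, by linarith⟩
    · rintro ⟨h3, h4⟩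
      exact ⟨by linarith, by linarith, by linarith⟩

theorem thm_II : St_II := by
  intro c e ρ hρ
  unfold II
  refine intervalIntegral.integral_congr fun a ha => ?_
  rw [Set.uIcc_of_le hρ.le] at ha
  obtain ⟨ha0, ha1⟩ := ha
  refine Eq.trans ?_ (ii_cut (ρ := ρ) (fun b => ∫ t in (0 : ℝ)..(ρ - max a b),
    (Aab c e ρ a b + Bab c e ρ a b * t) ^ 2) (sub_nonneg.2 ha1) (by linarith))
  refine intervalIntegral.integral_congr fun b hb => ?_
  rw [Set.uIcc_of_le hρ.le] at hb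
  obtain ⟨hb0, hb1⟩ := hb
  have hT0 : 0 ≤ ρ - max a b := by
    rcases max_cases a b with ⟨h1, _⟩ | ⟨h1, _⟩ <;> rw [h1] <;> linarith
  have hT1 : ρ - max a b ≤ ρ := by
    rcases max_cases a b with ⟨h1, _⟩ | ⟨h1, _⟩ <;> rw [h1] <;> linarith
  show ∫ t in (0 : ℝ)..ρ, FP c e ρ ![a, b, t] ^ 2 = if b ≤ ρ - a then _ else _
  by_cases hab : b ≤ ρ - a
  · rw [if_pos hab]
    refine Eq.trans ?_ (ii_cut (fun t => (Aab c e ρ a b + Bab c e ρ a b * t) ^ 2) hT0 hT1)
    refine intervalIntegral.integral_congr fun t ht => ?_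
    rw [Set.uIcc_of_le hρ.le] at ht
    show FP c e ρ ![a, b, t] ^ 2 = if t ≤ ρ - max a b then _ else _
    by_cases h : t ≤ ρ - max a b
    · rw [if_pos h, FP, if_pos ((ii_reg ha0 hb0 ht.1).2 ⟨hab, h⟩)]
      show (1 - c * (a + b + t) / ρ + e * (a * b + a * t + b * t) / ρ ^ 2) ^ 2 = _
      unfold Aab Bab
      congr 1
      field_simp
      ring
    · rw [if_neg h, FP, if_neg (fun h' => h ((ii_reg ha0 hb0 ht.1).1 h').2)]
      norm_num
  · rw [if_neg hab]
    refine (intervalIntegral.integral_congr (g := fun _ => (0 : ℝ)) fun t ht => ?_).trans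
      intervalIntegral.integral_zero
    rw [Set.uIcc_of_le hρ.le] at ht
    show FP c e ρ ![a, b, t] ^ 2 = 0
    rw [FP, if_neg (fun h' => hab ((ii_reg ha0 hb0 ht.1).1 h').1)]
    norm_num

end Pool.Agent.PTN
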