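import Pool.Agent.PTN.Stmts

set_option autoImplicit false

/-!
# PTN, module Low1: the lower bound for `R1`
-/

namespace Pool.Agent.PTN

open MeasureTheory Pool.Agent.PT

theorem low1_ev_GP {α : Type} [Ops α] {ev : α → ℝ} (h : Hom ev) (A B x : α) :
    ev (GP A B x) = GR (ev A) (ev B) (ev x) := by
  unfold GP GR
  rw [h.add, h.mul, h.sc, h.mul, h.mul]
  push_cast
  ring

theorem low1_ev_q0 {α : Type} [Ops α] {ev : α → ℝ} (h : Hom ev) (A B T : α) :
    ev (q0 A B T) = GR (ev A) (ev B) (ev T) ^ 2 := by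
  unfold q0
  rw [h.mul, low1_ev_GP h]
  ring

theorem low1_evL_xG2 {α : Type} [Ops α] {ev : α → ℝ} (h : Hom ev) (A B : α) (x : ℝ) :
    evL ev x (xG2 A B) = x * (ev A + ev B * x / 2) ^ 2 := by
  unfold xG2
  simp only [evL, h.zero, h.mul, h.sc]
  push_cast
  ring

theorem low1_xG2_eq (A B x : ℝ) (hx : x ≠ 0) :
    GR A B x ^ 2 / x = x * (A + B * x / 2) ^ 2 := by
  unfold GR
  field_simp

theorem low1_continuousOn (A B T : ℝ) :
    ContinuousOn (fun x : ℝ => gg A B T x ^ 2 / (x * (1 - x))) (Set.Icc (1 / 1000) (1 / 2)) := by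
  apply ContinuousOn.div
  · unfold gg GR
    fun_prop
  · fun_prop
  · intro x hx
    have h1 : (0 : ℝ) < x := lt_of_lt_of_le (by norm_num) hx.1
    have h2 : (0 : ℝ) < 1 - x := by
      have := hx.2
      linarith
    positivity

theorem low1_integral_inv (T : ℝ) (h0 : 0 < T) (h1 : T ≤ 1 / 2) :
    ∫ x in T..(1 / 2 : ℝ), 1 / (x * (1 - x)) = Real.log (1 / T) + Real.log (1 - T) := by
  have hd : ∀ x ∈ Set.uIcc T (1 / 2 : ℝ),
      HasDerivAt (fun x => Real.log x - Real.log (1 - x)) (1 / (x * (1 - x))) x := by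
    intro x hx
    rw [Set.uIcc_of_le h1] at hx
    have hx0 : 0 < x := lt_of_lt_of_le h0 hx.1
    have hx1 : 0 < 1 - x := by
      have := hx.2
      linarith
    have e1 := Real.hasDerivAt_log hx0.ne'
    have e2 : HasDerivAt (fun x : ℝ => Real.log (1 - x)) (-1 / (1 - x)) x := by
      have e3 : HasDerivAt (fun x : ℝ => 1 - x) (-1) x := by
        simpa using (hasDerivAt_id x).const_sub 1
      exact e3.log hx1.ne'
    refine (e1.sub e2).congr_deriv ?_
    field_simp
    ring
  have hc : ContinuousOn (fun x : ℝ => 1 / (x * (1 - x))) (Set.uIcc T (1 / 2 : ℝ)) := by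
    rw [Set.uIcc_of_le h1]
    apply ContinuousOn.div
    · fun_prop
    · fun_prop
    · intro x hx
      have hx0 : 0 < x := lt_of_lt_of_le h0 hx.1
      have hx1 : 0 < 1 - x := by
        have := hx.2
        linarith
      positivity
  rw [intervalIntegral.integral_eq_sub_of_hasDerivAt hd hc.intervalIntegrable]
  rw [one_div T, Real.log_inv]
  have h2 : (1 : ℝ) - 1 / 2 = 1 / 2 := by norm_num
  rw [h2]
  ring

theorem thm_Low1 (h : St_Ser) : St_Low1 := by
  intro α _ ev hev r L n m K A B T hr hr2 hL hm hT1 hT2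
  obtain ⟨-, hs2, hs3, -, hs5⟩ := h
  have hrR : (r : ℝ) ≤ 1 / 2 := by
    have : ((r : ℚ) : ℝ) ≤ ((1 / 2 : ℚ) : ℝ) := by exact_mod_cast hr2
    simpa using this
  have hT0 : 0 < ev T := lt_of_lt_of_le (by norm_num) hT1
  have hTh : ev T ≤ 1 / 2 := hT2.trans hrR
  have hTm : (1 / 1000 : ℝ) ≤ ev T := le_trans (by norm_num) hT1
  have hcont := low1_continuousOn (ev A) (ev B) (ev T)
  have hi1 : IntervalIntegrable (fun x : ℝ => gg (ev A) (ev B) (ev T) x ^ 2 / (x * (1 - x)))
      volume (1 / 1000) (ev T) := by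
    apply ContinuousOn.intervalIntegrable
    rw [Set.uIcc_of_le hTm]
    exact hcont.mono (Set.Icc_subset_Icc_right hTh)
  have hi2 : IntervalIntegrable (fun x : ℝ => gg (ev A) (ev B) (ev T) x ^ 2 / (x * (1 - x)))
      volume (ev T) (1 / 2) := by
    apply ContinuousOn.intervalIntegrable
    rw [Set.uIcc_of_le hTh]
    exact hcont.mono (Set.Icc_subset_Icc_left hTm)
  unfold R1
  rw [← intervalIntegral.integral_add_adjacent_intervals hi1 hi2]
  apply add_le_add
  · -- below `T`
    unfold q1a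
    rw [← integral_evL hev]
    have hk : ev (kk (1 / 1000)) = 1 / 1000 := by
      rw [hev.hkk]
      norm_num
    rw [hk]
    apply intervalIntegral.integral_mono_on hTm
    · exact (continuous_evL ev _).intervalIntegrable _ _
    · exact hi1
    · intro x hx
      have hx0 : 0 < x := lt_of_lt_of_le (by norm_num) hx.1
      have hx1 : 0 < 1 - x := by
        have := hx.2
        linarith
      rw [(hev.list x).mul, low1_evL_xG2 hev, hev.mapk]
      unfold gg
      rw [min_eq_left hx.2]
      have e1 := (hs3 K x hx0.le (by linarith)).1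
      unfold evQ at e1
      have e2 : GR (ev A) (ev B) x ^ 2 / (x * (1 - x)) =
          (x * (ev A + ev B * x / 2) ^ 2) * (1 / (1 - x)) := by
        rw [← low1_xG2_eq _ _ _ hx0.ne']
        field_simp
      rw [e2]
      exact mul_le_mul_of_nonneg_left e1 (by positivity)
  · -- above `T`
    have e1 : ∫ x in (ev T)..(1 / 2 : ℝ), gg (ev A) (ev B) (ev T) x ^ 2 / (x * (1 - x)) =
        ∫ x in (ev T)..(1 / 2 : ℝ), GR (ev A) (ev B) (ev T) ^ 2 * (1 / (x * (1 - x))) := by
      apply intervalIntegral.integral_congr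
      intro x hx
      rw [Set.uIcc_of_le hTh] at hx
      show GR (ev A) (ev B) (min x (ev T)) ^ 2 / (x * (1 - x)) = _
      rw [min_eq_right hx.1]
      ring
    rw [e1, intervalIntegral.integral_const_mul, low1_integral_inv _ hT0 hTh]
    unfold q1b
    rw [hev.mul, hev.add, low1_ev_q0 hev, hev.hatQ]
    apply mul_le_mul_of_nonneg_left _ (sq_nonneg _)
    apply add_le_add
    · exact hs5 α _ ev hev r L n T hr hL hT0 hT2
    · exact hs2 m r (ev T) hm (by linarith) hT0.le hT2

end Pool.Agent.PTN
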