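import Pool.Agent.PTN.Stmts

set_option autoImplicit false

/-!
# PTN / Low2a: lower bound for `P2a`
-/

namespace Pool.Agent.PTN

open MeasureTheory Pool.Agent.PT

/-- the integrand of `P2a` is continuous on `[t, 1/3]` -/
theorem low2a_cont (a b : ℝ) (ha : 0 < a) (hab : a ≤ b) (hb : b ≤ 1 / 3) :
    IntervalIntegrable (fun v : ℝ => Real.log ((1 - 2 * v) / v) / (v * (1 - v))) volume a b := by
  apply ContinuousOn.intervalIntegrable
  rw [Set.uIcc_of_le hab]
  intro v hv
  have h1 : 0 < v := lt_of_lt_of_le ha hv.1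
  have h2 : v ≤ 1 / 3 := hv.2.trans hb
  have h3 : (1 - 2 * v) / v ≠ 0 := (div_pos (by linarith) h1).ne'
  have h4 : v * (1 - v) ≠ 0 := (mul_pos h1 (by linarith)).ne'
  apply ContinuousAt.continuousWithinAt
  have hn : ContinuousAt (fun v : ℝ => 1 - 2 * v) v := by fun_prop
  have hq : ContinuousAt (fun v : ℝ => (1 - 2 * v) / v) v := hn.div continuousAt_id h1.ne'
  have hlog : ContinuousAt (fun v : ℝ => Real.log ((1 - 2 * v) / v)) v := hq.log h3
  have hd : ContinuousAt (fun v : ℝ => v * (1 - v)) v := by fun_prop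
  exact hlog.div hd h4

/-- second part, pointwise -/
theorem low2a_right (v : ℝ) (h1 : 0 < v) (h2 : v ≤ 1 / 3) :
    27 / 2 * (1 - 3 * v) ≤ Real.log ((1 - 2 * v) / v) / (v * (1 - v)) := by
  have hx : 0 ≤ (1 - 3 * v) / v := div_nonneg (by linarith) h1.le
  have h3 := Real.le_log_one_add_of_nonneg hx
  have h4 : 1 + (1 - 3 * v) / v = (1 - 2 * v) / v := by
    field_simp
    ring
  rw [h4] at h3
  have h5 : 2 * ((1 - 3 * v) / v) / ((1 - 3 * v) / v + 2) = 2 * (1 - 3 * v) / (1 - v) := by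
    have e1 : (1 - 3 * v) / v + 2 = (1 - v) / v := by
      field_simp
      ring
    have e2 : (1 - v) ≠ 0 := by linarith
    rw [e1]
    field_simp
  rw [h5] at h3
  have h6 : 0 < v * (1 - v) := mul_pos h1 (by linarith)
  rw [le_div_iff₀ h6]
  refine le_trans ?_ h3
  have h7 : 0 < 1 - v := by linarith
  rw [le_div_iff₀ h7]
  have h8 : v * (1 - v) * (1 - v) ≤ 4 / 27 := by
    have e : 4 / 27 - v * (1 - v) * (1 - v) = (v - 1 / 3) ^ 2 * (4 / 3 - v) := by ring
    have e2 : 0 ≤ (v - 1 / 3) ^ 2 * (4 / 3 - v) := mul_nonneg (sq_nonneg _) (by linarith)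
    linarith
  have h9 : 0 ≤ 1 - 3 * v := by linarith
  nlinarith [mul_le_mul_of_nonneg_left h8 h9]

theorem thm_Low2a (h : St_Ser) : St_Low2a := by
  obtain ⟨-, hs2, hs3, -, hs5⟩ := h
  intro α _ ev hev r L n m k l T hr hr3 hL hm hT1 hT2
  have hr0 : (0 : ℝ) < (r : ℝ) := by exact_mod_cast hr
  have hr3' : (r : ℝ) ≤ 1 / 3 := by
    have : ((r : ℚ) : ℝ) ≤ ((1 / 3 : ℚ) : ℝ) := by exact_mod_cast hr3
    push_cast at this
    exact this
  set t : ℝ := ev T with ht
  have ht0 : 0 < t := by linarith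
  -- pointwise bound on `[t, r]`
  have hpt : ∀ v : ℝ, t ≤ v → v ≤ r → evL ev v ((w2a r L n m k l).map kk) ≤
      Real.log ((1 - 2 * v) / v) / (v * (1 - v)) := by
    intro v hv1 hv2
    have hv0 : 0 < v := lt_of_lt_of_le ht0 hv1
    have hv3 : v ≤ 1 / 3 := hv2.trans hr3'
    rw [hev.mapk]
    have hH : Hom (evL (fun q : ℚ => (q : ℝ)) v) := Hom.rat.list v
    have hX : evL (fun q : ℚ => (q : ℝ)) v (XX : List ℚ) = v := Hom.rat.hXX v
    have hlog1 := hs5 (List ℚ) _ (evL (fun q : ℚ => (q : ℝ)) v) hH r L n (XX : List ℚ) hr hL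
      (by rw [hX]; exact hv0) (by rw [hX]; exact hv2)
    rw [hX] at hlog1
    have hlog2 := hs2 m (2 * r) (2 * v) hm (by linarith) (by linarith)
      (by push_cast; linarith)
    have hq0 : (0 : ℝ) ≤ 1 - 1 / r * v := by
      have : 1 / (r : ℝ) * v ≤ 1 := by
        rw [one_div, inv_mul_le_iff₀ hr0]
        linarith
      linarith
    have hq1 : (1 : ℝ) - 1 / r * v < 1 := by
      have : 0 < 1 / (r : ℝ) * v := mul_pos (one_div_pos.2 hr0) hv0
      linarith
    obtain ⟨hg1, hg1'⟩ := hs3 k (1 - 1 / r * v) hq0 hq1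
    obtain ⟨hg2, hg2'⟩ := hs3 l v hv0.le (by linarith)
    have hval : evL (fun q : ℚ => (q : ℝ)) v (w2a r L n m k l) =
        (evL (fun q : ℚ => (q : ℝ)) v (LT r L n (XX : List ℚ)) + evQ (2 * v) (lg1 m (2 * r))) *
          (1 / r * evQ (1 - 1 / r * v) (ge k)) * evQ v (ge l) := by
      unfold w2a
      rw [hH.mul, hH.mul, hH.add, hH.sc, hH.hatQ, hH.hatQ, hH.hatQ, hH.hsub, hH.one, hH.sc, hH.sc,
        hX]
      push_cast
      rfl
    rw [hval]
    set lt := evL (fun q : ℚ => (q : ℝ)) v (LT r L n (XX : List ℚ))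
    set l1 := evQ (2 * v) (lg1 m (2 * r))
    set g1 := evQ (1 - 1 / r * v) (ge k)
    set g2 := evQ v (ge l)
    have hℓ : Real.log ((1 - 2 * v) / v) = Real.log (1 / v) + Real.log (1 - 2 * v) := by
      rw [← Real.log_mul (one_div_pos.2 hv0).ne' (by linarith)]
      congr 1
      field_simp
    have hℓ0 : 0 ≤ Real.log ((1 - 2 * v) / v) := by
      apply Real.log_nonneg
      rw [le_div_iff₀ hv0]
      linarith
    have hs : lt + l1 ≤ Real.log ((1 - 2 * v) / v) := by
      rw [hℓ]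
      linarith
    have hg1r : 1 / (r : ℝ) * g1 ≤ 1 / v := by
      have e : 1 / (1 - (1 - 1 / (r : ℝ) * v)) = r / v := by
        have hv0' : v ≠ 0 := hv0.ne'
        have hr0' : (r : ℝ) ≠ 0 := hr0.ne'
        rw [sub_sub_cancel]
        field_simp
      rw [e] at hg1
      calc 1 / (r : ℝ) * g1 ≤ 1 / r * (r / v) :=
            mul_le_mul_of_nonneg_left hg1 (one_div_pos.2 hr0).le
        _ = 1 / v := by field_simp
    have hg1r0 : 0 ≤ 1 / (r : ℝ) * g1 := mul_nonneg (one_div_pos.2 hr0).le hg1'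
    calc (lt + l1) * (1 / r * g1) * g2
        ≤ Real.log ((1 - 2 * v) / v) * (1 / r * g1) * g2 :=
          mul_le_mul_of_nonneg_right (mul_le_mul_of_nonneg_right hs hg1r0) hg2'
      _ ≤ Real.log ((1 - 2 * v) / v) * (1 / v) * g2 :=
          mul_le_mul_of_nonneg_right (mul_le_mul_of_nonneg_left hg1r hℓ0) hg2'
      _ ≤ Real.log ((1 - 2 * v) / v) * (1 / v) * (1 / (1 - v)) :=
          mul_le_mul_of_nonneg_left hg2 (mul_nonneg hℓ0 (one_div_pos.2 hv0).le)
      _ = Real.log ((1 - 2 * v) / v) / (v * (1 - v)) := by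
          have : (1 - v) ≠ 0 := by linarith
          field_simp
  -- first integral
  have hI1 : ev (intg ((w2a r L n m k l).map kk) T (kk r)) ≤
      ∫ v in t..(r : ℝ), Real.log ((1 - 2 * v) / v) / (v * (1 - v)) := by
    rw [← integral_evL hev, hev.hkk]
    apply intervalIntegral.integral_mono_on hT2
    · exact (continuous_evL ev _).intervalIntegrable _ _
    · exact low2a_cont t r ht0 hT2 hr3'
    · intro v hv
      exact hpt v hv.1 hv.2
  -- second integral
  have hI2 : ((9 / 4 * (1 - 3 * r) ^ 2 : ℚ) : ℝ) ≤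
      ∫ v in (r : ℝ)..(1 / 3), Real.log ((1 - 2 * v) / v) / (v * (1 - v)) := by
    have e : ∫ v in (r : ℝ)..(1 / 3), 27 / 2 * (1 - 3 * v) =
        ((9 / 4 * (1 - 3 * r) ^ 2 : ℚ) : ℝ) := by
      have hd : ∀ x ∈ Set.uIcc (r : ℝ) (1 / 3),
          HasDerivAt (fun v : ℝ => -(9 / 4) * (1 - 3 * v) ^ 2) (27 / 2 * (1 - 3 * x)) x := by
        intro x _
        have h1 : HasDerivAt (fun v : ℝ => 1 - 3 * v) (-3) x := by
          have := ((hasDerivAt_id x).const_mul 3).const_sub 1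
          simpa using this
        have h2 := (h1.pow 2).const_mul (-(9 / 4) : ℝ)
        refine h2.congr_deriv ?_
        push_cast
        ring
      rw [intervalIntegral.integral_eq_sub_of_hasDerivAt hd
        (Continuous.intervalIntegrable (by fun_prop) _ _)]
      push_cast
      ring
    rw [← e]
    apply intervalIntegral.integral_mono_on hr3'
    · exact Continuous.intervalIntegrable (by fun_prop) _ _
    · exact low2a_cont r (1 / 3) hr0 hr3' le_rfl
    · intro v hv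
      exact low2a_right v (lt_of_lt_of_le hr0 hv.1) hv.2
  have hsplit : P2a t = (∫ v in t..(r : ℝ), Real.log ((1 - 2 * v) / v) / (v * (1 - v))) +
      ∫ v in (r : ℝ)..(1 / 3), Real.log ((1 - 2 * v) / v) / (v * (1 - v)) := by
    unfold P2a
    rw [intervalIntegral.integral_add_adjacent_intervals (low2a_cont t r ht0 hT2 hr3')
      (low2a_cont r (1 / 3) hr0 hr3' le_rfl)]
  rw [hsplit]
  unfold p2a
  rw [hev.add, hev.hkk]
  linarith

end Pool.Agent.PTN
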