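import Pool.Agent.PTN.Stmts

set_option autoImplicit false

/-!
# PTN: lower bound for `P2b`
-/

namespace Pool.Agent.PTN

open MeasureTheory Pool.Agent.PT

/-- value of `xG2` -/
theorem low2b_xG2 {α : Type} [Ops α] {ev : α → ℝ} (h : Hom ev) (A B : α) (x : ℝ) :
    evL ev x (xG2 A B) = x * (ev A + ev B * x / 2) ^ 2 := by
  unfold xG2
  simp only [evL, h.zero, h.mul, h.sc]
  push_cast
  ring

/-- product of lower bounds -/
theorem low2b_prod {g s t l l' : ℝ} (hg : 0 ≤ g) (hs : 0 ≤ s) (hst : s ≤ t) (hl : 0 ≤ l)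
    (hl' : l' ≤ l) : g * s * l' ≤ g * t * l := by
  have h1 : g * s * l' ≤ g * s * l := mul_le_mul_of_nonneg_left hl' (mul_nonneg hg hs)
  have h2 : g * s * l ≤ g * t * l :=
    mul_le_mul_of_nonneg_right (mul_le_mul_of_nonneg_left hst hg) hl
  exact h1.trans h2

theorem thm_Low2b (h : St_Ser) : St_Low2b := by
  obtain ⟨_, s2, s3, _, s5⟩ := h
  intro α _ ev hev r L n m K A B T hr hr3 hL hm hT1 hT2
  have hr' : (0 : ℝ) < r := by exact_mod_cast hr
  have hr3' : (r : ℝ) ≤ 1 / 3 := by
    have : ((r : ℚ) : ℝ) ≤ ((1 / 3 : ℚ) : ℝ) := by exact_mod_cast hr3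
    push_cast at this
    exact this
  have hT0 : 0 < ev T := by linarith
  have hk : ev (kk (1 / 1000)) = 1 / 1000 := by
    rw [hev.hkk]
    push_cast
    norm_num
  unfold p2b P2b
  rw [← integral_evL hev, hk]
  refine intervalIntegral.integral_mono_on (by linarith)
    ((continuous_evL _ _).intervalIntegrable _ _) ?_ fun x hx => ?_
  · apply ContinuousOn.intervalIntegrable
    rw [Set.uIcc_of_le (by linarith)]
    have hGR : Continuous (fun x : ℝ => GR (ev A) (ev B) x) := by
      unfold GR
      fun_prop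
    refine ContinuousOn.mul (ContinuousOn.div ?_ ?_ ?_) (ContinuousOn.log ?_ ?_)
    · exact (hGR.pow 2).continuousOn
    · fun_prop
    · intro x hx
      have h1 : 0 < x := by linarith [hx.1]
      have h2 : 0 < 1 - x := by linarith [hx.2]
      positivity
    · exact ContinuousOn.div (by fun_prop) (by fun_prop) fun x _ => hT0.ne'
    · intro x hx
      have h2 : 0 < 1 - x - ev T := by linarith [hx.2]
      positivity
  · have hx0 : 0 < x := by linarith [hx.1]
    have hx1 : 0 < 1 - x := by linarith [hx.2]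
    have hx2 : 0 < 1 - x - ev T := by linarith [hx.2]
    have hXT : evL ev x (Ops.add (XX : List α) (CC T)) = x + ev T := by
      rw [(hev.list x).add, hev.hXX, evL_CC]
    have e1 : evL ev x (Ops.mul (Ops.mul (xG2 A B) ((ge K).map kk))
        (Ops.add (CC (LT r L n T)) (atQ (lg1 m (2 * r)) (Ops.add (XX : List α) (CC T))))) =
        x * (ev A + ev B * x / 2) ^ 2 * evQ x (ge K) *
          (ev (LT r L n T) + evQ (x + ev T) (lg1 m (2 * r))) := by
      rw [(hev.list x).mul, (hev.list x).mul, (hev.list x).add, (hev.list x).hatQ, hXT, evL_CC,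
        hev.mapk, low2b_xG2 hev]
      rfl
    rw [e1]
    have e2 : GR (ev A) (ev B) x ^ 2 / (x * (1 - x)) =
        x * (ev A + ev B * x / 2) ^ 2 * (1 / (1 - x)) := by
      unfold GR
      field_simp
    rw [e2]
    have h3 := s3 K x hx0.le (by linarith)
    have h5 := s5 α _ ev hev r L n T hr hL hT0 hT2
    have h2r : ((2 * r : ℚ) : ℝ) = 2 * (r : ℝ) := by push_cast; ring
    have h2 := s2 m (2 * r) (x + ev T) hm (by linarith) (by linarith)
      (by rw [h2r]; linarith [hx.2])
    have hlog : Real.log ((1 - x - ev T) / ev T) =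
        Real.log (1 / ev T) + Real.log (1 - (x + ev T)) := by
      rw [← Real.log_mul (by positivity) (by linarith)]
      congr 1
      field_simp
      ring
    refine low2b_prod (by positivity) h3.2 h3.1 ?_ ?_
    · apply Real.log_nonneg
      rw [le_div_iff₀ hT0]
      linarith [hx.2]
    · rw [hlog]
      exact add_le_add h5 h2

end Pool.Agent.PTN
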