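import Pool.Agent.PTN.Stmts

set_option autoImplicit false

/-!
# PTN, module Low2c: lower bound for two small primes, `x + z ≥ T`
-/

namespace Pool.Agent.PTN

open MeasureTheory Pool.Agent.PT

/-! ### Integration -/

theorem low2c_cont {F : ℝ → ℝ → ℝ} (hF : Continuous (fun q : ℝ × ℝ => F q.1 q.2))
    {lo hi : ℝ → ℝ} (hlo : Continuous lo) (hhi : Continuous hi) :
    Continuous (fun x => ∫ z in (lo x)..(hi x), F x z) := by
  have h1 : ∀ x, ∫ z in (lo x)..(hi x), F x z =
      (∫ z in (0 : ℝ)..(hi x), F x z) - ∫ z in (0 : ℝ)..(lo x), F x z := by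
    intro x
    have hc : Continuous (F x) := hF.comp (continuous_const.prodMk continuous_id)
    rw [intervalIntegral.integral_interval_sub_left (hc.intervalIntegrable _ _)
      (hc.intervalIntegrable _ _)]
  simp_rw [h1]
  have hF' : Continuous (Function.uncurry F) := hF
  exact (intervalIntegral.continuous_parametric_intervalIntegral_of_continuous hF' hhi).sub
    (intervalIntegral.continuous_parametric_intervalIntegral_of_continuous hF' hlo)

theorem low2c_piece (P F0 F1 f0 f1 : ℝ → ℝ → ℝ) (w0 w1 : ℝ) (lo hi : ℝ → ℝ) (α β : ℝ)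
    (hP : Continuous (fun q : ℝ × ℝ => P q.1 q.2))
    (hF0 : Continuous (fun q : ℝ × ℝ => F0 q.1 q.2))
    (hF1 : Continuous (fun q : ℝ × ℝ => F1 q.1 q.2)) (hlo : Continuous lo) (hhi : Continuous hi)
    (hαβ : α ≤ β) (hle : ∀ x, α ≤ x → x ≤ β → lo x ≤ hi x)
    (h0 : ∀ x z, α ≤ x → x ≤ β → lo x ≤ z → z ≤ hi x → f0 x z = F0 x z)
    (h1 : ∀ x z, α ≤ x → x ≤ β → lo x ≤ z → z ≤ hi x → f1 x z = F1 x z)
    (h2 : ∀ x z, α ≤ x → x ≤ β → lo x ≤ z → z ≤ hi x → P x z ≤ w0 * F0 x z + w1 * F1 x z) :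
    ∫ x in α..β, ∫ z in (lo x)..(hi x), P x z ≤
      w0 * (∫ x in α..β, ∫ z in (lo x)..(hi x), f0 x z) +
        w1 * ∫ x in α..β, ∫ z in (lo x)..(hi x), f1 x z := by
  have e0 : ∫ x in α..β, ∫ z in (lo x)..(hi x), f0 x z =
      ∫ x in α..β, ∫ z in (lo x)..(hi x), F0 x z := by
    refine intervalIntegral.integral_congr fun x hx => ?_
    rw [Set.uIcc_of_le hαβ] at hx
    refine intervalIntegral.integral_congr fun z hz => ?_
    rw [Set.uIcc_of_le (hle x hx.1 hx.2)] at hz
    exact h0 x z hx.1 hx.2 hz.1 hz.2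
  have e1 : ∫ x in α..β, ∫ z in (lo x)..(hi x), f1 x z =
      ∫ x in α..β, ∫ z in (lo x)..(hi x), F1 x z := by
    refine intervalIntegral.integral_congr fun x hx => ?_
    rw [Set.uIcc_of_le hαβ] at hx
    refine intervalIntegral.integral_congr fun z hz => ?_
    rw [Set.uIcc_of_le (hle x hx.1 hx.2)] at hz
    exact h1 x z hx.1 hx.2 hz.1 hz.2
  rw [e0, e1, ← intervalIntegral.integral_const_mul, ← intervalIntegral.integral_const_mul,
    ← intervalIntegral.integral_add
      (((low2c_cont hF0 hlo hhi).const_mul w0).intervalIntegrable _ _)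
      (((low2c_cont hF1 hlo hhi).const_mul w1).intervalIntegrable _ _)]
  refine intervalIntegral.integral_mono_on hαβ ((low2c_cont hP hlo hhi).intervalIntegrable _ _)
    ((((low2c_cont hF0 hlo hhi).const_mul w0).add
      ((low2c_cont hF1 hlo hhi).const_mul w1)).intervalIntegrable _ _) fun x hx => ?_
  have c0 : Continuous (F0 x) := hF0.comp (continuous_const.prodMk continuous_id)
  have c1 : Continuous (F1 x) := hF1.comp (continuous_const.prodMk continuous_id)
  have cP : Continuous (P x) := hP.comp (continuous_const.prodMk continuous_id)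
  rw [← intervalIntegral.integral_const_mul, ← intervalIntegral.integral_const_mul,
    ← intervalIntegral.integral_add ((c0.const_mul w0).intervalIntegrable _ _)
      ((c1.const_mul w1).intervalIntegrable _ _)]
  exact intervalIntegral.integral_mono_on (hle x hx.1 hx.2) (cP.intervalIntegrable _ _)
    (((c0.const_mul w0).add (c1.const_mul w1)).intervalIntegrable _ _)
    fun z hz => h2 x z hx.1 hx.2 hz.1 hz.2

/-! ### Rational polynomials with signs -/

theorem low2c_nonneg (s : ℝ) (hs : 0 ≤ s) (l : List ℚ) (hl : ∀ c ∈ l, 0 ≤ c) : 0 ≤ evQ s l := by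
  induction l with
  | nil => exact le_rfl
  | cons a l ih =>
    have h1 := ih fun c hc => hl c (List.mem_cons_of_mem _ hc)
    have h2 : (0 : ℝ) ≤ (a : ℝ) := by exact_mod_cast hl a List.mem_cons_self
    have h3 : evQ s (a :: l) = (a : ℝ) + s * evQ s l := rfl
    rw [h3]
    exact add_nonneg h2 (mul_nonneg hs h1)

theorem low2c_anti (p q : ℝ) (hp : 0 ≤ p) (hpq : p ≤ q) (l : List ℚ) (hl : ∀ c ∈ l, c ≤ 0) :
    evQ q l ≤ evQ p l ∧ evQ p l ≤ 0 := by
  induction l with
  | nil => exact ⟨le_rfl, le_rfl⟩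
  | cons a l ih =>
    obtain ⟨h1, h2⟩ := ih fun c hc => hl c (List.mem_cons_of_mem _ hc)
    have h3 : (a : ℝ) ≤ 0 := by exact_mod_cast hl a List.mem_cons_self
    have h4 : evQ p (a :: l) = (a : ℝ) + p * evQ p l := rfl
    have h5 : evQ q (a :: l) = (a : ℝ) + q * evQ q l := rfl
    rw [h4, h5]
    constructor
    · have h6 : q * evQ q l ≤ q * evQ p l := mul_le_mul_of_nonneg_left h1 (hp.trans hpq)
      have h7 : q * evQ p l ≤ p * evQ p l := mul_le_mul_of_nonpos_right hpq h2
      linarith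
    · have := mul_nonpos_of_nonneg_of_nonpos hp h2
      linarith

theorem low2c_lgS (n : ℕ) : ∀ c ∈ lgS n, 0 ≤ c := by
  intro c hc
  unfold lgS at hc
  obtain ⟨k, hk, rfl⟩ := List.mem_map.mp hc
  obtain ⟨j, -, hj⟩ := List.mem_flatMap.mp hk
  have hj' : k = (j : ℚ) := List.mem_singleton.mp hj
  split_ifs
  · exact le_rfl
  · rw [hj']
    exact div_nonneg zero_le_one (Nat.cast_nonneg _)

theorem low2c_lg1 (m : ℕ) (μ : ℚ) (hμ : μ < 1) : ∀ c ∈ lg1 m μ, c ≤ 0 := by
  intro c hc
  unfold lg1 at hc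
  rcases List.mem_append.mp hc with h | h
  · obtain ⟨k, hk, rfl⟩ := List.mem_map.mp h
    obtain ⟨j, -, hj⟩ := List.mem_flatMap.mp hk
    have hj' : k = (j : ℚ) := List.mem_singleton.mp hj
    split_ifs
    · exact le_rfl
    · rw [hj']
      exact div_nonpos_of_nonpos_of_nonneg (by norm_num) (Nat.cast_nonneg _)
  · rw [List.mem_singleton] at h
    rw [h]
    exact div_nonpos_of_nonpos_of_nonneg (by norm_num)
      (mul_nonneg (Nat.cast_nonneg _) (by linarith))

section
variable {α : Type} [Ops α] {ev : α → ℝ}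

theorem low2c_GP (h : Hom ev) (A B x : α) : ev (GP A B x) = GR (ev A) (ev B) (ev x) := by
  unfold GP GR
  rw [h.add, h.mul, h.sc, h.mul, h.mul]
  push_cast
  ring

omit [Ops α] in
theorem low2c_contP (ev : α → ℝ) (p : List (List α)) :
    Continuous (fun q : ℝ × ℝ => evL (evL ev q.1) q.2 p) := by
  induction p with
  | nil => simpa [evL] using continuous_const
  | cons a p ih =>
    simp only [evL]
    exact ((continuous_evL ev a).comp continuous_fst).add (continuous_snd.mul ih)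

/-- value of the integrand -/
theorem low2c_val (h : Hom ev) (r L w₀ w₁ : ℚ) (n m K : ℕ) (cx cz : ℚ) (kx kz : ℕ) (A B T : α)
    (x z : ℝ) :
    evL (evL ev x) z (e2c r L w₀ w₁ n m K cx cz kx kz A B T) =
      (GR (ev A) (ev B) x + GR (ev A) (ev B) z - GR (ev A) (ev B) (ev T)) ^ 2 *
        evL (evL ev x) z (lw r L w₀ w₁ n m T) * evL (evL ev x) z (iv cx kx (xx : List (List α))) *
        evL (evL ev x) z (iv cz kz (zz : List (List α))) * evQ (x + z) (ge K) := by
  have H := (h.list x).list z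
  have hx : evL (evL ev x) z (xx : List (List α)) = x := by
    unfold xx
    rw [evL_cons, evL_nil, h.hXX x]
    ring
  have hz : evL (evL ev x) z (zz : List (List α)) = z := (h.list x).hXX z
  have hC : ∀ a : α, evL (evL ev x) z (CC (CC a)) = ev a := fun a => by rw [evL_CC, evL_CC]
  unfold e2c
  simp only [H.mul, H.hatQ, H.add, hx, hz, H.hsub, low2c_GP H, hC]
  unfold evQ
  ring

/-- bounds for the logarithmic weight -/
theorem low2c_lw (hs : St_Ser) (h : Hom ev) (r L w₀ w₁ : ℚ) (n m : ℕ) (T : α) (hr : 0 < r)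
    (hr4 : r ≤ 1 / 4) (hL : (L : ℝ) ≤ Real.log (1 / r)) (hm : 1 ≤ m) (hw₁ : 0 ≤ w₁)
    (hw : w₁ ≠ 0) (hlw : 0 ≤ w₀ + w₁ * (L + horner (3 * r) (lg1 m (3 * r))))
    (hT : 0 < ev T) (hTr : ev T ≤ r) (x z : ℝ) (hx : 0 ≤ x) (hz : 0 ≤ z) (hxT : x ≤ ev T)
    (hzT : z ≤ ev T) :
    0 ≤ evL (evL ev x) z (lw r L w₀ w₁ n m T) ∧
      evL (evL ev x) z (lw r L w₀ w₁ n m T) ≤
        w₀ + w₁ * Real.log ((1 - x - z - ev T) / ev T) := by
  obtain ⟨-, s2, -, -, s5⟩ := hs
  have H := (h.list x).list z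
  have hxx : evL (evL ev x) z (xx : List (List α)) = x := by
    unfold xx
    rw [evL_cons, evL_nil, h.hXX x]
    ring
  have hzz : evL (evL ev x) z (zz : List (List α)) = z := (h.list x).hXX z
  have hC : ∀ a : α, evL (evL ev x) z (CC (CC a)) = ev a := fun a => by rw [evL_CC, evL_CC]
  have hrR : (0 : ℝ) < (r : ℝ) := by exact_mod_cast hr
  have hr4R : (r : ℝ) ≤ 1 / 4 := by
    have : ((r : ℚ) : ℝ) ≤ ((1 / 4 : ℚ) : ℝ) := by exact_mod_cast hr4
    push_cast at this
    exact this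
  have hw1R : (0 : ℝ) ≤ (w₁ : ℝ) := by exact_mod_cast hw₁
  have hμ : 3 * r < 1 := by linarith
  have hval : evL (evL ev x) z (lw r L w₀ w₁ n m T) =
      w₀ + w₁ * (ev (LT r L n T) + evQ (x + z + ev T) (lg1 m (3 * r))) := by
    unfold lw
    rw [if_neg hw, H.add, H.hkk, H.sc, H.add, hC, H.hatQ, H.add, H.add, hxx, hzz, hC]
    rfl
  have hp0 : 0 ≤ x + z + ev T := by positivity
  have hp1 : x + z + ev T ≤ ((3 * r : ℚ) : ℝ) := by push_cast; linarith
  rw [hval]
  constructor
  · -- the lower bound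
    have h1 : (L : ℝ) ≤ ev (LT r L n T) := by
      unfold LT
      rw [h.add, h.hkk, h.hatQ, h.hsub, h.one, h.sc]
      have h2 : 0 ≤ evQ (1 - ((1 / r : ℚ) : ℝ) * ev T) (lgS n) := by
        refine low2c_nonneg _ ?_ _ (low2c_lgS n)
        push_cast
        have : 1 / (r : ℝ) * ev T ≤ 1 := by
          rw [div_mul_eq_mul_div, one_mul, div_le_one hrR]
          exact hTr
        linarith
      unfold evQ at h2
      linarith
    have h2 := (low2c_anti _ _ hp0 hp1 _ (low2c_lg1 m (3 * r) hμ)).1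
    have h3 : evQ ((3 * r : ℚ) : ℝ) (lg1 m (3 * r)) =
        ((horner (3 * r) (lg1 m (3 * r)) : ℚ) : ℝ) :=
      (ev_horner Hom.rat (3 * r) (lg1 m (3 * r))).symm
    rw [h3] at h2
    have h4 : (0 : ℝ) ≤ w₀ + w₁ * (L + ((horner (3 * r) (lg1 m (3 * r)) : ℚ) : ℝ)) := by
      exact_mod_cast hlw
    have h5 : (w₁ : ℝ) * (L + ((horner (3 * r) (lg1 m (3 * r)) : ℚ) : ℝ)) ≤
        w₁ * (ev (LT r L n T) + evQ (x + z + ev T) (lg1 m (3 * r))) :=
      mul_le_mul_of_nonneg_left (by linarith) hw1R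
    linarith
  · have h1 := s5 α _ ev h r L n T hr hL hT hTr
    have h2 := s2 m (3 * r) (x + z + ev T) hm hμ hp0 hp1
    have h3 : Real.log ((1 - x - z - ev T) / ev T) =
        Real.log (1 / ev T) + Real.log (1 - (x + z + ev T)) := by
      have h4 : 0 < 1 - (x + z + ev T) := by
        push_cast at hp1
        linarith
      rw [← Real.log_mul (by positivity) h4.ne']
      congr 1
      field_simp
      ring
    rw [h3]
    have := mul_le_mul_of_nonneg_left (add_le_add h1 h2) hw1R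
    linarith

/-- the product inequality -/
theorem low2c_prod {E LW W IX IZ GE x z y : ℝ} (h1 : 0 ≤ LW) (h2 : LW ≤ W) (h3 : IX ≤ 1 / x)
    (h4 : 0 ≤ IZ) (h5 : IZ ≤ 1 / z) (h6 : 0 ≤ GE) (h7 : GE ≤ 1 / y) (hx : 0 < x) (hz : 0 < z)
    (hy : 0 < y) : E ^ 2 * LW * IX * IZ * GE ≤ W * (E ^ 2 / (x * z * y)) := by
  have e0 : 0 ≤ E ^ 2 := sq_nonneg E
  have s1 : E ^ 2 * LW * IX * IZ * GE ≤ E ^ 2 * LW * (1 / x) * IZ * GE :=
    mul_le_mul_of_nonneg_right (mul_le_mul_of_nonneg_right
      (mul_le_mul_of_nonneg_left h3 (mul_nonneg e0 h1)) h4) h6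
  have hx' : 0 ≤ 1 / x := by positivity
  have s2 : E ^ 2 * LW * (1 / x) * IZ * GE ≤ E ^ 2 * W * (1 / x) * (1 / z) * (1 / y) := by
    have a1 : E ^ 2 * LW * (1 / x) ≤ E ^ 2 * W * (1 / x) :=
      mul_le_mul_of_nonneg_right (mul_le_mul_of_nonneg_left h2 e0) hx'
    have a2 : 0 ≤ E ^ 2 * W * (1 / x) := mul_nonneg (mul_nonneg e0 (h1.trans h2)) hx'
    have a3 : E ^ 2 * LW * (1 / x) * IZ ≤ E ^ 2 * W * (1 / x) * (1 / z) :=
      mul_le_mul a1 h5 h4 a2
    exact mul_le_mul a3 h7 h6 (mul_nonneg a2 (by positivity))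
  refine (s1.trans s2).trans (le_of_eq ?_)
  field_simp

end

/-! ### Continuous versions of the integrands -/

/-- the square over the product of the variables, continuous everywhere -/
noncomputable def low2c_F0 (A B T x z : ℝ) : ℝ :=
  (GR A B x + GR A B z - GR A B T) ^ 2 /
    (max x (1 / 1000) * max z (1 / 1000) * max (1 - x - z) (1 / 4))

/-- the same with the logarithm -/
noncomputable def low2c_F1 (A B T x z : ℝ) : ℝ :=
  low2c_F0 A B T x z * Real.log (max (1 - x - z - T) (1 / 4) / T)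

theorem low2c_F0_cont (A B T : ℝ) : Continuous (fun q : ℝ × ℝ => low2c_F0 A B T q.1 q.2) := by
  unfold low2c_F0 GR
  refine Continuous.div (by fun_prop) (by fun_prop) fun q => ?_
  have h1 : 0 < max q.1 (1 / 1000) := lt_max_of_lt_right (by norm_num)
  have h2 : 0 < max q.2 (1 / 1000) := lt_max_of_lt_right (by norm_num)
  have h3 : 0 < max (1 - q.1 - q.2) (1 / 4) := lt_max_of_lt_right (by norm_num)
  positivity

theorem low2c_F1_cont (A B T : ℝ) (hT : 0 < T) :
    Continuous (fun q : ℝ × ℝ => low2c_F1 A B T q.1 q.2) := by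
  unfold low2c_F1
  refine (low2c_F0_cont A B T).mul (Continuous.log (by fun_prop) fun q => ?_)
  have h3 : 0 < max (1 - q.1 - q.2 - T) (1 / 4) := lt_max_of_lt_right (by norm_num)
  positivity

theorem low2c_F0_eq (A B T x z : ℝ) (hx : 1 / 1000 ≤ x) (hz : 1 / 1000 ≤ z)
    (hy : 1 / 4 ≤ 1 - x - z) :
    (GR A B x + GR A B z - GR A B T) ^ 2 / (x * z * (1 - x - z)) = low2c_F0 A B T x z := by
  unfold low2c_F0
  rw [max_eq_left hx, max_eq_left hz, max_eq_left hy]

theorem low2c_F1_eq (A B T x z : ℝ) (hx : 1 / 1000 ≤ x) (hz : 1 / 1000 ≤ z)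
    (hy : 1 / 4 ≤ 1 - x - z) (hy' : 1 / 4 ≤ 1 - x - z - T) :
    (GR A B x + GR A B z - GR A B T) ^ 2 / (x * z * (1 - x - z)) *
      Real.log ((1 - x - z - T) / T) = low2c_F1 A B T x z := by
  unfold low2c_F1
  rw [low2c_F0_eq A B T x z hx hz hy, max_eq_left hy']

theorem thm_Low2c (hs : St_Ser) : St_Low2c := by
  intro α _ ev h r L w₀ w₁ n m K cx cz kx kz A B T hr hr3 hwr hL hm hw₀ hw₁ hcx hcz hczr hkx hkz
    hlw hT hTr
  have hT0 : 0 < ev T := by linarith
  have hr3R : (r : ℝ) ≤ 1 / 3 := by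
    have : ((r : ℚ) : ℝ) ≤ ((1 / 3 : ℚ) : ℝ) := by exact_mod_cast hr3
    push_cast at this
    exact this
  have hw0R : (0 : ℝ) ≤ (w₀ : ℝ) := by exact_mod_cast hw₀
  have hw1R : (0 : ℝ) ≤ (w₁ : ℝ) := by exact_mod_cast hw₁
  have hT3 : ev T ≤ 1 / 3 := hTr.trans hr3R
  -- the weight
  set W : ℝ → ℝ → ℝ := fun x z =>
    w₀ + (if w₁ = 0 then 0 else w₁ * Real.log ((1 - x - z - ev T) / ev T)) with hW
  have hlwW : ∀ x z : ℝ, 0 ≤ x → 0 ≤ z → x ≤ ev T → z ≤ ev T →
      0 ≤ evL (evL ev x) z (lw r L w₀ w₁ n m T) ∧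
      evL (evL ev x) z (lw r L w₀ w₁ n m T) ≤ W x z := by
    intro x z hx hz hxT hzT
    by_cases hw : w₁ = 0
    · have H := (h.list x).list z
      rw [hW]
      simp only [if_pos hw]
      unfold lw
      rw [if_pos hw, H.hkk]
      exact ⟨hw0R, by linarith⟩
    · rw [hW]
      simp only [if_neg hw]
      exact low2c_lw hs h r L w₀ w₁ n m T hr (hwr.resolve_left hw) hL hm hw₁ hw hlw hT0 hTr x z
        hx hz hxT hzT
  -- the pointwise inequality
  have hpt : ∀ x z : ℝ, 1 / 1000 ≤ x → 1 / 1000 ≤ z → x ≤ ev T → z ≤ ev T →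
      evL (evL ev x) z (e2c r L w₀ w₁ n m K cx cz kx kz A B T) ≤
        W x z * low2c_F0 (ev A) (ev B) (ev T) x z := by
    intro x z hx hz hxT hzT
    have hx0 : 0 < x := by linarith
    have hz0 : 0 < z := by linarith
    have H := (h.list x).list z
    have hxx : evL (evL ev x) z (xx : List (List α)) = x := by
      unfold xx
      rw [evL_cons, evL_nil, h.hXX x]
      ring
    have hzz : evL (evL ev x) z (zz : List (List α)) = z := (h.list x).hXX z
    obtain ⟨l1, l2⟩ := hlwW x z hx0.le hz0.le hxT hzT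
    obtain ⟨-, -, s3, s4, -⟩ := hs
    obtain ⟨g1, g2⟩ := s3 K (x + z) (by linarith) (by linarith)
    have i1 := (s4 (List (List α)) _ _ H cx kx xx hcx hkx (by rw [hxx]; exact hx0)).1
    have i2 := s4 (List (List α)) _ _ H cz kz zz hcz hkz (by rw [hzz]; exact hz0)
    have i3 : (cz : ℝ) * z ≤ 2 := by
      have h1 : (cz : ℝ) * z ≤ cz * r :=
        mul_le_mul_of_nonneg_left (hzT.trans hTr) (by exact_mod_cast hcz.le)
      have h2 : ((cz * r : ℚ) : ℝ) ≤ 2 := by exact_mod_cast hczr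
      push_cast at h2
      linarith
    rw [hxx] at i1
    rw [hzz] at i2
    have e1 : 1 - (x + z) = 1 - x - z := by ring
    rw [e1] at g1
    rw [low2c_val h, ← low2c_F0_eq (ev A) (ev B) (ev T) x z hx hz (by linarith)]
    exact low2c_prod l1 l2 i1 (i2.2 i3) i2.1 g2 g1 hx0 hz0 (by linarith)
  -- the integrals
  have hpc := low2c_contP ev (e2c r L w₀ w₁ n m K cx cz kx kz A B T)
  set p := e2c r L w₀ w₁ n m K cx cz kx kz A B T with hp
  have hval : ev (p2c r L w₀ w₁ n m K cx cz kx kz A B T) =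
      (∫ x in (1 / 1000 : ℝ)..(ev T / 2), ∫ z in (ev T - x)..(ev T), evL (evL ev x) z p) +
      ∫ x in (ev T / 2)..(ev T), ∫ z in x..(ev T), evL (evL ev x) z p := by
    have e1 : ∀ x : ℝ, ∫ z in (ev T - x)..(ev T), evL (evL ev x) z p =
        evL ev x (intg p (sub (CC T) XX) (CC T)) := by
      intro x
      rw [← integral_evL (h.list x), (h.list x).hsub, evL_CC, h.hXX x]
    have e2 : ∀ x : ℝ, ∫ z in x..(ev T), evL (evL ev x) z p =
        evL ev x (intg p XX (CC T)) := by
      intro x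
      rw [← integral_evL (h.list x), evL_CC, h.hXX x]
    simp_rw [e1, e2]
    unfold p2c
    simp only
    rw [h.add, ← integral_evL h, ← integral_evL h, h.hkk, h.sc]
    have e3 : ((1 / 1000 : ℚ) : ℝ) = 1 / 1000 := by norm_num
    have e4 : ((1 / 2 : ℚ) : ℝ) * ev T = ev T / 2 := by
      push_cast
      ring
    rw [e3, e4]
  rw [hval]
  have c0 := low2c_F0_cont (ev A) (ev B) (ev T)
  have c1 := low2c_F1_cont (ev A) (ev B) (ev T) hT0
  by_cases hw : w₁ = 0
  · have k1 := low2c_piece (fun x z => evL (evL ev x) z p)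
      (low2c_F0 (ev A) (ev B) (ev T)) (fun _ _ => 0)
      (fun x z => (GR (ev A) (ev B) x + GR (ev A) (ev B) z - GR (ev A) (ev B) (ev T)) ^ 2 /
        (x * z * (1 - x - z))) (fun _ _ => 0) w₀ 0 (fun x => ev T - x) (fun _ => ev T)
      (1 / 1000) (ev T / 2) hpc c0 continuous_const (by fun_prop) continuous_const (by linarith)
      (fun x hx hx' => by linarith)
      (fun x z hx hx' hz hz' => low2c_F0_eq _ _ _ x z hx (by linarith) (by linarith))
      (fun x z hx hx' hz hz' => rfl)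
      (fun x z hx hx' hz hz' => by
        refine (hpt x z hx (by linarith) (by linarith) hz').trans (le_of_eq ?_)
        rw [hW]
        simp only [if_pos hw]
        ring)
    have k2 := low2c_piece (fun x z => evL (evL ev x) z p)
      (low2c_F0 (ev A) (ev B) (ev T)) (fun _ _ => 0)
      (fun x z => (GR (ev A) (ev B) x + GR (ev A) (ev B) z - GR (ev A) (ev B) (ev T)) ^ 2 /
        (x * z * (1 - x - z))) (fun _ _ => 0) w₀ 0 (fun x => x) (fun _ => ev T)
      (ev T / 2) (ev T) hpc c0 continuous_const (by fun_prop) continuous_const (by linarith)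
      (fun x hx hx' => hx')
      (fun x z hx hx' hz hz' => low2c_F0_eq _ _ _ x z (by linarith) (by linarith) (by linarith))
      (fun x z hx hx' hz hz' => rfl)
      (fun x z hx hx' hz hz' => by
        refine (hpt x z (by linarith) (by linarith) hx' hz').trans (le_of_eq ?_)
        rw [hW]
        simp only [if_pos hw]
        ring)
    have e1 : (w₁ : ℝ) = 0 := by rw [hw]; norm_num
    rw [e1, zero_mul, add_zero]
    unfold P2c
    rw [mul_add]
    rw [zero_mul, add_zero] at k1 k2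
    exact add_le_add k1 k2
  · have hr4 := hwr.resolve_left hw
    have hr4R : (r : ℝ) ≤ 1 / 4 := by
      have : ((r : ℚ) : ℝ) ≤ ((1 / 4 : ℚ) : ℝ) := by exact_mod_cast hr4
      push_cast at this
      exact this
    have hT4 : ev T ≤ 1 / 4 := hTr.trans hr4R
    have k0 : ∀ x z : ℝ, 1 / 1000 ≤ x → 1 / 1000 ≤ z → x ≤ ev T → z ≤ ev T →
        evL (evL ev x) z p ≤ w₀ * low2c_F0 (ev A) (ev B) (ev T) x z +
          w₁ * low2c_F1 (ev A) (ev B) (ev T) x z := by
      intro x z hx hz hxT hzT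
      refine (hpt x z hx hz hxT hzT).trans (le_of_eq ?_)
      rw [hW]
      simp only [if_neg hw]
      unfold low2c_F1
      rw [max_eq_left (by linarith : (1 : ℝ) / 4 ≤ 1 - x - z - ev T)]
      ring
    have k1 := low2c_piece (fun x z => evL (evL ev x) z p)
      (low2c_F0 (ev A) (ev B) (ev T)) (low2c_F1 (ev A) (ev B) (ev T))
      (fun x z => (GR (ev A) (ev B) x + GR (ev A) (ev B) z - GR (ev A) (ev B) (ev T)) ^ 2 /
        (x * z * (1 - x - z)))
      (fun x z => (GR (ev A) (ev B) x + GR (ev A) (ev B) z - GR (ev A) (ev B) (ev T)) ^ 2 /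
        (x * z * (1 - x - z)) * Real.log ((1 - x - z - ev T) / ev T)) w₀ w₁
      (fun x => ev T - x) (fun _ => ev T)
      (1 / 1000) (ev T / 2) hpc c0 c1 (by fun_prop) continuous_const (by linarith)
      (fun x hx hx' => by linarith)
      (fun x z hx hx' hz hz' => low2c_F0_eq _ _ _ x z hx (by linarith) (by linarith))
      (fun x z hx hx' hz hz' => low2c_F1_eq _ _ _ x z hx (by linarith) (by linarith)
        (by linarith))
      (fun x z hx hx' hz hz' => k0 x z hx (by linarith) (by linarith) hz')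
    have k2 := low2c_piece (fun x z => evL (evL ev x) z p)
      (low2c_F0 (ev A) (ev B) (ev T)) (low2c_F1 (ev A) (ev B) (ev T))
      (fun x z => (GR (ev A) (ev B) x + GR (ev A) (ev B) z - GR (ev A) (ev B) (ev T)) ^ 2 /
        (x * z * (1 - x - z)))
      (fun x z => (GR (ev A) (ev B) x + GR (ev A) (ev B) z - GR (ev A) (ev B) (ev T)) ^ 2 /
        (x * z * (1 - x - z)) * Real.log ((1 - x - z - ev T) / ev T)) w₀ w₁
      (fun x => x) (fun _ => ev T)
      (ev T / 2) (ev T) hpc c0 c1 (by fun_prop) continuous_const (by linarith)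
      (fun x hx hx' => hx')
      (fun x z hx hx' hz hz' => low2c_F0_eq _ _ _ x z (by linarith) (by linarith) (by linarith))
      (fun x z hx hx' hz hz' => low2c_F1_eq _ _ _ x z (by linarith) (by linarith) (by linarith)
        (by linarith))
      (fun x z hx hx' hz hz' => k0 x z (by linarith) (by linarith) hx' hz')
    unfold P2c P3c
    rw [mul_add, mul_add]
    linarith

end Pool.Agent.PTN
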