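import Pool.Agent.PTN.Stmts

set_option autoImplicit false

/-!
# PTN: module Low2d
-/

namespace Pool.Agent.PTN

open MeasureTheory Pool.Agent.PT

theorem low2d_cont {F : ℝ → ℝ → ℝ} (hF : Continuous (Function.uncurry F)) {lo hi : ℝ → ℝ}
    (hlo : Continuous lo) (hhi : Continuous hi) :
    Continuous fun x => ∫ z in lo x..hi x, F x z := by
  have h1 : ∀ x, ∫ z in lo x..hi x, F x z =
      (∫ z in (0 : ℝ)..hi x, F x z) - ∫ z in (0 : ℝ)..lo x, F x z := by
    intro x
    have hc : Continuous (F x) := hF.comp (Continuous.prodMk_right x)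
    rw [intervalIntegral.integral_interval_sub_left (hc.intervalIntegrable _ _)
      (hc.intervalIntegrable _ _)]
  simp only [h1]
  exact (intervalIntegral.continuous_parametric_intervalIntegral_of_continuous hF hhi).sub
    (intervalIntegral.continuous_parametric_intervalIntegral_of_continuous hF hlo)

/-- the main comparison of iterated integrals -/
theorem low2d_iter {a b : ℝ} {lo hi : ℝ → ℝ} (hab : a ≤ b) (hlo : Continuous lo)
    (hhi : Continuous hi) (hlh : ∀ x ∈ Set.Icc a b, lo x ≤ hi x) (w₀ w₁ : ℝ)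
    {p f g P F G : ℝ → ℝ → ℝ} (hP : Continuous (Function.uncurry P))
    (hF : Continuous (Function.uncurry F)) (hG : Continuous (Function.uncurry G))
    (hp : ∀ x ∈ Set.Icc a b, ∀ z ∈ Set.Icc (lo x) (hi x), p x z = P x z)
    (hf : ∀ x ∈ Set.Icc a b, ∀ z ∈ Set.Icc (lo x) (hi x), f x z = F x z)
    (hg : ∀ x ∈ Set.Icc a b, ∀ z ∈ Set.Icc (lo x) (hi x), g x z = G x z)
    (hle : ∀ x ∈ Set.Icc a b, ∀ z ∈ Set.Icc (lo x) (hi x), p x z ≤ w₀ * f x z + w₁ * g x z) :
    ∫ x in a..b, ∫ z in lo x..hi x, p x z ≤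
      w₀ * (∫ x in a..b, ∫ z in lo x..hi x, f x z) +
        w₁ * (∫ x in a..b, ∫ z in lo x..hi x, g x z) := by
  have key : ∀ {q Q : ℝ → ℝ → ℝ},
      (∀ x ∈ Set.Icc a b, ∀ z ∈ Set.Icc (lo x) (hi x), q x z = Q x z) →
      ∫ x in a..b, ∫ z in lo x..hi x, q x z = ∫ x in a..b, ∫ z in lo x..hi x, Q x z := by
    intro q Q hq
    refine intervalIntegral.integral_congr fun x hx => ?_
    rw [Set.uIcc_of_le hab] at hx
    refine intervalIntegral.integral_congr fun z hz => ?_
    rw [Set.uIcc_of_le (hlh x hx)] at hz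
    exact hq x hx z hz
  rw [key hp, key hf, key hg]
  have cF := low2d_cont hF hlo hhi
  have cG := low2d_cont hG hlo hhi
  have cP := low2d_cont hP hlo hhi
  rw [← intervalIntegral.integral_const_mul, ← intervalIntegral.integral_const_mul,
    ← intervalIntegral.integral_add ((cF.const_mul w₀).intervalIntegrable _ _)
      ((cG.const_mul w₁).intervalIntegrable _ _)]
  refine intervalIntegral.integral_mono_on hab (cP.intervalIntegrable _ _)
    (((cF.const_mul w₀).add (cG.const_mul w₁)).intervalIntegrable _ _) fun x hx => ?_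
  have dP : Continuous (P x) := hP.comp (Continuous.prodMk_right x)
  have dF : Continuous (F x) := hF.comp (Continuous.prodMk_right x)
  have dG : Continuous (G x) := hG.comp (Continuous.prodMk_right x)
  rw [← intervalIntegral.integral_const_mul, ← intervalIntegral.integral_const_mul,
    ← intervalIntegral.integral_add ((dF.const_mul w₀).intervalIntegrable _ _)
      ((dG.const_mul w₁).intervalIntegrable _ _)]
  refine intervalIntegral.integral_mono_on (hlh x hx) (dP.intervalIntegrable _ _)
    (((dF.const_mul w₀).add (dG.const_mul w₁)).intervalIntegrable _ _) fun z hz => ?_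
  have h1 := hle x hx z hz
  rw [hp x hx z hz, hf x hx z hz, hg x hx z hz] at h1
  exact h1

/-- evaluation of a polynomial in two variables is continuous -/
theorem low2d_evc {α : Type} [Ops α] {ev : α → ℝ} (P : List (List α)) :
    Continuous (Function.uncurry fun x z : ℝ => evL (evL ev x) z P) := by
  induction P with
  | nil => exact continuous_const
  | cons a P ih =>
    have h1 : (Function.uncurry fun x z : ℝ => evL (evL ev x) z (a :: P)) =
        fun q : ℝ × ℝ => evL ev q.1 a + q.2 * (Function.uncurry fun x z : ℝ =>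
          evL (evL ev x) z P) q := rfl
    rw [h1]
    exact ((continuous_evL ev a).comp continuous_fst).add (continuous_snd.mul ih)

theorem low2d_xx {α : Type} [Ops α] {ev : α → ℝ} (h : Hom ev) (x z : ℝ) :
    evL (evL ev x) z (xx : List (List α)) = x := by
  simp [xx, evL, h.hXX]

theorem low2d_zz {α : Type} [Ops α] {ev : α → ℝ} (h : Hom ev) (x z : ℝ) :
    evL (evL ev x) z (zz : List (List α)) = z := by
  exact (h.list x).hXX z

theorem low2d_int {α : Type} [Ops α] {ev : α → ℝ} (h : Hom ev) (P : List (List α))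
    (lo hi : List α) (a b : α) :
    ev (intg (intg P lo hi) a b) =
      ∫ x in (ev a)..(ev b), ∫ z in (evL ev x lo)..(evL ev x hi), evL (evL ev x) z P := by
  rw [← integral_evL h]
  refine intervalIntegral.integral_congr fun x _ => ?_
  exact (integral_evL (h.list x) P lo hi).symm

/-- the value of `lw` -/
theorem low2d_lw {α : Type} [Ops α] {ev : α → ℝ} (h : Hom ev) (r L w₀ w₁ : ℚ) (n m : ℕ) (T : α)
    (x z : ℝ) :
    evL (evL ev x) z (lw r L w₀ w₁ n m T) =
      w₀ + w₁ * (ev (LT r L n T) + evQ (x + z + ev T) (lg1 m (3 * r))) := by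
  have h2 : Hom (evL (evL ev x) z) := (h.list x).list z
  unfold lw
  split_ifs with h0
  · rw [h2.hkk, h0]; simp
  · rw [h2.add, h2.hkk, h2.sc, h2.add, h2.hatQ, h2.add, h2.add, low2d_xx h, low2d_zz h, evL_CC,
      evL_CC, evL_CC, evL_CC]
    rfl

theorem thm_Low2d (hS : St_Ser) : St_Low2d := by
  intro α iα ev h r L w₀ w₁ n m K B T hr0 hr1 hw hL hm hw0 hw1 hT1 hT2
  obtain ⟨-, hS2, hS3, -, hS5⟩ := hS
  set t := ev T with ht
  have hr0' : (0 : ℝ) < r := by exact_mod_cast hr0
  have hr1' : (r : ℝ) ≤ 1 / 3 := by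
    have : ((r : ℚ) : ℝ) ≤ ((1 / 3 : ℚ) : ℝ) := by exact_mod_cast hr1
    simpa using this
  have hw0' : (0 : ℝ) ≤ w₀ := by exact_mod_cast hw0
  have hw1' : (0 : ℝ) ≤ w₁ := by exact_mod_cast hw1
  have ht0 : 0 < t := by linarith
  have htt : t ≤ 1 / 3 := le_trans hT2 hr1'
  have hLT := hS5 α iα ev h r L n T hr0 hL (by rw [← ht]; exact ht0) hT2
  rw [← ht] at hLT
  rw [p2d, low2d_int h]
  have e1 : ev (kk (1 / 1000)) = 1 / 1000 := by rw [h.hkk]; norm_num
  have e2 : ev (Ops.sc (1 / 2) T) = t / 2 := by rw [h.sc, ← ht]; push_cast; ring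
  rw [e1, e2]
  have e3 : ∀ x : ℝ, evL ev x (XX : List α) = x := fun x => h.hXX x
  have e4 : ∀ x : ℝ, evL ev x (sub (CC T) XX) = t - x := fun x => by
    rw [(h.list x).hsub, evL_CC, h.hXX]
  simp only [e3, e4]
  unfold P2d P3d
  -- the value of the integrand
  set LW : ℝ → ℝ → ℝ := fun x z =>
    w₀ + w₁ * (ev (LT r L n T) + evQ (x + z + t) (lg1 m (3 * r))) with hLW
  set Q : List (List α) := Ops.mul (Ops.mul (Ops.mul (Ops.mul xx zz) (CC (CC (Ops.mul B B))))
    (atQ (ge K) (Ops.add xx zz))) (lw r L w₀ w₁ n m T) with hQ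
  have hPv : ∀ x z : ℝ, evL (evL ev x) z Q =
      x * z * (ev B * ev B) * evQ (x + z) (ge K) * LW x z := by
    intro x z
    have h2 : Hom (evL (evL ev x) z) := (h.list x).list z
    rw [hQ, h2.mul, h2.mul, h2.mul, h2.mul, low2d_lw h, h2.hatQ, h2.add, low2d_xx h, low2d_zz h,
      evL_CC, evL_CC, h.mul]
    rfl
  refine low2d_iter (a := 1 / 1000) (b := t / 2) (lo := fun x => x) (hi := fun x => t - x)
    (by linarith) continuous_id (by fun_prop) ?_ (w₀ : ℝ) (w₁ : ℝ)
    (P := fun x z => evL (evL ev x) z Q)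
    (F := fun x z => (ev B * x * z) ^ 2 /
      (max x (1 / 1000) * max z (1 / 1000) * max (1 - x - z) (1 / 3)))
    (G := fun x z => (ev B * x * z) ^ 2 /
      (max x (1 / 1000) * max z (1 / 1000) * max (1 - x - z) (1 / 3)) *
        Real.log (max (1 - x - z - t) (1 / 3) / t)) ?_ ?_ ?_ ?_ ?_ ?_ ?_
  · intro x hx
    rw [Set.mem_Icc] at hx
    linarith [hx.2]
  · exact low2d_evc Q
  · refine Continuous.div (by fun_prop) (by fun_prop) ?_
    rintro ⟨x, z⟩
    have h1 : 0 < max x (1 / 1000 : ℝ) := lt_of_lt_of_le (by norm_num) (le_max_right _ _)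
    have h2 : 0 < max z (1 / 1000 : ℝ) := lt_of_lt_of_le (by norm_num) (le_max_right _ _)
    have h3 : 0 < max (1 - x - z) (1 / 3 : ℝ) := lt_of_lt_of_le (by norm_num) (le_max_right _ _)
    positivity
  · refine Continuous.mul (Continuous.div (by fun_prop) (by fun_prop) ?_) ?_
    · rintro ⟨x, z⟩
      have h1 : 0 < max x (1 / 1000 : ℝ) := lt_of_lt_of_le (by norm_num) (le_max_right _ _)
      have h2 : 0 < max z (1 / 1000 : ℝ) := lt_of_lt_of_le (by norm_num) (le_max_right _ _)
      have h3 : 0 < max (1 - x - z) (1 / 3 : ℝ) := lt_of_lt_of_le (by norm_num) (le_max_right _ _)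
      positivity
    · refine Continuous.log (by fun_prop) ?_
      rintro ⟨x, z⟩
      have h3 : 0 < max (1 - x - z - t) (1 / 3 : ℝ) :=
        lt_of_lt_of_le (by norm_num) (le_max_right _ _)
      positivity
  · intro x _ z _
    rfl
  · intro x hx z hz
    rw [Set.mem_Icc] at hx hz
    rw [max_eq_left hx.1, max_eq_left (le_trans hx.1 hz.1),
      max_eq_left (by linarith [hz.2] : (1 / 3 : ℝ) ≤ 1 - x - z)]
  · intro x hx z hz
    rw [Set.mem_Icc] at hx hz
    rw [max_eq_left hx.1, max_eq_left (le_trans hx.1 hz.1),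
      max_eq_left (by linarith [hz.2] : (1 / 3 : ℝ) ≤ 1 - x - z),
      max_eq_left (by linarith [hz.2] : (1 / 3 : ℝ) ≤ 1 - x - z - t)]
  · intro x hx z hz
    rw [Set.mem_Icc] at hx hz
    have hx0 : 0 < x := by linarith [hx.1]
    have hz0 : 0 < z := by linarith [hz.1]
    have hxz : x + z ≤ t := by linarith [hz.2]
    have hd : 0 < 1 - x - z := by linarith
    obtain ⟨g1, g2⟩ := hS3 K (x + z) (by linarith) (by linarith)
    have g1' : evQ (x + z) (ge K) ≤ 1 / (1 - x - z) := by
      have : 1 - (x + z) = 1 - x - z := by ring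
      rwa [this] at g1
    have hnum : 0 ≤ x * z * (ev B * ev B) := by
      have := mul_self_nonneg (ev B)
      positivity
    have hbase : (ev B * x * z) ^ 2 / (x * z * (1 - x - z)) =
        x * z * (ev B * ev B) * (1 / (1 - x - z)) := by
      field_simp
    rw [hPv, hbase]
    set W : ℝ := w₀ + w₁ * Real.log ((1 - x - z - t) / t) with hW
    have hlog0 : 0 ≤ Real.log ((1 - x - z - t) / t) := by
      refine Real.log_nonneg ?_
      rw [le_div_iff₀ ht0]
      linarith
    have hW0 : 0 ≤ W := by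
      have := mul_nonneg hw1' hlog0
      linarith
    have hLWW : LW x z ≤ W := by
      rw [hLW, hW]
      dsimp only
      rcases hw with hw | hw
      · rw [hw]; simp
      · have hr4 : (r : ℝ) ≤ 1 / 4 := by
          have : ((r : ℚ) : ℝ) ≤ ((1 / 4 : ℚ) : ℝ) := by exact_mod_cast hw
          simpa using this
        have hl := hS2 m (3 * r) (x + z + t) hm (by linarith) (by linarith) (by
          push_cast
          linarith)
        have hlog : Real.log ((1 - x - z - t) / t) =
            Real.log (1 / t) + Real.log (1 - (x + z + t)) := by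
          rw [← Real.log_mul (by positivity) (by
            have : 0 < 1 - (x + z + t) := by linarith
            exact this.ne')]
          congr 1
          field_simp
          ring
        rw [hlog]
        have := mul_le_mul_of_nonneg_left (add_le_add hLT hl) hw1'
        linarith
    calc x * z * (ev B * ev B) * evQ (x + z) (ge K) * LW x z
        ≤ x * z * (ev B * ev B) * evQ (x + z) (ge K) * W :=
          mul_le_mul_of_nonneg_left hLWW (mul_nonneg hnum g2)
      _ ≤ x * z * (ev B * ev B) * (1 / (1 - x - z)) * W :=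
          mul_le_mul_of_nonneg_right (mul_le_mul_of_nonneg_left g1' hnum) hW0
      _ = _ := by rw [hW]; ring

end Pool.Agent.PTN
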