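import Pool.Agent.PTN.Stmts

set_option autoImplicit false

/-!
# PTN: assembly of `St_QQ`
-/

namespace Pool.Agent.PTN

open MeasureTheory Pool.Agent.PT

theorem qf_gg_cont (c e ρ : ℝ) {X : Type*} [TopologicalSpace X] {a b u : X → ℝ}
    (ha : Continuous a) (hb : Continuous b) (hu : Continuous u) :
    Continuous fun q => gg (Aab c e ρ (a q) (b q)) (Bab c e ρ (a q) (b q)) (ρ - max (a q) (b q))
      (u q) := by
  unfold gg GR Aab Bab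
  fun_prop

/-- congruence on the triangle -/
theorem qf_congr {σ : ℝ} (hσ : 0 < σ) {f g : ℝ → ℝ → ℝ}
    (h : ∀ a b, 0 ≤ a → 0 ≤ b → a + b ≤ σ → f a b = g a b) :
    ∫ a in (0 : ℝ)..σ, ∫ b in (0 : ℝ)..(σ - a), f a b =
      ∫ a in (0 : ℝ)..σ, ∫ b in (0 : ℝ)..(σ - a), g a b := by
  refine intervalIntegral.integral_congr fun a ha => ?_
  rw [Set.uIcc_of_le hσ.le] at ha
  refine intervalIntegral.integral_congr fun b hb => ?_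
  rw [Set.uIcc_of_le (by linarith [ha.2])] at hb
  exact h a b ha.1 hb.1 (by linarith [hb.2])

/-- the general step -/
theorem qf_step (hSw : St_Swap) (hDm : St_DDm) (c e ρ σ : ℝ) (j : Fin 3) (n : ℕ) (hσ : 0 < σ)
    (hσρ : σ ≤ ρ) (κ : (Fin n → ℝ) → ℝ → ℝ → ℝ) (R : ℝ → ℝ → ℝ → ℝ)
    (hκc : Continuous (fun q : (Fin n → ℝ) × ℝ × ℝ => κ q.1 q.2.1 q.2.2))
    (hκ : ∀ u : Fin n → ℝ, (∀ i, 0 ≤ u i) → ∀ a b, 0 ≤ a → 0 ≤ b → a + b ≤ ρ →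
      hB (FP c e ρ) ρ j u a b ^ 2 = κ u a b)
    (hR : ∀ a b, ∫ u in DD ρ n, κ u a b * dens u =
      R (Aab c e ρ a b) (Bab c e ρ a b) (ρ - max a b)) :
    QQ (FP c e ρ) ρ σ j n = ∫ a in (0 : ℝ)..σ, ∫ b in (0 : ℝ)..(σ - a),
      R (Aab c e ρ a b) (Bab c e ρ a b) (ρ - max a b) := by
  have hρ : 0 < ρ := hσ.trans_le hσρ
  obtain ⟨m1, m2, m3, m4⟩ := hDm n ρ hρ
  have h1 := hSw n (DD ρ n) dens κ σ (1000 ^ n / ρ) hσ.le m1
    (fun u hu i => ⟨(m3 u hu i).1.le, (m3 u hu i).2.le⟩) m2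
    (fun u hu => by rw [abs_of_pos (m4 u hu).1]; exact (m4 u hu).2) hκc
  have h2 : QQ (FP c e ρ) ρ σ j n =
      ∫ u in DD ρ n, (∫ a in (0 : ℝ)..σ, ∫ b in (0 : ℝ)..(σ - a), κ u a b) * dens u := by
    unfold QQ JJ
    refine setIntegral_congr_fun m1 fun u hu => ?_
    congr 1
    exact qf_congr hσ fun a b ha hb hab =>
      hκ u (fun i => (m3 u hu i).1.le) a b ha hb (hab.trans hσρ)
  rw [h2, h1]
  exact qf_congr hσ fun a b _ _ _ => hR a b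

/-- the part of `St_QQ` without `n = 3` -/
theorem qf_012 (hB' : St_hB) (hSw : St_Swap) (hDm : St_DDm) (h1 : St_DD1) (h2 : St_DD2)
    (c e ρ σ : ℝ) (j : Fin 3) (hσ : 0 < σ) (hσρ : σ ≤ ρ) :
    (ρ ≤ 1 / 2 → QQ (FP c e ρ) ρ σ j 0 = ∫ a in (0 : ℝ)..σ, ∫ b in (0 : ℝ)..(σ - a),
      R0 (Aab c e ρ a b) (Bab c e ρ a b) (ρ - max a b)) ∧
    (ρ ≤ 1 / 2 → QQ (FP c e ρ) ρ σ j 1 = ∫ a in (0 : ℝ)..σ, ∫ b in (0 : ℝ)..(σ - a),
      R1 (Aab c e ρ a b) (Bab c e ρ a b) (ρ - max a b)) ∧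
    (ρ ≤ 1 / 3 → QQ (FP c e ρ) ρ σ j 2 = ∫ a in (0 : ℝ)..σ, ∫ b in (0 : ℝ)..(σ - a),
      R2 (Aab c e ρ a b) (Bab c e ρ a b) (ρ - max a b)) := by
  have hρ : 0 < ρ := hσ.trans_le hσρ
  refine ⟨fun hr => ?_, fun hr => ?_, fun hr => ?_⟩
  · refine qf_step hSw hDm c e ρ σ j 0 hσ hσρ
      (fun _ a b => R0 (Aab c e ρ a b) (Bab c e ρ a b) (ρ - max a b)) R0 ?_ ?_ ?_
    · unfold R0 GR Aab Bab
      fun_prop
    · intro u _ a b ha hb hab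
      rw [(hB' c e ρ j a b hρ ha hb hab).1 u, R0]
    · intro a b
      exact h1.1 ρ _ (by linarith)
  · refine qf_step hSw hDm c e ρ σ j 1 hσ hσρ
      (fun u a b => gg (Aab c e ρ a b) (Bab c e ρ a b) (ρ - max a b) (u 0) ^ 2) R1 ?_ ?_ ?_
    · refine (qf_gg_cont c e ρ ?_ ?_ ?_).pow 2 <;> fun_prop
    · intro u hu a b ha hb hab
      rw [(hB' c e ρ j a b hρ ha hb hab).2.1 u hu]
    · intro a b
      exact h1.2 ρ (fun x => gg (Aab c e ρ a b) (Bab c e ρ a b) (ρ - max a b) x ^ 2) hr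
  · refine qf_step hSw hDm c e ρ σ j 2 hσ hσρ
      (fun u a b => (gg (Aab c e ρ a b) (Bab c e ρ a b) (ρ - max a b) (u 0) +
        gg (Aab c e ρ a b) (Bab c e ρ a b) (ρ - max a b) (u 1) -
        gg (Aab c e ρ a b) (Bab c e ρ a b) (ρ - max a b) (u 0 + u 1)) ^ 2) R2 ?_ ?_ ?_
    · refine (((qf_gg_cont c e ρ ?_ ?_ ?_).add (qf_gg_cont c e ρ ?_ ?_ ?_)).sub
        (qf_gg_cont c e ρ ?_ ?_ ?_)).pow 2 <;> fun_prop
    · intro u hu a b ha hb hab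
      rw [(hB' c e ρ j a b hρ ha hb hab).2.2.1 u hu]
    · intro a b
      refine h2 ρ (fun x z => (gg (Aab c e ρ a b) (Bab c e ρ a b) (ρ - max a b) x +
        gg (Aab c e ρ a b) (Bab c e ρ a b) (ρ - max a b) z -
        gg (Aab c e ρ a b) (Bab c e ρ a b) (ρ - max a b) (x + z)) ^ 2) hr ?_
      unfold gg GR
      fun_prop

/-- the part `n = 3` -/
theorem qf_3 (hB' : St_hB) (hSw : St_Swap) (hDm : St_DDm) (h3 : St_DD3)
    (c e ρ σ : ℝ) (j : Fin 3) (hσ : 0 < σ) (hσρ : σ ≤ ρ) (hr : ρ ≤ 1 / 4) :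
    QQ (FP c e ρ) ρ σ j 3 = ∫ a in (0 : ℝ)..σ, ∫ b in (0 : ℝ)..(σ - a),
      R3 (Aab c e ρ a b) (Bab c e ρ a b) (ρ - max a b) := by
  have hρ : 0 < ρ := hσ.trans_le hσρ
  · refine qf_step hSw hDm c e ρ σ j 3 hσ hσρ
      (fun u a b => (gg (Aab c e ρ a b) (Bab c e ρ a b) (ρ - max a b) (u 0) +
        gg (Aab c e ρ a b) (Bab c e ρ a b) (ρ - max a b) (u 1) +
        gg (Aab c e ρ a b) (Bab c e ρ a b) (ρ - max a b) (u 2) -
        gg (Aab c e ρ a b) (Bab c e ρ a b) (ρ - max a b) (u 0 + u 1) -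
        gg (Aab c e ρ a b) (Bab c e ρ a b) (ρ - max a b) (u 0 + u 2) -
        gg (Aab c e ρ a b) (Bab c e ρ a b) (ρ - max a b) (u 1 + u 2) +
        gg (Aab c e ρ a b) (Bab c e ρ a b) (ρ - max a b) (u 0 + u 1 + u 2)) ^ 2) R3 ?_ ?_ ?_
    · refine (((((((qf_gg_cont c e ρ ?_ ?_ ?_).add (qf_gg_cont c e ρ ?_ ?_ ?_)).add
        (qf_gg_cont c e ρ ?_ ?_ ?_)).sub (qf_gg_cont c e ρ ?_ ?_ ?_)).sub
        (qf_gg_cont c e ρ ?_ ?_ ?_)).sub (qf_gg_cont c e ρ ?_ ?_ ?_)).add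
        (qf_gg_cont c e ρ ?_ ?_ ?_)).pow 2 <;> fun_prop
    · intro u hu a b ha hb hab
      rw [(hB' c e ρ j a b hρ ha hb hab).2.2.2 u hu]
    · intro a b
      refine h3 ρ (fun x y z => (gg (Aab c e ρ a b) (Bab c e ρ a b) (ρ - max a b) x +
        gg (Aab c e ρ a b) (Bab c e ρ a b) (ρ - max a b) y +
        gg (Aab c e ρ a b) (Bab c e ρ a b) (ρ - max a b) z -
        gg (Aab c e ρ a b) (Bab c e ρ a b) (ρ - max a b) (x + y) -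
        gg (Aab c e ρ a b) (Bab c e ρ a b) (ρ - max a b) (x + z) -
        gg (Aab c e ρ a b) (Bab c e ρ a b) (ρ - max a b) (y + z) +
        gg (Aab c e ρ a b) (Bab c e ρ a b) (ρ - max a b) (x + y + z)) ^ 2) hr ?_
      unfold gg GR
      fun_prop

theorem thm_QQ (hB' : St_hB) (hSw : St_Swap) (hDm : St_DDm) (h1 : St_DD1) (h2 : St_DD2)
    (h3 : St_DD3) : St_QQ := by
  intro c e ρ σ j hσ hσρ
  obtain ⟨a, b, d⟩ := qf_012 hB' hSw hDm h1 h2 c e ρ σ j hσ hσρ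
  exact ⟨a, b, d, fun hr => qf_3 hB' hSw hDm h3 c e ρ σ j hσ hσρ hr⟩

end Pool.Agent.PTN
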