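import Pool.Agent.PTN.Stmts

set_option autoImplicit false

/-!
# PTN / Ser: series lower bounds
-/

namespace Pool.Agent.PTN

open MeasureTheory Pool.Agent.PT

theorem ser_append (x : ℝ) (p q : List ℚ) :
    evQ x (p ++ q) = evQ x p + x ^ p.length * evQ x q := by
  induction p with
  | nil => simp [evQ, evL]
  | cons a p ih =>
    simp only [evQ] at ih
    simp only [evQ, List.cons_append, evL, List.length_cons, ih, pow_succ]
    ring

theorem ser_range (x : ℝ) (f : ℕ → ℚ) (n : ℕ) :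
    evQ x ((List.range n).map f) = ∑ k ∈ Finset.range n, (f k : ℝ) * x ^ k := by
  induction n with
  | zero => simp [evQ, evL]
  | succ n ih =>
    rw [List.range_succ, List.map_append, ser_append, ih, Finset.sum_range_succ]
    simp [evQ, evL]
    ring

theorem ser_shift (x : ℝ) (g : ℕ → ℚ) (n : ℕ) (h0 : g 0 = 0) :
    ∑ k ∈ Finset.range (n + 1), (g k : ℝ) * x ^ k =
      ∑ k ∈ Finset.range n, (g (k + 1) : ℝ) * x ^ (k + 1) := by
  rw [Finset.sum_range_succ']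
  simp [h0]

theorem ser_cast (f : ℚ → ℚ) (l : List ℕ) :
    List.map f (do
      let a ← l
      pure (a : ℚ)) = List.map (fun a : ℕ => f (a : ℚ)) l := by
  induction l with
  | nil => rfl
  | cons a l ih =>
    rw [List.map_cons, ← ih]
    rfl

theorem ser_lgS (n : ℕ) (s : ℝ) :
    evQ s (lgS n) = ∑ k ∈ Finset.range n, s ^ (k + 1) / ((k : ℝ) + 1) := by
  rw [lgS, ser_cast, ser_range, ser_shift _ _ _ (by simp)]
  refine Finset.sum_congr rfl fun k _ => ?_
  rw [if_neg (Nat.cast_ne_zero.2 (Nat.succ_ne_zero k))]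
  push_cast
  ring

theorem ser_part1 (n : ℕ) (s : ℝ) (h0 : 0 ≤ s) (h1 : s < 1) :
    evQ s (lgS n) ≤ -Real.log (1 - s) := by
  rw [ser_lgS]
  have h := Real.hasSum_pow_div_log_of_abs_lt_one (abs_lt.2 ⟨by linarith, h1⟩)
  exact sum_le_hasSum _ (fun k _ => by positivity) h

theorem ser_part2 (m : ℕ) (μ : ℚ) (p : ℝ) (hm : 1 ≤ m) (hμ : μ < 1) (h0 : 0 ≤ p)
    (h1 : p ≤ μ) : evQ p (lg1 m μ) ≤ Real.log (1 - p) := by
  obtain ⟨m, rfl⟩ : ∃ m', m = m' + 1 := ⟨m - 1, by omega⟩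
  have hμ' : (μ : ℝ) < 1 := by exact_mod_cast hμ
  have hp1 : p < 1 := lt_of_le_of_lt h1 hμ'
  have e1 : evQ p (lg1 (m + 1) μ) = -(∑ k ∈ Finset.range m, p ^ (k + 1) / ((k : ℝ) + 1)) -
      p ^ (m + 1) / (((m : ℝ) + 1) * (1 - μ)) := by
    rw [lg1, ser_cast, ser_append, ser_range, ser_shift _ _ _ (by simp)]
    simp only [List.length_map, List.length_range, evQ, evL]
    rw [← Finset.sum_neg_distrib, sub_eq_add_neg]
    congr 1
    · refine Finset.sum_congr rfl fun k _ => ?_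
      rw [if_neg (Nat.cast_ne_zero.2 (Nat.succ_ne_zero k))]
      push_cast
      ring
    · push_cast
      ring
  rw [e1]
  have h := Real.hasSum_pow_div_log_of_abs_lt_one (abs_lt.2 ⟨by linarith, hp1⟩)
  have h2 : HasSum (fun k : ℕ => p ^ (k + m + 1) / (((k + m : ℕ) : ℝ) + 1))
      (-Real.log (1 - p) - ∑ k ∈ Finset.range m, p ^ (k + 1) / ((k : ℝ) + 1)) := by
    have h3 := (hasSum_nat_add_iff' m).2 h
    exact h3
  have h4 : HasSum (fun k : ℕ => p ^ k * (p ^ (m + 1) / ((m : ℝ) + 1)))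
      ((1 - p)⁻¹ * (p ^ (m + 1) / ((m : ℝ) + 1))) :=
    (hasSum_geometric_of_lt_one h0 hp1).mul_right _
  have h5 : -Real.log (1 - p) - ∑ k ∈ Finset.range m, p ^ (k + 1) / ((k : ℝ) + 1) ≤
      (1 - p)⁻¹ * (p ^ (m + 1) / ((m : ℝ) + 1)) := by
    refine hasSum_le (fun k => ?_) h2 h4
    have e2 : p ^ k * (p ^ (m + 1) / ((m : ℝ) + 1)) = p ^ (k + m + 1) / ((m : ℝ) + 1) := by
      rw [add_assoc, pow_add]
      ring
    rw [e2]
    apply div_le_div_of_nonneg_left (by positivity) (by positivity)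
    push_cast
    linarith [(Nat.cast_nonneg k : (0 : ℝ) ≤ (k : ℝ))]
  have h6 : (1 - p)⁻¹ * (p ^ (m + 1) / ((m : ℝ) + 1)) ≤
      p ^ (m + 1) / (((m : ℝ) + 1) * (1 - μ)) := by
    have hA : (0 : ℝ) < 1 - μ := by linarith
    have hB : (0 : ℝ) ≤ p ^ (m + 1) / ((m : ℝ) + 1) := by positivity
    have e3 : p ^ (m + 1) / (((m : ℝ) + 1) * (1 - μ)) =
        (1 - (μ : ℝ))⁻¹ * (p ^ (m + 1) / ((m : ℝ) + 1)) := by
      field_simp
    rw [e3]
    refine mul_le_mul_of_nonneg_right ?_ hB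
    exact inv_anti₀ hA (by linarith)
  linarith

theorem ser_ge (n : ℕ) (q : ℝ) : evQ q (ge n) = ∑ k ∈ Finset.range (n + 1), q ^ k := by
  rw [ge, ser_range]
  simp

theorem ser_geom (n : ℕ) (q : ℝ) (hq : q ≠ 1) :
    evQ q (ge n) = (1 - q ^ (n + 1)) / (1 - q) := by
  rw [ser_ge, geom_sum_eq hq, ← neg_sub (q ^ (n + 1)) 1, ← neg_sub q 1, neg_div_neg_eq]

theorem ser_part3 (n : ℕ) (q : ℝ) (h0 : 0 ≤ q) (h1 : q < 1) :
    evQ q (ge n) ≤ 1 / (1 - q) ∧ 0 ≤ evQ q (ge n) := by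
  constructor
  · rw [ser_geom n q h1.ne]
    apply div_le_div_of_nonneg_right _ (by linarith)
    linarith [pow_nonneg h0 (n + 1)]
  · rw [ser_ge]
    exact Finset.sum_nonneg fun k _ => pow_nonneg h0 k

theorem ser_part4 (β : Type) [Ops β] (ev : β → ℝ) (h : Hom ev) (c : ℚ) (k : ℕ) (y : β)
    (hc : 0 < c) (hk : Odd k) (hy : 0 < ev y) :
    ev (iv c k y) ≤ 1 / ev y ∧ (c * ev y ≤ 2 → 0 ≤ ev (iv c k y)) := by
  have hc' : (0 : ℝ) < c := by exact_mod_cast hc
  have hcy : 0 < (c : ℝ) * ev y := mul_pos hc' hy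
  have e1 : ev (iv c k y) = (1 - (1 - (c : ℝ) * ev y) ^ (k + 1)) / ev y := by
    rw [iv, h.sc, h.hatQ, h.hsub, h.one, h.sc]
    have e2 := ser_geom k (1 - (c : ℝ) * ev y) (by linarith)
    rw [evQ] at e2
    rw [e2]
    have e3 : 1 - (1 - (c : ℝ) * ev y) = c * ev y := by ring
    rw [e3]
    field_simp
  have hev : Even (k + 1) := hk.add_one
  rw [e1]
  constructor
  · apply div_le_div_of_nonneg_right _ hy.le
    linarith [hev.pow_nonneg (1 - (c : ℝ) * ev y)]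
  · intro h2
    apply div_nonneg _ hy.le
    have h3 : |1 - (c : ℝ) * ev y| ≤ 1 := by
      rw [abs_le]
      constructor <;> linarith
    have h4 : (1 - (c : ℝ) * ev y) ^ (k + 1) ≤ 1 := by
      rw [← hev.pow_abs]
      exact pow_le_one₀ (abs_nonneg _) h3
    linarith

theorem ser_part5 (β : Type) [Ops β] (ev : β → ℝ) (h : Hom ev) (r L : ℚ) (n : ℕ) (T : β)
    (hr : 0 < r) (hL : (L : ℝ) ≤ Real.log (1 / r)) (hT : 0 < ev T) (hTr : ev T ≤ r) :
    ev (LT r L n T) ≤ Real.log (1 / ev T) := by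
  have hr' : (0 : ℝ) < r := by exact_mod_cast hr
  have h1 := ser_part1 n (1 - 1 / (r : ℝ) * ev T) (by
    rw [one_div, inv_mul_eq_div, sub_nonneg, div_le_one hr']
    exact hTr) (by
    have : 0 < 1 / (r : ℝ) * ev T := by positivity
    linarith)
  have e1 : ev (LT r L n T) = L + evQ (1 - 1 / (r : ℝ) * ev T) (lgS n) := by
    rw [LT, h.add, h.hkk, h.hatQ, h.hsub, h.one, h.sc, evQ]
    push_cast
    rfl
  have e2 : 1 - (1 - 1 / (r : ℝ) * ev T) = ev T / r := by ring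
  rw [e2, Real.log_div hT.ne' hr'.ne'] at h1
  rw [one_div, Real.log_inv] at hL
  have e3 : Real.log (1 / ev T) = -Real.log (ev T) := by rw [one_div, Real.log_inv]
  rw [e1, e3]
  linarith

theorem thm_Ser : St_Ser :=
  ⟨ser_part1, ser_part2, ser_part3, fun β _ ev h c k y hc hk hy => ser_part4 β ev h c k y hc hk hy,
    fun β _ ev h r L n T hr hL hT hTr => ser_part5 β ev h r L n T hr hL hT hTr⟩

end Pool.Agent.PTN
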