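import Pool.Agent.PTN.Stmts

set_option autoImplicit false

/-!
# PTN: splitting of `R2`
-/

namespace Pool.Agent.PTN

open MeasureTheory Pool.Agent.PT

/-- clamped kernel -/
noncomputable def spl2_K (x z : ℝ) : ℝ :=
  (max x (1 / 1000) * max z (1 / 1000) * max (1 - x - z) (1 / 3))⁻¹

theorem spl2_K_cont : Continuous (fun q : ℝ × ℝ => spl2_K q.1 q.2) := by
  unfold spl2_K
  refine Continuous.inv₀ (by fun_prop) ?_
  intro q
  positivity

theorem spl2_K_eq {x z : ℝ} (hx : 1 / 1000 ≤ x) (hz : 1 / 1000 ≤ z) (h : 1 / 3 ≤ 1 - x - z) :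
    spl2_K x z = (x * z * (1 - x - z))⁻¹ := by
  rw [spl2_K, max_eq_left hx, max_eq_left hz, max_eq_left h]

theorem spl2_par {F : ℝ → ℝ → ℝ} (hF : Continuous (Function.uncurry F)) {a b : ℝ → ℝ}
    (ha : Continuous a) (hb : Continuous b) : Continuous (fun x => ∫ z in a x..b x, F x z) := by
  have hi : ∀ x u v : ℝ, IntervalIntegrable (F x) volume u v := fun x u v =>
    (hF.comp (by fun_prop : Continuous fun z : ℝ => (x, z))).intervalIntegrable u v
  have h : (fun x => ∫ z in a x..b x, F x z) =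
      fun x => (∫ z in (0 : ℝ)..b x, F x z) - ∫ z in (0 : ℝ)..a x, F x z := by
    funext x
    rw [intervalIntegral.integral_interval_sub_left (hi x _ _) (hi x _ _)]
  rw [h]
  exact (intervalIntegral.continuous_parametric_intervalIntegral_of_continuous hF hb).sub
    (intervalIntegral.continuous_parametric_intervalIntegral_of_continuous hF ha)

theorem spl2_log {x t : ℝ} (_hx1 : x < 1) (ht : 0 < t) (h : t ≤ (1 - x) / 2) :
    ∫ z in t..((1 - x) / 2), (z * (1 - x - z))⁻¹ = Real.log ((1 - x - t) / t) / (1 - x) := by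
  have hx : 0 < 1 - x := by linarith
  have hd : ∀ z ∈ Set.uIcc t ((1 - x) / 2),
      HasDerivAt (fun z => (Real.log z - Real.log (1 - x - z)) / (1 - x))
        ((z * (1 - x - z))⁻¹) z := by
    intro z hz
    rw [Set.uIcc_of_le h] at hz
    have hz0 : 0 < z := lt_of_lt_of_le ht hz.1
    have hz1 : 0 < 1 - x - z := by linarith [hz.2]
    have h1 : HasDerivAt (fun z => Real.log z) (z⁻¹) z := Real.hasDerivAt_log hz0.ne'
    have h2 : HasDerivAt (fun z => Real.log (1 - x - z)) (-1 / (1 - x - z)) z := by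
      have h3 : HasDerivAt (fun z => 1 - x - z) (-1) z := by
        simpa using (hasDerivAt_id z).const_sub (1 - x)
      exact h3.log hz1.ne'
    have h4 := (h1.sub h2).div_const (1 - x)
    refine h4.congr_deriv ?_
    field_simp
    ring
  have hc : ContinuousOn (fun z : ℝ => (z * (1 - x - z))⁻¹) (Set.uIcc t ((1 - x) / 2)) := by
    rw [Set.uIcc_of_le h]
    refine ContinuousOn.inv₀ (by fun_prop) ?_
    intro z hz
    have hz0 : 0 < z := lt_of_lt_of_le ht hz.1
    have hz1 : 0 < 1 - x - z := by linarith [hz.2]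
    positivity
  rw [intervalIntegral.integral_eq_sub_of_hasDerivAt hd hc.intervalIntegrable]
  have e1 : 1 - x - (1 - x) / 2 = (1 - x) / 2 := by ring
  rw [e1, sub_self, zero_div, zero_sub, Real.log_div (by linarith) ht.ne']
  ring

theorem spl2_gg_lt {A B T x : ℝ} (h : x ≤ T) : gg A B T x = GR A B x := by
  rw [gg, min_eq_left h]

theorem spl2_gg_ge {A B T x : ℝ} (h : T ≤ x) : gg A B T x = GR A B T := by
  rw [gg, min_eq_right h]

/-- the integrand of `R2` -/
noncomputable def spl2_F (A B T x z : ℝ) : ℝ :=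
  (gg A B T x + gg A B T z - gg A B T (x + z)) ^ 2 * spl2_K x z

theorem spl2_F_cont (A B T : ℝ) : Continuous (Function.uncurry (spl2_F A B T)) := by
  have h : Continuous fun q : ℝ × ℝ =>
      (gg A B T q.1 + gg A B T q.2 - gg A B T (q.1 + q.2)) ^ 2 := by
    unfold gg GR
    fun_prop
  exact h.mul spl2_K_cont

theorem spl2_R2 (A B T : ℝ) : R2 A B T =
    ∫ x in (1 / 1000 : ℝ)..(1 / 3), ∫ z in x..((1 - x) / 2), spl2_F A B T x z := by
  unfold R2
  refine intervalIntegral.integral_congr fun x hx => ?_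
  rw [Set.uIcc_of_le (by norm_num)] at hx
  refine intervalIntegral.integral_congr fun z hz => ?_
  rw [Set.uIcc_of_le (by linarith [hx.2])] at hz
  rw [spl2_F, spl2_K_eq hx.1 (hx.1.trans hz.1) (by linarith [hz.2, hx.2]), div_eq_mul_inv]

/-- for `T ≤ x` -/
theorem spl2_a {A B T : ℝ} (hT : 1 / 500 ≤ T) (hT1 : T ≤ 1 / 3) : GR A B T ^ 2 * P2a T =
    ∫ x in T..(1 / 3 : ℝ), ∫ z in x..((1 - x) / 2), spl2_F A B T x z := by
  rw [P2a, ← intervalIntegral.integral_const_mul]
  refine intervalIntegral.integral_congr fun x hx => ?_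
  rw [Set.uIcc_of_le hT1] at hx
  have hx0 : 0 < x := by linarith [hx.1]
  have hx1 : 0 < 1 - x := by linarith [hx.2]
  have h1 : ∫ z in x..((1 - x) / 2), spl2_F A B T x z =
      ∫ z in x..((1 - x) / 2), (GR A B T ^ 2 / x) * (z * (1 - x - z))⁻¹ := by
    refine intervalIntegral.integral_congr fun z hz => ?_
    rw [Set.uIcc_of_le (by linarith [hx.2])] at hz
    have hz0 : 0 < z := by linarith [hz.1]
    have hz1 : 0 < 1 - x - z := by linarith [hz.2, hx.2]
    rw [spl2_F, spl2_K_eq (by linarith [hx.1]) (by linarith [hx.1, hz.1])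
      (by linarith [hz.2, hx.2]), spl2_gg_ge hx.1, spl2_gg_ge (hx.1.trans hz.1),
      spl2_gg_ge (by linarith [hx.1] : T ≤ x + z)]
    field_simp
    ring
  rw [h1, intervalIntegral.integral_const_mul, spl2_log (by linarith) hx0 (by linarith [hx.2])]
  have e : 1 - x - x = 1 - 2 * x := by ring
  rw [e]
  field_simp

theorem spl2_b {A B T : ℝ} (hT : 1 / 500 ≤ T) (hT1 : T ≤ 1 / 3) : P2b A B T =
    ∫ x in (1 / 1000 : ℝ)..T, ∫ z in T..((1 - x) / 2), spl2_F A B T x z := by
  rw [P2b]
  refine intervalIntegral.integral_congr fun x hx => ?_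
  rw [Set.uIcc_of_le (by linarith)] at hx
  have hx0 : 0 < x := by linarith [hx.1]
  have hx1 : 0 < 1 - x := by linarith [hx.2]
  have h1 : ∫ z in T..((1 - x) / 2), spl2_F A B T x z =
      ∫ z in T..((1 - x) / 2), (GR A B x ^ 2 / x) * (z * (1 - x - z))⁻¹ := by
    refine intervalIntegral.integral_congr fun z hz => ?_
    rw [Set.uIcc_of_le (by linarith [hx.2])] at hz
    have hz0 : 0 < z := by linarith [hz.1]
    have hz1 : 0 < 1 - x - z := by linarith [hz.2, hx.2]
    rw [spl2_F, spl2_K_eq hx.1 (by linarith [hz.1])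
      (by linarith [hz.2, hx.2]), spl2_gg_lt hx.2, spl2_gg_ge hz.1,
      spl2_gg_ge (by linarith [hz.1] : T ≤ x + z)]
    field_simp
    ring
  rw [h1, intervalIntegral.integral_const_mul, spl2_log (by linarith) (by linarith)
    (by linarith [hx.2])]
  field_simp

theorem spl2_c1 {A B T : ℝ} (hT : 1 / 500 ≤ T) (hT1 : T ≤ 1 / 3) :
    (∫ x in (1 / 1000 : ℝ)..(T / 2), ∫ z in (T - x)..T,
      (GR A B x + GR A B z - GR A B T) ^ 2 / (x * z * (1 - x - z))) =
    ∫ x in (1 / 1000 : ℝ)..(T / 2), ∫ z in (T - x)..T, spl2_F A B T x z := by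
  refine intervalIntegral.integral_congr fun x hx => ?_
  rw [Set.uIcc_of_le (by linarith)] at hx
  refine intervalIntegral.integral_congr fun z hz => ?_
  rw [Set.uIcc_of_le (by linarith [hx.1])] at hz
  rw [spl2_F, spl2_K_eq hx.1 (by linarith [hz.1, hx.2]) (by linarith [hz.2, hx.2]),
    spl2_gg_lt (by linarith [hx.2] : x ≤ T), spl2_gg_lt hz.2,
    spl2_gg_ge (by linarith [hz.1] : T ≤ x + z), div_eq_mul_inv]

theorem spl2_c2 {A B T : ℝ} (hT : 1 / 500 ≤ T) (hT1 : T ≤ 1 / 3) :
    (∫ x in (T / 2)..T, ∫ z in x..T,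
      (GR A B x + GR A B z - GR A B T) ^ 2 / (x * z * (1 - x - z))) =
    ∫ x in (T / 2)..T, ∫ z in x..T, spl2_F A B T x z := by
  refine intervalIntegral.integral_congr fun x hx => ?_
  rw [Set.uIcc_of_le (by linarith)] at hx
  refine intervalIntegral.integral_congr fun z hz => ?_
  rw [Set.uIcc_of_le hx.2] at hz
  rw [spl2_F, spl2_K_eq (by linarith [hx.1]) (by linarith [hz.1, hx.1])
    (by linarith [hz.2, hx.2]), spl2_gg_lt hx.2, spl2_gg_lt hz.2,
    spl2_gg_ge (by linarith [hz.1, hx.1] : T ≤ x + z), div_eq_mul_inv]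

theorem spl2_d {A B T : ℝ} (hT : 1 / 500 ≤ T) (hT1 : T ≤ 1 / 3) : P2d B T =
    ∫ x in (1 / 1000 : ℝ)..(T / 2), ∫ z in x..(T - x), spl2_F A B T x z := by
  rw [P2d]
  refine intervalIntegral.integral_congr fun x hx => ?_
  rw [Set.uIcc_of_le (by linarith)] at hx
  refine intervalIntegral.integral_congr fun z hz => ?_
  rw [Set.uIcc_of_le (by linarith [hx.2])] at hz
  rw [spl2_F, spl2_K_eq hx.1 (by linarith [hz.1, hx.1]) (by linarith [hz.2, hx.2]),
    spl2_gg_lt (by linarith [hx.2] : x ≤ T), spl2_gg_lt (by linarith [hz.2, hx.1] : z ≤ T),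
    spl2_gg_lt (by linarith [hz.2] : x + z ≤ T), div_eq_mul_inv]
  congr 1
  unfold GR
  ring

theorem thm_Spl2 : St_Spl2 := by
  intro A B T hT hT1
  apply le_of_eq
  have hF := spl2_F_cont A B T
  have hi : ∀ x u v : ℝ, IntervalIntegrable (spl2_F A B T x) volume u v := fun x u v =>
    (hF.comp (by fun_prop : Continuous fun z : ℝ => (x, z))).intervalIntegrable u v
  have cH := spl2_par hF (a := fun x => x) (b := fun x => (1 - x) / 2) (by fun_prop) (by fun_prop)
  have cb := spl2_par hF (a := fun _ => T) (b := fun x => (1 - x) / 2) (by fun_prop) (by fun_prop)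
  have cc := spl2_par hF (a := fun x => T - x) (b := fun _ => T) (by fun_prop) (by fun_prop)
  have cc2 := spl2_par hF (a := fun x => x) (b := fun _ => T) (by fun_prop) (by fun_prop)
  have cd := spl2_par hF (a := fun x => x) (b := fun x => T - x) (by fun_prop) (by fun_prop)
  rw [spl2_a hT hT1, spl2_b hT hT1, P2c, spl2_c1 hT hT1, spl2_c2 hT hT1,
    spl2_d (A := A) hT hT1, spl2_R2]
  have e0 : (∫ x in (1 / 1000 : ℝ)..(T / 2), ∫ z in x..((1 - x) / 2), spl2_F A B T x z) +
      (∫ x in (T / 2)..T, ∫ z in x..((1 - x) / 2), spl2_F A B T x z) +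
      (∫ x in T..(1 / 3 : ℝ), ∫ z in x..((1 - x) / 2), spl2_F A B T x z) =
      ∫ x in (1 / 1000 : ℝ)..(1 / 3), ∫ z in x..((1 - x) / 2), spl2_F A B T x z := by
    rw [intervalIntegral.integral_add_adjacent_intervals (cH.intervalIntegrable _ _)
      (cH.intervalIntegrable _ _), intervalIntegral.integral_add_adjacent_intervals
      (cH.intervalIntegrable _ _) (cH.intervalIntegrable _ _)]
  have e3 : (∫ x in (1 / 1000 : ℝ)..(T / 2), ∫ z in T..((1 - x) / 2), spl2_F A B T x z) +
      (∫ x in (T / 2)..T, ∫ z in T..((1 - x) / 2), spl2_F A B T x z) =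
      ∫ x in (1 / 1000 : ℝ)..T, ∫ z in T..((1 - x) / 2), spl2_F A B T x z :=
    intervalIntegral.integral_add_adjacent_intervals (cb.intervalIntegrable _ _)
      (cb.intervalIntegrable _ _)
  have e1 : ∫ x in (1 / 1000 : ℝ)..(T / 2), ∫ z in x..((1 - x) / 2), spl2_F A B T x z =
      (∫ x in (1 / 1000 : ℝ)..(T / 2), ∫ z in x..(T - x), spl2_F A B T x z) +
      ((∫ x in (1 / 1000 : ℝ)..(T / 2), ∫ z in (T - x)..T, spl2_F A B T x z) +
      ∫ x in (1 / 1000 : ℝ)..(T / 2), ∫ z in T..((1 - x) / 2), spl2_F A B T x z) := by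
    have ccb : Continuous fun x => (∫ z in (T - x)..T, spl2_F A B T x z) +
        ∫ z in T..((1 - x) / 2), spl2_F A B T x z := cc.add cb
    rw [← intervalIntegral.integral_add (cc.intervalIntegrable _ _) (cb.intervalIntegrable _ _),
      ← intervalIntegral.integral_add (cd.intervalIntegrable _ _) (ccb.intervalIntegrable _ _)]
    refine intervalIntegral.integral_congr fun x _ => ?_
    change _ = (∫ z in x..(T - x), spl2_F A B T x z) + ((∫ z in (T - x)..T, spl2_F A B T x z) +
      ∫ z in T..((1 - x) / 2), spl2_F A B T x z)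
    rw [intervalIntegral.integral_add_adjacent_intervals (hi x _ _) (hi x _ _),
      intervalIntegral.integral_add_adjacent_intervals (hi x _ _) (hi x _ _)]
  have e2 : ∫ x in (T / 2)..T, ∫ z in x..((1 - x) / 2), spl2_F A B T x z =
      (∫ x in (T / 2)..T, ∫ z in x..T, spl2_F A B T x z) +
      ∫ x in (T / 2)..T, ∫ z in T..((1 - x) / 2), spl2_F A B T x z := by
    rw [← intervalIntegral.integral_add (cc2.intervalIntegrable _ _) (cb.intervalIntegrable _ _)]
    refine intervalIntegral.integral_congr fun x _ => ?_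
    change _ = (∫ z in x..T, spl2_F A B T x z) + ∫ z in T..((1 - x) / 2), spl2_F A B T x z
    rw [intervalIntegral.integral_add_adjacent_intervals (hi x _ _) (hi x _ _)]
  rw [← e0, ← e3, e1, e2]
  ring

end Pool.Agent.PTN
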