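import Pool.Agent.PTN.Stmts

set_option autoImplicit false

/-!
# PTN / Swap: interchange of integrals
-/

namespace Pool.Agent.PTN

open MeasureTheory Pool.Agent.PT

theorem swap_one {n : ℕ} {D : Set (Fin n → ℝ)} {dn : (Fin n → ℝ) → ℝ}
    {H : (Fin n → ℝ) → ℝ → ℝ} {C : ℝ} (x y : ℝ) (hD : MeasurableSet D)
    (hb : ∀ u ∈ D, ∀ i, 0 ≤ u i ∧ u i ≤ 1) (hdn : Measurable dn) (hC : ∀ u ∈ D, |dn u| ≤ C)
    (hH : Continuous (fun q : (Fin n → ℝ) × ℝ => H q.1 q.2)) :
    ∫ u in D, (∫ t in x..y, H u t) * dn u = ∫ t in x..y, ∫ u in D, H u t * dn u := by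
  have hDsub : D ⊆ Set.Icc (0 : Fin n → ℝ) 1 := fun u hu =>
    ⟨fun i => (hb u hu i).1, fun i => (hb u hu i).2⟩
  have hDfin : volume D ≠ ⊤ :=
    ((measure_mono hDsub).trans_lt isCompact_Icc.measure_lt_top).ne
  have hIfin : volume (Set.uIoc x y) ≠ ⊤ :=
    ((measure_mono Set.uIoc_subset_uIcc).trans_lt isCompact_uIcc.measure_lt_top).ne
  obtain ⟨M, hM⟩ := (isCompact_uIcc (a := x) (b := y)).prod
    (isCompact_Icc (a := (0 : Fin n → ℝ)) (b := 1)) |>.exists_bound_of_continuousOn
      (f := fun q : ℝ × (Fin n → ℝ) => H q.2 q.1)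
      (hH.comp (continuous_snd.prodMk continuous_fst)).continuousOn
  have hint : Integrable (Function.uncurry fun (t : ℝ) (u : Fin n → ℝ) => H u t * dn u)
      ((volume.restrict (Set.uIoc x y)).prod (volume.restrict D)) := by
    rw [Measure.prod_restrict]
    refine Measure.integrableOn_of_bounded (M := M * C) ?_ ?_ ?_
    · rw [Measure.prod_prod]
      exact ENNReal.mul_ne_top hIfin hDfin
    · apply Measurable.aestronglyMeasurable
      have h1 : Measurable fun q : ℝ × (Fin n → ℝ) => H q.2 q.1 :=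
        (hH.comp (continuous_snd.prodMk continuous_fst)).measurable
      exact h1.mul (hdn.comp measurable_snd)
    · rw [ae_restrict_iff' (measurableSet_uIoc.prod hD)]
      refine Filter.Eventually.of_forall ?_
      rintro ⟨t, u⟩ ⟨ht, hu⟩
      have h1 := hM (t, u) ⟨Set.uIoc_subset_uIcc ht, hDsub hu⟩
      have h2 := hC u hu
      show ‖H u t * dn u‖ ≤ M * C
      rw [norm_mul]
      exact mul_le_mul h1 h2 (norm_nonneg _) ((norm_nonneg _).trans h1)
  rw [intervalIntegral_integral_swap hint]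
  refine integral_congr_ae (Filter.Eventually.of_forall fun u => ?_)
  show (∫ t in x..y, H u t) * dn u = ∫ t in x..y, H u t * dn u
  rw [intervalIntegral.integral_mul_const]

theorem thm_Swap : St_Swap := by
  intro n D dn κ σ C _ hD hb hdn hC hκ
  have h1 : Continuous (fun q : (Fin n → ℝ) × ℝ => ∫ b in (0 : ℝ)..(σ - q.2), κ q.1 q.2 b) := by
    have h2 : Continuous (Function.uncurry
        (fun (q : (Fin n → ℝ) × ℝ) (b : ℝ) => κ q.1 q.2 b)) := by
      exact hκ.comp ((continuous_fst.comp continuous_fst).prodMk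
        ((continuous_snd.comp continuous_fst).prodMk continuous_snd))
    exact intervalIntegral.continuous_parametric_intervalIntegral_of_continuous h2
      (continuous_const.sub continuous_snd)
  rw [swap_one 0 σ hD hb hdn hC (H := fun u a => ∫ b in (0 : ℝ)..(σ - a), κ u a b) h1]
  refine intervalIntegral.integral_congr fun a _ => ?_
  have h3 : Continuous (fun q : (Fin n → ℝ) × ℝ => κ q.1 a q.2) :=
    hκ.comp (continuous_fst.prodMk (continuous_const.prodMk continuous_snd))
  exact swap_one 0 (σ - a) hD hb hdn hC (H := fun u b => κ u a b) h3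

end Pool.Agent.PTN
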