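import Pool.Agent.PTN.FinA
import Pool.Agent.PTN.QF
import Pool.Agent.PTN.HB
import Pool.Agent.PTN.Hh
import Pool.Agent.PTN.II
import Pool.Agent.PTN.Prof
import Pool.Agent.PTN.Swap
import Pool.Agent.PTN.DDm
import Pool.Agent.PTN.DD1
import Pool.Agent.PTN.DD2
import Pool.Agent.PTN.Cont
import Pool.Agent.PTN.Ser
import Pool.Agent.PTN.Low1
import Pool.Agent.PTN.Spl2
import Pool.Agent.PTN.Low2a
import Pool.Agent.PTN.Low2b
import Pool.Agent.PTN.Low2c
import Pool.Agent.PTN.Low2d
import Pool.Agent.PTN.Out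

set_option autoImplicit false

/-!
# PTN: the numerical inequalities for A and B
-/

namespace Pool.Agent.PTN

open MeasureTheory Pool.Agent.PT Finset

theorem numa_FA : FA = FP 1 (2 / 3) (27 / 100) := by
  funext a
  unfold FA FP
  simp only [one_mul]

/-- there is a Lipschitz constant -/
theorem numa_Prof : ∃ K, Prof (27 / 100) K FA := by
  rw [numa_FA]
  exact thm_Prof 1 (2 / 3) (27 / 100) (by norm_num)

theorem numa_QQ (j : Fin 3) :
    QQ FA (27 / 100) (459 / 2000) j 0 = J0 1 (2 / 3) (27 / 100) (459 / 2000) ∧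
    QQ FA (27 / 100) (459 / 2000) j 1 = J1 1 (2 / 3) (27 / 100) (459 / 2000) ∧
    QQ FA (27 / 100) (459 / 2000) j 2 = J2 1 (2 / 3) (27 / 100) (459 / 2000) := by
  obtain ⟨a, b, c⟩ := qf_012 (thm_hB thm_hh) thm_Swap thm_DDm thm_DD1 thm_DD2 1 (2 / 3)
    (27 / 100) (459 / 2000) j (by norm_num) (by norm_num)
  rw [numa_FA]
  exact ⟨a (by norm_num), b (by norm_num), c (by norm_num)⟩

theorem numa_main : 2 * II FA (27 / 100) <
    3 * (J0 1 (2 / 3) (27 / 100) (459 / 2000) + J1 1 (2 / 3) (27 / 100) (459 / 2000) +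
      1 / 2 * J2 1 (2 / 3) (27 / 100) (459 / 2000)) := by
  rw [numa_FA]
  exact fina_main thm_Out thm_II thm_Cont (thm_Low1 thm_Ser) thm_Spl2 (thm_Low2a thm_Ser)
    (thm_Low2b thm_Ser) (thm_Low2c thm_Ser) (thm_Low2d thm_Ser)

theorem thm_NumA : St_NumA := by
  have h := numa_main
  unfold St_NumA
  have e : ∀ j : Fin 3, ∑ n ∈ range 4, cA (n + 1) * QQ FA (27 / 100) (459 / 2000) j n =
      J0 1 (2 / 3) (27 / 100) (459 / 2000) + J1 1 (2 / 3) (27 / 100) (459 / 2000) +
      1 / 2 * J2 1 (2 / 3) (27 / 100) (459 / 2000) := by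
    intro j
    obtain ⟨a, b, c⟩ := numa_QQ j
    simp only [sum_range_succ, range_zero, sum_empty, a, b, c]
    norm_num [cA]
  simp only [e, sum_const, card_univ, Fintype.card_fin, nsmul_eq_mul]
  push_cast
  linarith

theorem numa_R2_nonneg {A B T : ℝ} : 0 ≤ R2 A B T := by
  unfold R2
  refine intervalIntegral.integral_nonneg (by norm_num) fun x hx => ?_
  refine intervalIntegral.integral_nonneg (by linarith [hx.2]) fun z hz => ?_
  have h1 := hx.1
  have h2 := hx.2
  have h3 := hz.1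
  have h4 := hz.2
  refine div_nonneg (sq_nonneg _) (mul_nonneg (mul_nonneg ?_ ?_) ?_) <;> linarith

theorem numa_J2_nonneg {c e r S : ℝ} (hS : 0 ≤ S) : 0 ≤ J2 c e r S := by
  unfold J2
  refine intervalIntegral.integral_nonneg hS fun a ha => ?_
  refine intervalIntegral.integral_nonneg (by linarith [ha.2]) fun b _ => ?_
  exact numa_R2_nonneg

/-- coefficients for `P_2` at the place `i`, `P_3` at the other two places -/
noncomputable def cB (i j : Fin 3) (r : ℕ) : ℝ :=
  if r ≤ 2 then 1 else if r = 3 ∧ j ≠ i then 1 else 0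

/-- the numerical inequality for B, the quotient is `2.165` -/
theorem thm_NumB (i : Fin 3) : 2 * II FA (27 / 100) <
    ∑ j : Fin 3, ∑ n ∈ range 4, cB i j (n + 1) * QQ FA (27 / 100) (459 / 2000) j n := by
  have h := numa_main
  have e : ∀ j : Fin 3, ∑ n ∈ range 4, cB i j (n + 1) * QQ FA (27 / 100) (459 / 2000) j n =
      J0 1 (2 / 3) (27 / 100) (459 / 2000) + J1 1 (2 / 3) (27 / 100) (459 / 2000) +
      if j ≠ i then J2 1 (2 / 3) (27 / 100) (459 / 2000) else 0 := by
    intro j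
    obtain ⟨a, b, c⟩ := numa_QQ j
    simp only [sum_range_succ, range_zero, sum_empty, a, b, c]
    by_cases hj : j = i <;> simp [cB, hj]
  simp only [e, sum_add_distrib, sum_const, card_univ, Fintype.card_fin, nsmul_eq_mul]
  have h2 : ∑ j : Fin 3, (if j ≠ i then J2 1 (2 / 3) (27 / 100) (459 / 2000) else 0) =
      2 * J2 1 (2 / 3) (27 / 100) (459 / 2000) := by
    fin_cases i <;> simp [Fin.sum_univ_three] <;> ring
  rw [h2]
  have h3 := numa_J2_nonneg (c := 1) (e := 2 / 3) (r := 27 / 100) (S := 459 / 2000) (by norm_num)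
  push_cast
  linarith

end Pool.Agent.PTN
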