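import Pool.Agent.PTN.Quad

set_option autoImplicit false

/-!
# PTN: the polynomials of the certificate for C
-/

namespace Pool.Agent.PTN

/-- `ρ` -/
def rC : ℚ := 1 / 4

/-- lower bound for `log (1/ρ)` -/
def LC : ℚ := 138629 / 100000

/-- `σ` -/
def SC : ℚ := 49 / 200

/-- outer integral -/
def oC (φ : Q2 → Q2 → Q2 → Q2) : ℚ := outF (51 / 50) (7 / 10) rC SC φ

/-- lower bound for `R1` -/
def f1C (A B T : Q2) : Q2 := Ops.add (q1a 5 A B T) (q1b rC LC 10 5 A B T)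

/-- no variable below `T` -/
def gA (A B T : Q2) : Q2 :=
  Ops.mul (q0 A B T) (Ops.add (p2a rC LC 8 8 12 5 T) (p3a T))

/-- one variable below `T`, three primes -/
def gB (A B T : Q2) : Q2 := comp (p2b rC LC 8 7 4 A3 B3 T3) A B T

/-- one variable below `T`, four primes -/
def gC (A B T : Q2) : Q2 := comp (p3b LC 7 7 7 3 A3 B3 T3) A B T

/-- two variables with sum below `T` -/
def gD (A B T : Q2) : Q2 := comp (p2d rC LC 1 1 5 5 2 B3 T3) A B T

/-- two variables below `T`, coefficient of `A²` -/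
def gE (A _B T : Q2) : Q2 :=
  Ops.mul (Ops.mul A A) (atQ (qP rC LC 1 1 5 5 2 (5 / 2 / rC) (8 / 5 / rC) 5 3) T)

/-- two variables below `T`, coefficient of `AB` -/
def gF (A B T : Q2) : Q2 :=
  Ops.mul (Ops.mul A B) (Ops.sc 2 (atQ (qQ rC LC 1 1 5 5 2 (5 / 2 / rC) (8 / 5 / rC) 5 3) T))

/-- two variables below `T`, coefficient of `B²` -/
def gG (_A B T : Q2) : Q2 :=
  Ops.mul (Ops.mul B B) (atQ (qR rC LC 1 1 5 5 2 (5 / 2 / rC) (8 / 5 / rC) 5 3) T)

end Pool.Agent.PTN
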