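import Pool.Agent.PTN.Defs

set_option autoImplicit false

/-!
# PTN: the certificate for A in rational arithmetic
-/

namespace Pool.Agent.PTN

/-- `ρ` -/
def rA : ℚ := 27 / 100

/-- lower bound for `log (1/ρ)` -/
def LA : ℚ := 13093 / 10000

/-- `σ` -/
def SA : ℚ := 459 / 2000

/-- lower bound for `R1` -/
def f1A (A B T : Q2) : Q2 := Ops.add (q1a 6 A B T) (q1b rA LA 10 5 A B T)

/-- lower bound for `R2` -/
def f2A (A B T : Q2) : Q2 :=
  Ops.add (Ops.add (Ops.add (Ops.mul (q0 A B T) (p2a rA LA 8 8 12 5 T)) (p2b rA LA 8 6 5 A B T))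
    (p2c rA LA 1 0 1 1 2 (5 / 2 / rA) (8 / 5 / rA) 3 3 A B T)) (p2d rA LA 1 0 1 1 3 B T)

theorem certA : -(2 * outF 1 (2 / 3) rA rA qN) <
    3 * (outF 1 (2 / 3) rA SA q0 + outF 1 (2 / 3) rA SA f1A + 1 / 2 * outF 1 (2 / 3) rA SA f2A) := by
  decide +kernel

end Pool.Agent.PTN
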