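import Pool.Agent.PTN.CDefs

set_option autoImplicit false

/-!
# PTN: certificate for C, numerical part 0
-/

namespace Pool.Agent.PTN

theorem certC_I : -outF (51 / 50) (7 / 10) rC rC qN ≤ 383515626 / 1000000000000 := by
  decide +kernel

theorem certC_0 : (55854121 / 1000000000000 : ℚ) ≤ oC q0 := by
  decide +kernel

theorem certC_1 : (135884362 / 1000000000000 : ℚ) ≤ oC f1C := by
  decide +kernel

theorem certC_A : (36857148 / 1000000000000 : ℚ) ≤ oC gA := by
  decide +kernel


end Pool.Agent.PTN
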