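import Pool.Agent.PTN.CDefs

set_option autoImplicit false

/-!
# PTN: certificate for C, numerical part 1
-/

namespace Pool.Agent.PTN

theorem certC_B : (68477349 / 1000000000000 : ℚ) ≤ oC gB := by
  decide +kernel


end Pool.Agent.PTN
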