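import Pool.Agent.PTN.Defs

set_option autoImplicit false

/-!
# PTN: polynomials in `A`, `B`, `T` and their composition
-/

namespace Pool.Agent.PTN

/-- polynomials in `T`, `B`, `A` (`A` is the last variable) -/
abbrev Q3 : Type := List (List (List ℚ))

/-- evaluation -/
noncomputable def ev3 (A B T : ℝ) : Q3 → ℝ := evL (evL (evL (fun q : ℚ => (q : ℝ)) T) B) A

/-- the variables -/
def A3 : Q3 := XX
/-- the variables -/
def B3 : Q3 := CC XX
/-- the variables -/
def T3 : Q3 := CC (CC XX)

/-- Horner scheme with a map on the coefficients -/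
def hor {α β : Type} [Ops α] (f : β → α) (x : α) : List β → α
  | [] => Ops.zero
  | c :: p => Ops.add (f c) (Ops.mul x (hor f x p))

/-- composition -/
def comp {α : Type} [Ops α] (p : Q3) (A B T : α) : α := hor (hor (fun c => atQ c T) B) A p

theorem comp_hor {α β : Type} [Ops α] {ev : α → ℝ} (h : Hom ev) (f : β → α) (x : α)
    (p : List β) : ev (hor f x p) = evL (fun c => ev (f c)) (ev x) p := by
  induction p with
  | nil => simp [hor, evL, h.zero]
  | cons c p ih => simp [hor, evL, h.add, h.mul, ih]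

theorem comp_ev {α : Type} [Ops α] {ev : α → ℝ} (h : Hom ev) (p : Q3) (A B T : α) :
    ev (comp p A B T) = ev3 (ev A) (ev B) (ev T) p := by
  unfold comp ev3
  rw [comp_hor h]
  congr 1
  funext c
  rw [comp_hor h]
  congr 1
  funext d
  exact h.hatQ d T

theorem comp_hom (A B T : ℝ) : Hom (ev3 A B T) := ((Hom.rat.list T).list B).list A

theorem comp_A3 (A B T : ℝ) : ev3 A B T A3 = A := by
  simp [ev3, A3, XX, evL, Ops.zero, Ops.one]

theorem comp_B3 (A B T : ℝ) : ev3 A B T B3 = B := by
  simp [ev3, B3, CC, XX, evL, Ops.zero, Ops.one]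

theorem comp_T3 (A B T : ℝ) : ev3 A B T T3 = T := by
  simp [ev3, T3, CC, XX, evL, Ops.zero, Ops.one]

end Pool.Agent.PTN
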