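import Pool.Agent.PTN.Stmts

set_option autoImplicit false

namespace Pool.Agent.PTN

open MeasureTheory Pool.Agent.PT

theorem cont3_par {X : Type} [TopologicalSpace X] [FirstCountableTopology X] [LocallyCompactSpace X]
    (f : X → ℝ → ℝ) (hf : Continuous (Function.uncurry f)) {s t : X → ℝ} (hs : Continuous s)
    (ht : Continuous t) : Continuous fun x => ∫ z in s x..t x, f x z := by
  have h : (fun x => ∫ z in s x..t x, f x z) =
      fun x => (∫ z in (0 : ℝ)..t x, f x z) - ∫ z in (0 : ℝ)..s x, f x z := by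
    funext x
    have hc : Continuous (f x) := hf.comp (Continuous.prodMk_right x)
    rw [intervalIntegral.integral_interval_sub_left (hc.intervalIntegrable _ _)
      (hc.intervalIntegrable _ _)]
  rw [h]
  exact (intervalIntegral.continuous_parametric_intervalIntegral_of_continuous hf ht).sub
    (intervalIntegral.continuous_parametric_intervalIntegral_of_continuous hf hs)

/-- continuity of `gg` -/
theorem cont3_gg {X : Type} [TopologicalSpace X] {A B T x : X → ℝ} (hA : Continuous A)
    (hB : Continuous B) (hT : Continuous T) (hx : Continuous x) :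
    Continuous fun q => gg (A q) (B q) (T q) (x q) := by
  unfold gg GR
  fun_prop

/-- the integrand with a nonvanishing denominator -/
noncomputable def cont3_F (A B T x y z : ℝ) : ℝ :=
  (gg A B T x + gg A B T y + gg A B T z - gg A B T (x + y) - gg A B T (x + z)
      - gg A B T (y + z) + gg A B T (x + y + z)) ^ 2 /
    (max x (1 / 1000) * max y (1 / 1000) * max z (1 / 1000) * max (1 - x - y - z) (1 / 4))

theorem cont3_cF {X : Type} [TopologicalSpace X] {A B T x y z : X → ℝ} (hA : Continuous A)
    (hB : Continuous B) (hT : Continuous T) (hx : Continuous x) (hy : Continuous y)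
    (hz : Continuous z) : Continuous fun q => cont3_F (A q) (B q) (T q) (x q) (y q) (z q) := by
  unfold cont3_F
  have h1 := cont3_gg hA hB hT hx
  have h2 := cont3_gg hA hB hT hy
  have h3 := cont3_gg hA hB hT hz
  have h4 := cont3_gg hA hB hT (hx.add hy)
  have h5 := cont3_gg hA hB hT (hx.add hz)
  have h6 := cont3_gg hA hB hT (hy.add hz)
  have h7 := cont3_gg hA hB hT ((hx.add hy).add hz)
  refine Continuous.div (by fun_prop) (by fun_prop) ?_
  intro q
  have a1 : 0 < max (x q) (1 / 1000) := lt_max_of_lt_right (by norm_num)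
  have a2 : 0 < max (y q) (1 / 1000) := lt_max_of_lt_right (by norm_num)
  have a3 : 0 < max (z q) (1 / 1000) := lt_max_of_lt_right (by norm_num)
  have a4 : 0 < max (1 - x q - y q - z q) (1 / 4) := lt_max_of_lt_right (by norm_num)
  positivity

theorem cont3_eq (A B T : ℝ) : R3 A B T =
    ∫ x in (1 / 1000 : ℝ)..(1 / 4), ∫ y in x..((1 - x) / 3), ∫ z in y..((1 - x - y) / 2),
      cont3_F A B T x y z := by
  unfold R3
  refine intervalIntegral.integral_congr ?_
  intro x hx
  rw [Set.uIcc_of_le (by norm_num)] at hx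
  refine intervalIntegral.integral_congr ?_
  intro y hy
  rw [Set.uIcc_of_le (by linarith [hx.2])] at hy
  refine intervalIntegral.integral_congr ?_
  intro z hz
  rw [Set.uIcc_of_le (by linarith [hy.2])] at hz
  simp only [cont3_F]
  have h1 := hx.1
  have h2 := hx.2
  have h3 := hy.1
  have h4 := hy.2
  have h5 := hz.1
  have h6 := hz.2
  rw [max_eq_left h1, max_eq_left (by linarith : (1 / 1000 : ℝ) ≤ y),
    max_eq_left (by linarith : (1 / 1000 : ℝ) ≤ z),
    max_eq_left (by linarith : (1 / 4 : ℝ) ≤ 1 - x - y - z)]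

theorem thm_Cont3 : St_Cont3 := by
  unfold St_Cont3
  simp only [cont3_eq]
  refine cont3_par (fun (q : ℝ × ℝ × ℝ) x => ∫ y in x..((1 - x) / 3),
    ∫ z in y..((1 - x - y) / 2), cont3_F q.1 q.2.1 q.2.2 x y z) ?_ continuous_const
    continuous_const
  refine cont3_par (fun (p : (ℝ × ℝ × ℝ) × ℝ) y => ∫ z in y..((1 - p.2 - y) / 2),
    cont3_F p.1.1 p.1.2.1 p.1.2.2 p.2 y z) ?_ continuous_snd (by fun_prop)
  refine cont3_par (fun (p : ((ℝ × ℝ × ℝ) × ℝ) × ℝ) z =>
    cont3_F p.1.1.1 p.1.1.2.1 p.1.1.2.2 p.1.2 p.2 z) ?_ continuous_snd (by fun_prop)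
  exact cont3_cF (by fun_prop) (by fun_prop) (by fun_prop) (by fun_prop) (by fun_prop)
    (by fun_prop)

end Pool.Agent.PTN
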