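import Pool.Agent.PTN.Stmts

set_option autoImplicit false

/-!
# PTN: the integral over `DD ρ 3` as an iterated integral
-/

namespace Pool.Agent.PTN

open MeasureTheory Pool.Agent.PT

/-- the coordinates -/
noncomputable def dd3_e : (Fin 3 → ℝ) ≃ᵐ ℝ × ℝ × ℝ :=
  (MeasurableEquiv.piFinSuccAbove (fun _ : Fin 3 => ℝ) 0).trans
    (MeasurableEquiv.prodCongr (MeasurableEquiv.refl ℝ) (MeasurableEquiv.finTwoArrow (α := ℝ)))

theorem dd3_e_apply (u : Fin 3 → ℝ) : dd3_e u = (u 0, u 1, u 2) := rfl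

theorem dd3_mp : MeasurePreserving dd3_e volume volume :=
  ((MeasurePreserving.id (volume : Measure ℝ)).prod (volume_preserving_finTwoArrow ℝ)).comp
    (volume_preserving_piFinSuccAbove (fun _ : Fin 3 => ℝ) 0)

/-- the domain -/
def dd3_D : Set (ℝ × ℝ × ℝ) :=
  {q | 1 / 1000 < q.1 ∧ q.1 < q.2.1 ∧ q.2.1 < q.2.2 ∧ q.2.2 < (1 - q.1 - q.2.1) / 2}

theorem dd3_D_meas : MeasurableSet dd3_D := by
  refine MeasurableSet.inter (measurableSet_lt measurable_const measurable_fst) ?_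
  refine MeasurableSet.inter (measurableSet_lt measurable_fst measurable_snd.fst) ?_
  refine MeasurableSet.inter (measurableSet_lt measurable_snd.fst measurable_snd.snd) ?_
  exact measurableSet_lt measurable_snd.snd
    (((measurable_const.sub measurable_fst).sub measurable_snd.fst).div_const 2)

theorem dd3_DD {ρ : ℝ} (hρ : ρ ≤ 1 / 4) : DD ρ 3 = dd3_e ⁻¹' dd3_D := by
  ext u
  rw [Set.mem_preimage, dd3_e_apply]
  unfold DD dd3_D
  simp only [Set.mem_ofPred_eq, Fin.forall_fin_succ, Fin.sum_univ_three,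
    Fin.strictMono_iff_lt_succ, IsEmpty.forall_iff, and_true]
  have e1 : Fin.castSucc (0 : Fin 2) = (0 : Fin 3) := rfl
  have e2 : Fin.succ (0 : Fin 2) = (1 : Fin 3) := rfl
  have e3 : Fin.castSucc (Fin.succ (0 : Fin 1)) = (1 : Fin 3) := rfl
  have e4 : Fin.succ (Fin.succ (0 : Fin 1)) = (2 : Fin 3) := rfl
  rw [e1, e2, e3, e4]
  constructor
  · rintro ⟨⟨h0, h1, h2⟩, ⟨h3, h4⟩, ⟨h5, h6, h7⟩, h8⟩
    exact ⟨h0, h3, h4, by linarith⟩
  · rintro ⟨h0, h1, h2, h3⟩
    refine ⟨⟨h0, by linarith, by linarith⟩, ⟨h1, h2⟩, ⟨by linarith, by linarith, by linarith⟩,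
      by linarith⟩

/-- the integrand -/
noncomputable def dd3_f (k : ℝ → ℝ → ℝ → ℝ) (q : ℝ × ℝ × ℝ) : ℝ :=
  k q.1 q.2.1 q.2.2 / (q.1 * q.2.1 * q.2.2 * (1 - q.1 - q.2.1 - q.2.2))

/-- the continuous integrand -/
noncomputable def dd3_g (k : ℝ → ℝ → ℝ → ℝ) (q : ℝ × ℝ × ℝ) : ℝ :=
  k q.1 q.2.1 q.2.2 / (max q.1 (1 / 1000) * max q.2.1 (1 / 1000) * max q.2.2 (1 / 1000) *
    max (1 - q.1 - q.2.1 - q.2.2) (1 / 4))

theorem dd3_fg (k : ℝ → ℝ → ℝ → ℝ) {q : ℝ × ℝ × ℝ} (hq : q ∈ dd3_D) : dd3_f k q = dd3_g k q := by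
  obtain ⟨h0, h1, h2, h3⟩ := hq
  unfold dd3_f dd3_g
  rw [max_eq_left h0.le, max_eq_left (by linarith), max_eq_left (by linarith),
    max_eq_left (by linarith)]

theorem dd3_g_cont {k : ℝ → ℝ → ℝ → ℝ}
    (hk : Continuous (fun q : ℝ × ℝ × ℝ => k q.1 q.2.1 q.2.2)) : Continuous (dd3_g k) := by
  unfold dd3_g
  refine hk.div (by fun_prop) fun q => ?_
  have h1 : 0 < max q.1 (1 / 1000) := lt_max_of_lt_right (by norm_num)
  have h2 : 0 < max q.2.1 (1 / 1000) := lt_max_of_lt_right (by norm_num)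
  have h3 : 0 < max q.2.2 (1 / 1000) := lt_max_of_lt_right (by norm_num)
  have h4 : 0 < max (1 - q.1 - q.2.1 - q.2.2) (1 / 4) := lt_max_of_lt_right (by norm_num)
  positivity

theorem dd3_int {k : ℝ → ℝ → ℝ → ℝ}
    (hk : Continuous (fun q : ℝ × ℝ × ℝ => k q.1 q.2.1 q.2.2)) :
    Integrable (dd3_D.indicator (dd3_f k)) volume := by
  have h0 : dd3_D.indicator (dd3_f k) = dd3_D.indicator (dd3_g k) := by
    refine Set.indicator_congr fun q hq => dd3_fg k hq
  rw [h0, integrable_indicator_iff dd3_D_meas]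
  have h1 : dd3_D ⊆ Set.Icc ((0 : ℝ), (0 : ℝ), (0 : ℝ)) (1, 1, 1) := by
    rintro ⟨x, y, z⟩ ⟨h0, h1, h2, h3⟩
    simp only at h0 h1 h2 h3
    simp only [Set.mem_Icc, Prod.mk_le_mk]
    refine ⟨⟨by linarith, by linarith, by linarith⟩, by linarith, by linarith, by linarith⟩
  exact ((dd3_g_cont hk).continuousOn.integrableOn_compact isCompact_Icc).mono_set h1

theorem dd3_int2 {k : ℝ → ℝ → ℝ → ℝ}
    (hk : Continuous (fun q : ℝ × ℝ × ℝ => k q.1 q.2.1 q.2.2)) (x : ℝ) :
    Integrable (fun p : ℝ × ℝ => dd3_D.indicator (dd3_f k) (x, p)) volume := by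
  have hm : MeasurableSet {p : ℝ × ℝ | (x, p) ∈ dd3_D} := measurable_prodMk_left dd3_D_meas
  have h0 : (fun p : ℝ × ℝ => dd3_D.indicator (dd3_f k) (x, p)) =
      {p : ℝ × ℝ | (x, p) ∈ dd3_D}.indicator (fun p => dd3_g k (x, p)) := by
    funext p
    by_cases hp : (x, p) ∈ dd3_D
    · rw [Set.indicator_of_mem hp, Set.indicator_of_mem (s := {p : ℝ × ℝ | (x, p) ∈ dd3_D}) hp,
        dd3_fg k hp]
    · rw [Set.indicator_of_notMem hp,
        Set.indicator_of_notMem (s := {p : ℝ × ℝ | (x, p) ∈ dd3_D}) hp]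
  rw [h0, integrable_indicator_iff hm]
  have h1 : {p : ℝ × ℝ | (x, p) ∈ dd3_D} ⊆ Set.Icc ((0 : ℝ), (0 : ℝ)) (1, 1) := by
    rintro ⟨y, z⟩ ⟨h0, h1, h2, h3⟩
    simp only at h0 h1 h2 h3
    simp only [Set.mem_Icc, Prod.mk_le_mk]
    refine ⟨⟨by linarith, by linarith⟩, by linarith, by linarith⟩
  have h2 : Continuous (fun p : ℝ × ℝ => dd3_g k (x, p)) :=
    (dd3_g_cont hk).comp (Continuous.prodMk_right x)
  exact (h2.continuousOn.integrableOn_compact isCompact_Icc).mono_set h1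

/-- interval integrals as integrals of indicators -/
theorem dd3_ii {a b : ℝ} (h : a ≤ b) (f : ℝ → ℝ) :
    ∫ x in a..b, f x = ∫ x, (Set.Ioo a b).indicator f x := by
  rw [intervalIntegral.integral_of_le h, integral_Ioc_eq_integral_Ioo,
    integral_indicator measurableSet_Ioo]

theorem thm_DD3 : St_DD3 := by
  intro ρ k hρ hk
  have hm : MeasurableSet (DD ρ 3) := by
    rw [dd3_DD hρ]
    exact dd3_e.measurable dd3_D_meas
  have h1 : ∫ u in DD ρ 3, k (u 0) (u 1) (u 2) * dens u =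
      ∫ u, dd3_D.indicator (dd3_f k) (dd3_e u) := by
    rw [← integral_indicator hm]
    refine integral_congr_ae (Filter.Eventually.of_forall fun u => ?_)
    have hiff : u ∈ DD ρ 3 ↔ dd3_e u ∈ dd3_D := by rw [dd3_DD hρ]; exact Iff.rfl
    by_cases hu : u ∈ DD ρ 3
    · simp only
      rw [Set.indicator_of_mem hu, Set.indicator_of_mem (hiff.1 hu), dd3_e_apply]
      unfold dd3_f dens
      rw [Fin.prod_univ_three, Fin.sum_univ_three, mul_one_div]
      simp only
      congr 2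
      ring
    · simp only
      rw [Set.indicator_of_notMem hu, Set.indicator_of_notMem fun h => hu (hiff.2 h)]
  rw [h1, dd3_mp.integral_comp dd3_e.measurableEmbedding]
  have h2 : ∫ q, dd3_D.indicator (dd3_f k) q =
      ∫ x, ∫ y, ∫ z, dd3_D.indicator (dd3_f k) (x, y, z) := by
    rw [Measure.volume_eq_prod, integral_prod _ (dd3_int hk)]
    refine integral_congr_ae (Filter.Eventually.of_forall fun x => ?_)
    exact integral_prod _ (dd3_int2 hk x)
  rw [h2, dd3_ii (by norm_num)]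
  refine integral_congr_ae (Filter.Eventually.of_forall fun x => ?_)
  simp only
  by_cases hx : x ∈ Set.Ioo (1 / 1000 : ℝ) (1 / 4)
  · rw [Set.indicator_of_mem hx, dd3_ii (by linarith [hx.2])]
    refine integral_congr_ae (Filter.Eventually.of_forall fun y => ?_)
    simp only
    by_cases hy : y ∈ Set.Ioo x ((1 - x) / 3)
    · rw [Set.indicator_of_mem hy, dd3_ii (by linarith [hy.2])]
      refine integral_congr_ae (Filter.Eventually.of_forall fun z => ?_)
      simp only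
      by_cases hz : z ∈ Set.Ioo y ((1 - x - y) / 2)
      · rw [Set.indicator_of_mem hz, Set.indicator_of_mem]
        · rfl
        · exact ⟨hx.1, hy.1, hz.1, hz.2⟩
      · rw [Set.indicator_of_notMem hz, Set.indicator_of_notMem]
        rintro ⟨_, _, h3, h4⟩
        exact hz ⟨h3, h4⟩
    · rw [Set.indicator_of_notMem hy]
      have h3 : ∀ z, dd3_D.indicator (dd3_f k) (x, y, z) = 0 := by
        intro z
        refine Set.indicator_of_notMem ?_ _
        rintro ⟨_, h4, h5, h6⟩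
        simp only at h4 h5 h6
        exact hy ⟨h4, by linarith⟩
      simp only [h3, integral_zero]
  · rw [Set.indicator_of_notMem hx]
    have h3 : ∀ y z, dd3_D.indicator (dd3_f k) (x, y, z) = 0 := by
      intro y z
      refine Set.indicator_of_notMem ?_ _
      rintro ⟨h4, h5, h6, h7⟩
      simp only at h4 h5 h6 h7
      exact hx ⟨h4, by linarith⟩
    simp only [h3, integral_zero]

end Pool.Agent.PTN
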