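import Mathlib

set_option autoImplicit false

/-!
# A small reflective polynomial calculator

`List α` is a polynomial in one more variable with coefficients in `α`.  `Ops` are the ring
operations, `Hom ev` says that `ev : α → ℝ` is a ring homomorphism, `evL ev x` evaluates a list at
`x`.  `intg p lo hi` is the integral of `p` in the last variable.
-/

namespace Pool.Agent.PTN

/-- ring operations -/
class Ops (α : Type) where
  zero : α
  one : α
  add : α → α → α
  mul : α → α → α
  sc : ℚ → α → α

instance : Ops ℚ where
  zero := 0
  one := 1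
  add := fun a b => a + b
  mul := fun a b => a * b
  sc := fun a b => a * b

/-- addition of lists -/
def addL {α : Type} [Ops α] : List α → List α → List α
  | [], q => q
  | p, [] => p
  | a :: p, b :: q => Ops.add a b :: addL p q

/-- multiplication of a list by a coefficient -/
def cmul {α : Type} [Ops α] (a : α) : List α → List α
  | [] => []
  | b :: q => Ops.mul a b :: cmul a q

/-- multiplication of lists -/
def mulL {α : Type} [Ops α] : List α → List α → List α
  | [], _ => []
  | a :: p, q => addL (cmul a q) (Ops.zero :: mulL p q)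

/-- multiplication of a list by a scalar -/
def scL {α : Type} [Ops α] (c : ℚ) : List α → List α
  | [] => []
  | b :: q => Ops.sc c b :: scL c q

instance {α : Type} [Ops α] : Ops (List α) where
  zero := []
  one := [Ops.one]
  add := addL
  mul := mulL
  sc := scL

/-- `ev` is a homomorphism -/
structure Hom {α : Type} [Ops α] (ev : α → ℝ) : Prop where
  zero : ev Ops.zero = 0
  one : ev Ops.one = 1
  add : ∀ a b, ev (Ops.add a b) = ev a + ev b
  mul : ∀ a b, ev (Ops.mul a b) = ev a * ev b
  sc : ∀ c a, ev (Ops.sc c a) = c * ev a

theorem Hom.rat : Hom (fun q : ℚ => (q : ℝ)) where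
  zero := by simp [Ops.zero]
  one := by simp [Ops.one]
  add := by intro a b; simp [Ops.add]
  mul := by intro a b; simp [Ops.mul]
  sc := by intro a b; simp [Ops.sc]

/-- evaluation of a list -/
def evL {α : Type} (ev : α → ℝ) (x : ℝ) : List α → ℝ
  | [] => 0
  | a :: p => ev a + x * evL ev x p

section
variable {α : Type} [Ops α] {ev : α → ℝ}

theorem evL_add (h : Hom ev) (x : ℝ) (p q : List α) :
    evL ev x (addL p q) = evL ev x p + evL ev x q := by
  induction p generalizing q with
  | nil => cases q <;> simp [addL, evL]
  | cons a p ih =>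
    cases q with
    | nil => simp [addL, evL]
    | cons b q => simp [addL, evL, h.add, ih]; ring

theorem evL_cmul (h : Hom ev) (x : ℝ) (a : α) (q : List α) :
    evL ev x (cmul a q) = ev a * evL ev x q := by
  induction q with
  | nil => simp [cmul, evL]
  | cons b q ih => simp [cmul, evL, h.mul, ih]; ring

theorem evL_sc (h : Hom ev) (x : ℝ) (c : ℚ) (q : List α) :
    evL ev x (scL c q) = c * evL ev x q := by
  induction q with
  | nil => simp [scL, evL]
  | cons b q ih => simp [scL, evL, h.sc, ih]; ring

theorem evL_mul (h : Hom ev) (x : ℝ) (p q : List α) :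
    evL ev x (mulL p q) = evL ev x p * evL ev x q := by
  induction p with
  | nil => simp [mulL, evL]
  | cons a p ih => simp [mulL, evL_add h, evL_cmul h, evL, h.zero, ih]; ring

theorem Hom.list (h : Hom ev) (x : ℝ) : Hom (evL ev x) where
  zero := rfl
  one := by simp [Ops.one, evL]; exact h.one
  add := evL_add h x
  mul := evL_mul h x
  sc := evL_sc h x

end

/-- antiderivative, coefficients from the degree `k` on -/
def antiAux {α : Type} [Ops α] : ℕ → List α → List α
  | _, [] => []
  | k, a :: p => Ops.sc (1 / ((k : ℚ) + 1)) a :: antiAux (k + 1) p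

/-- Horner evaluation inside `α` -/
def horner {α : Type} [Ops α] (x : α) : List α → α
  | [] => Ops.zero
  | a :: p => Ops.add a (Ops.mul x (horner x p))

/-- the integral in the last variable -/
def intg {α : Type} [Ops α] (p : List α) (lo hi : α) : α :=
  let q := antiAux 0 p
  Ops.add (Ops.mul hi (horner hi q)) (Ops.sc (-1) (Ops.mul lo (horner lo q)))

section
variable {α : Type} [Ops α] {ev : α → ℝ}

theorem ev_horner (h : Hom ev) (x : α) (p : List α) : ev (horner x p) = evL ev (ev x) p := by
  induction p with
  | nil => simp [horner, evL, h.zero]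
  | cons a p ih => simp [horner, evL, h.add, h.mul, ih]

theorem hasDerivAt_anti (h : Hom ev) (p : List α) (k : ℕ) (x : ℝ) :
    HasDerivAt (fun x => x ^ (k + 1) * evL ev x (antiAux k p)) (x ^ k * evL ev x p) x := by
  induction p generalizing k with
  | nil => simpa [antiAux, evL] using hasDerivAt_const x (0 : ℝ)
  | cons a p ih =>
    have h1 : HasDerivAt (fun x : ℝ => (ev a / ((k : ℝ) + 1)) * x ^ (k + 1))
        ((ev a / ((k : ℝ) + 1)) * (((k + 1 : ℕ) : ℝ) * x ^ k)) x := by
      simpa using (hasDerivAt_pow (k + 1) x).const_mul (ev a / ((k : ℝ) + 1))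
    have h2 := h1.add (ih (k + 1))
    have hk : ((k : ℝ) + 1) ≠ 0 := by positivity
    refine (h2.congr_deriv ?_).congr_of_eventuallyEq ?_
    · simp only [evL]
      push_cast
      field_simp
      ring
    · refine Filter.Eventually.of_forall fun y => ?_
      simp only [antiAux, evL, h.sc, Pi.add_apply]
      push_cast
      field_simp
      ring

theorem integral_evL (h : Hom ev) (p : List α) (lo hi : α) :
    ∫ x in (ev lo)..(ev hi), evL ev x p = ev (intg p lo hi) := by
  have h1 : ∀ x ∈ Set.uIcc (ev lo) (ev hi),
      HasDerivAt (fun x => x ^ (0 + 1) * evL ev x (antiAux 0 p)) (x ^ 0 * evL ev x p) x :=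
    fun x _ => hasDerivAt_anti h p 0 x
  have hc : Continuous (fun x => evL ev x p) := by
    induction p with
    | nil => simpa [evL] using continuous_const
    | cons a p ih =>
      simp only [evL]
      exact continuous_const.add (continuous_id.mul (ih (fun x _ => hasDerivAt_anti h p 0 x)))
  have h2 := intervalIntegral.integral_eq_sub_of_hasDerivAt h1
    (by simpa using hc.intervalIntegrable _ _)
  simp only [pow_zero, one_mul] at h2
  rw [h2]
  simp only [intg, h.add, h.mul, h.sc, ev_horner h]
  push_cast
  ring

end

/-! ### Building blocks -/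

section
variable {α : Type} [Ops α]

/-- a constant -/
def kk (q : ℚ) : α := Ops.sc q Ops.one

/-- subtraction -/
def sub (a b : α) : α := Ops.add a (Ops.sc (-1) b)

/-- the value of a polynomial with rational coefficients at an element of `α` -/
def atQ (p : List ℚ) (x : α) : α :=
  match p with
  | [] => Ops.zero
  | c :: p => Ops.add (kk c) (Ops.mul x (atQ p x))

/-- the last variable -/
def XX : List α := [Ops.zero, Ops.one]

/-- a coefficient as a polynomial -/
def CC (a : α) : List α := [a]

variable {ev : α → ℝ}

theorem Hom.hkk (h : Hom ev) (q : ℚ) : ev (kk q) = q := by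
  simp [kk, h.sc, h.one]

theorem Hom.hsub (h : Hom ev) (a b : α) : ev (sub a b) = ev a - ev b := by
  simp [sub, h.add, h.sc]; ring

theorem Hom.hatQ (h : Hom ev) (p : List ℚ) (x : α) :
    ev (atQ p x) = evL (fun q : ℚ => (q : ℝ)) (ev x) p := by
  induction p with
  | nil => simp [atQ, evL, h.zero]
  | cons c p ih => simp [atQ, evL, h.add, h.mul, h.hkk, ih]

omit [Ops α] in
theorem evL_nil (x : ℝ) : evL ev x ([] : List α) = 0 := rfl

omit [Ops α] in
theorem evL_cons (x : ℝ) (a : α) (p : List α) : evL ev x (a :: p) = ev a + x * evL ev x p := rfl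

theorem Hom.hXX (h : Hom ev) (x : ℝ) : evL ev x (XX : List α) = x := by
  simp [XX, evL, h.zero, h.one]

omit [Ops α] in
theorem evL_CC (x : ℝ) (a : α) : evL ev x (CC a) = ev a := by
  simp [CC, evL]

/-- rational coefficients -/
theorem Hom.mapk (h : Hom ev) (x : ℝ) (p : List ℚ) :
    evL ev x (p.map kk) = evL (fun q : ℚ => (q : ℝ)) x p := by
  induction p with
  | nil => rfl
  | cons c p ih => simp only [List.map_cons, evL, h.hkk, ih]

/-- rational coefficients, two variables -/
theorem Hom.mapkk (h : Hom ev) (x y : ℝ) (p : List (List ℚ)) :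
    evL (evL ev x) y (p.map fun q => q.map kk) =
      evL (evL (fun q : ℚ => (q : ℝ)) x) y p := by
  induction p with
  | nil => rfl
  | cons c p ih => simp only [List.map_cons, evL, h.mapk, ih]

end

/-- continuity of the evaluation -/
theorem continuous_evL {α : Type} (ev : α → ℝ) (p : List α) : Continuous fun x => evL ev x p := by
  induction p with
  | nil => simpa [evL] using continuous_const
  | cons a p ih =>
    simp only [evL]
    exact continuous_const.add (continuous_id.mul ih)

end Pool.Agent.PTN
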