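import Pool.Agent.PT.Defs
import Pool.Agent.PTN.Eng

set_option autoImplicit false

/-!
# PTN: the numerical block of PT (almost prime triplets), definitions

Profile `FP c e ρ = 1 - c e₁/ρ + e e₂/ρ²` on the region.  For two sizes `a, b` of the other forms put
`A = Aab`, `B = Bab`, `T = ρ - max a b`; the weight in the remaining variable is `A + B t` for
`0 ≤ t ≤ T`, its integral is `GR A B x`.  `R0 .. R3` are the inner integrals of `QQ`.
-/

namespace Pool.Agent.PTN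

open Pool.Agent.PT

/-! ### Real side -/

open Classical in
/-- the profile -/
noncomputable def FP (c e ρ : ℝ) (a : Fin 3 → ℝ) : ℝ :=
  if Reg ρ a then
    1 - c * (a 0 + a 1 + a 2) / ρ + e * (a 0 * a 1 + a 0 * a 2 + a 1 * a 2) / ρ ^ 2 else 0

/-- constant coefficient of the profile in the third variable -/
noncomputable def Aab (c e ρ a b : ℝ) : ℝ := 1 - c * (a + b) / ρ + e * (a * b) / ρ ^ 2

/-- linear coefficient of the profile in the third variable -/
noncomputable def Bab (c e ρ a b : ℝ) : ℝ := -c / ρ + e * (a + b) / ρ ^ 2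

/-- antiderivative of `A + B x` -/
noncomputable def GR (A B x : ℝ) : ℝ := A * x + B * x ^ 2 / 2

/-- antiderivative of the profile -/
noncomputable def gg (A B T x : ℝ) : ℝ := GR A B (min x T)

/-- inner integral, primes -/
noncomputable def R0 (A B T : ℝ) : ℝ := GR A B T ^ 2

/-- inner integral, two primes -/
noncomputable def R1 (A B T : ℝ) : ℝ :=
  ∫ x in (1 / 1000 : ℝ)..(1 / 2), gg A B T x ^ 2 / (x * (1 - x))

/-- inner integral, three primes -/
noncomputable def R2 (A B T : ℝ) : ℝ :=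
  ∫ x in (1 / 1000 : ℝ)..(1 / 3), ∫ z in x..((1 - x) / 2),
    (gg A B T x + gg A B T z - gg A B T (x + z)) ^ 2 / (x * z * (1 - x - z))

/-- inner integral, four primes -/
noncomputable def R3 (A B T : ℝ) : ℝ :=
  ∫ x in (1 / 1000 : ℝ)..(1 / 4), ∫ y in x..((1 - x) / 3), ∫ z in y..((1 - x - y) / 2),
    (gg A B T x + gg A B T y + gg A B T z - gg A B T (x + y) - gg A B T (x + z)
      - gg A B T (y + z) + gg A B T (x + y + z)) ^ 2 / (x * y * z * (1 - x - y - z))

/-! Pieces of `R2`, `R3`, by the number of variables below `T`. -/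

/-- mass of three primes `≥ T` -/
noncomputable def P2a (T : ℝ) : ℝ :=
  ∫ v in T..(1 / 3), Real.log ((1 - 2 * v) / v) / (v * (1 - v))

/-- one small prime among three -/
noncomputable def P2b (A B T : ℝ) : ℝ :=
  ∫ x in (1 / 1000 : ℝ)..T, GR A B x ^ 2 / (x * (1 - x)) * Real.log ((1 - x - T) / T)

/-- two small primes among three, `x + z ≥ T` -/
noncomputable def P2c (A B T : ℝ) : ℝ :=
  (∫ x in (1 / 1000 : ℝ)..(T / 2), ∫ z in (T - x)..T,
    (GR A B x + GR A B z - GR A B T) ^ 2 / (x * z * (1 - x - z))) +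
  ∫ x in (T / 2)..T, ∫ z in x..T,
    (GR A B x + GR A B z - GR A B T) ^ 2 / (x * z * (1 - x - z))

/-- two small primes among three, `x + z ≤ T` -/
noncomputable def P2d (B T : ℝ) : ℝ :=
  ∫ x in (1 / 1000 : ℝ)..(T / 2), ∫ z in x..(T - x),
    (B * x * z) ^ 2 / (x * z * (1 - x - z))

/-- one small prime among four -/
noncomputable def P3b (A B T : ℝ) : ℝ :=
  ∫ x in (1 / 1000 : ℝ)..T, GR A B x ^ 2 / x *
    ∫ y in T..((1 - x) / 3), Real.log ((1 - x - 2 * y) / y) / (y * (1 - x - y))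

/-- two small primes among four, `x + z ≥ T` -/
noncomputable def P3c (A B T : ℝ) : ℝ :=
  (∫ x in (1 / 1000 : ℝ)..(T / 2), ∫ z in (T - x)..T,
    (GR A B x + GR A B z - GR A B T) ^ 2 / (x * z * (1 - x - z)) *
      Real.log ((1 - x - z - T) / T)) +
  ∫ x in (T / 2)..T, ∫ z in x..T,
    (GR A B x + GR A B z - GR A B T) ^ 2 / (x * z * (1 - x - z)) *
      Real.log ((1 - x - z - T) / T)

/-- two small primes among four, `x + z ≤ T` -/
noncomputable def P3d (B T : ℝ) : ℝ :=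
  ∫ x in (1 / 1000 : ℝ)..(T / 2), ∫ z in x..(T - x),
    (B * x * z) ^ 2 / (x * z * (1 - x - z)) * Real.log ((1 - x - z - T) / T)

/-! ### Series -/

/-- `∑_{k=1}^n s^k/k`, a lower bound for `-log (1-s)` -/
def lgS (n : ℕ) : List ℚ := (List.range (n + 1)).map fun k => if k = 0 then 0 else 1 / (k : ℚ)

/-- `-∑_{k<m} p^k/k - p^m/(m(1-μ))`, a lower bound for `log (1-p)` if `0 ≤ p ≤ μ` -/
def lg1 (m : ℕ) (μ : ℚ) : List ℚ :=
  ((List.range m).map fun k => if k = 0 then 0 else -1 / (k : ℚ)) ++ [-1 / ((m : ℚ) * (1 - μ))]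

/-- `∑_{k=0}^n q^k`, a lower bound for `1/(1-q)` -/
def ge (n : ℕ) : List ℚ := (List.range (n + 1)).map fun _ => 1

/-- evaluation of a rational polynomial at a real number -/
noncomputable def evQ (x : ℝ) (p : List ℚ) : ℝ := evL (fun q : ℚ => (q : ℝ)) x p

/-! ### Polynomial side -/

section
variable {α : Type} [Ops α]

/-- `GR` -/
def GP (A B x : α) : α := Ops.add (Ops.mul A x) (Ops.sc (1 / 2) (Ops.mul B (Ops.mul x x)))

/-- lower bound (exact) for `R0` -/
def q0 (A B T : α) : α := Ops.mul (GP A B T) (GP A B T)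

/-- `GR A B x ^ 2 / x = x (A + B x/2)²` -/
def xG2 (A B : α) : List α :=
  [Ops.zero, Ops.mul A A, Ops.mul A B, Ops.sc (1 / 4) (Ops.mul B B)]

/-- lower bound for `log (1/T)` if `0 < T ≤ r` and `L ≤ log (1/r)` -/
def LT (r L : ℚ) (n : ℕ) (T : α) : α :=
  Ops.add (kk L) (atQ (lgS n) (sub Ops.one (Ops.sc (1 / r) T)))

/-- lower bound for `∫_{1/1000}^T GR² / (x(1-x))` -/
def q1a (K : ℕ) (A B T : α) : α := intg (Ops.mul (xG2 A B) ((ge K).map kk)) (kk (1 / 1000)) T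

/-- lower bound for `GR(T)² log((1-T)/T)` -/
def q1b (r L : ℚ) (n m : ℕ) (A B T : α) : α :=
  Ops.mul (q0 A B T) (Ops.add (LT r L n T) (atQ (lg1 m r) T))

/-- lower bound for `log((1-2v)/v)/(v(1-v))`, `v ≤ r` -/
def w2a (r L : ℚ) (n m k l : ℕ) : List ℚ :=
  Ops.mul (Ops.mul (Ops.add (LT r L n (XX : List ℚ)) (atQ (lg1 m (2 * r)) (Ops.sc 2 (XX : List ℚ))))
    (Ops.sc (1 / r) (atQ (ge k) (sub Ops.one (Ops.sc (1 / r) (XX : List ℚ))))))
    (atQ (ge l) (XX : List ℚ))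

/-- lower bound for `P2a` -/
def p2a (r L : ℚ) (n m k l : ℕ) (T : α) : α :=
  Ops.add (kk (9 / 4 * (1 - 3 * r) ^ 2)) (intg ((w2a r L n m k l).map kk) T (kk r))

/-- lower bound for `P2b` -/
def p2b (r L : ℚ) (n m K : ℕ) (A B T : α) : α :=
  intg (Ops.mul (Ops.mul (xG2 A B) ((ge K).map kk))
    (Ops.add (CC (LT r L n T)) (atQ (lg1 m (2 * r)) (Ops.add (XX : List α) (CC T)))))
    (kk (1 / 1000)) T

/-- the outer variable `x` -/
def xx : List (List α) := [XX]

/-- the inner variable `z` -/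
def zz : List (List α) := XX

/-- lower bound for `w₀ + w₁ log((1-x-z-T)/T)` -/
def lw (r L w₀ w₁ : ℚ) (n m : ℕ) (T : α) : List (List α) :=
  if w₁ = 0 then kk w₀ else
    Ops.add (kk w₀) (Ops.sc w₁ (Ops.add (CC (CC (LT r L n T)))
      (atQ (lg1 m (3 * r)) (Ops.add (Ops.add xx zz) (CC (CC T))))))

/-- lower bound for `w₀ P2d + w₁ P3d` -/
def p2d (r L w₀ w₁ : ℚ) (n m K : ℕ) (B T : α) : α :=
  intg (intg (Ops.mul (Ops.mul (Ops.mul (Ops.mul xx zz) (CC (CC (Ops.mul B B))))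
    (atQ (ge K) (Ops.add xx zz))) (lw r L w₀ w₁ n m T))
    XX (sub (CC T) XX)) (kk (1 / 1000)) (Ops.sc (1 / 2) T)

/-- lower bound for `1/y`, with a parameter `c` and odd `k` -/
def iv {β : Type} [Ops β] (c : ℚ) (k : ℕ) (y : β) : β :=
  Ops.sc c (atQ (ge k) (sub Ops.one (Ops.sc c y)))

/-- the integrand of `p2c` -/
def e2c (r L w₀ w₁ : ℚ) (n m K : ℕ) (cx cz : ℚ) (kx kz : ℕ) (A B T : α) : List (List α) :=
  let E : List (List α) := sub (Ops.add (GP (CC (CC A)) (CC (CC B)) xx)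
    (GP (CC (CC A)) (CC (CC B)) zz)) (GP (CC (CC A)) (CC (CC B)) (CC (CC T)))
  Ops.mul (Ops.mul (Ops.mul (Ops.mul (Ops.mul E E) (lw r L w₀ w₁ n m T)) (iv cx kx xx))
    (iv cz kz zz)) (atQ (ge K) (Ops.add xx zz))

/-- lower bound for `w₀ P2c + w₁ P3c` -/
def p2c (r L w₀ w₁ : ℚ) (n m K : ℕ) (cx cz : ℚ) (kx kz : ℕ) (A B T : α) : α :=
  let p := e2c r L w₀ w₁ n m K cx cz kx kz A B T
  Ops.add (intg (intg p (sub (CC T) XX) (CC T)) (kk (1 / 1000)) (Ops.sc (1 / 2) T))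
    (intg (intg p XX (CC T)) (Ops.sc (1 / 2) T) T)

/-- lower bound for the none-below part of `R3` (without the factor `GR(T)²`) -/
def p3a (T : α) : α :=
  let u : α := sub Ops.one (Ops.sc 4 T)
  Ops.sc (16 / 9) (Ops.mul u (Ops.mul u u))

/-- lower bound for `log((1-x-2y)/y)/(y(1-x-y))`, outer variable `x`, inner variable `y` -/
def w3b (L : ℚ) (n m k l : ℕ) : List (List ℚ) :=
  Ops.mul (Ops.mul (Ops.add (LT (1 / 4) L n (zz : List (List ℚ)))
    (atQ (lg1 m (3 / 4)) (Ops.add (xx : List (List ℚ)) (Ops.sc 2 zz))))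
    (Ops.sc 4 (atQ (ge k) (sub Ops.one (Ops.sc 4 (zz : List (List ℚ)))))))
    (atQ (ge l) (Ops.add (xx : List (List ℚ)) zz))

/-- lower bound for the inner integral of `P3b` -/
def n3 (L : ℚ) (n m k l : ℕ) (T : α) : List α :=
  let q : List α := sub (kk (1 / 4)) XX
  Ops.add (intg ((w3b L n m k l).map fun q => q.map kk) (CC T) (CC (kk (1 / 4))))
    (Ops.sc (9 / 4) (Ops.mul (Ops.mul q q) (Ops.add Ops.one (Ops.sc 3 XX))))

/-- lower bound for `P3b` -/
def p3b (L : ℚ) (n m k l : ℕ) (A B T : α) : α :=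
  intg (Ops.mul (xG2 A B) (n3 L n m k l T)) (kk (1 / 1000)) T

end

/-! ### Outer integration -/

/-- polynomials in `a` (outer) and `b` (inner) -/
abbrev Q2 : Type := List (List ℚ)

/-- evaluation -/
noncomputable def ev2 (a b : ℝ) : Q2 → ℝ := evL (evL (fun q : ℚ => (q : ℝ)) a) b

/-- `a` -/
def av : Q2 := [[0, 1]]

/-- `b` -/
def bv : Q2 := [[], [1]]

/-- `Aab` -/
def AP (c e r : ℚ) : Q2 :=
  Ops.add (sub Ops.one (Ops.sc (c / r) (Ops.add av bv))) (Ops.sc (e / r ^ 2) (Ops.mul av bv))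

/-- `Bab` -/
def BP (c e r : ℚ) : Q2 := Ops.add (kk (-c / r)) (Ops.sc (e / r ^ 2) (Ops.add av bv))

/-- integral over the triangle `a, b ≥ 0`, `a + b ≤ S` of `P₁` for `b ≤ a`, `P₂` for `a ≤ b` -/
def outV (S : ℚ) (P₁ P₂ : Q2) : ℚ :=
  intg (Ops.add (intg P₁ Ops.zero [0, 1]) (intg P₂ [0, 1] [S, -1]) : List ℚ) 0 (S / 2) +
    intg (intg P₁ Ops.zero [S, -1] : List ℚ) (S / 2) S

/-- the same for a polynomial in `A`, `B`, `T` -/
def outF (c e r S : ℚ) (φ : Q2 → Q2 → Q2 → Q2) : ℚ :=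
  outV S (φ (AP c e r) (BP c e r) (sub (kk r) av)) (φ (AP c e r) (BP c e r) (sub (kk r) bv))

/-- the integrand of `II` after integration over the third variable -/
def qI (A B T : Q2) : Q2 := intg (Ops.mul [A, B] [A, B] : List Q2) Ops.zero T

/-- minus the integrand of `II` -/
def qN (A B T : Q2) : Q2 := Ops.sc (-1) (qI A B T)

end Pool.Agent.PTN
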