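import Pool.Agent.PTN.FinG
import Pool.Agent.PTN.CertA
import Pool.Agent.PT.Stmts

set_option autoImplicit false

/-!
# PTN: the numerical inequality for A (and B)
-/

namespace Pool.Agent.PTN

open MeasureTheory Pool.Agent.PT

theorem fina_log : ((LA : ℚ) : ℝ) ≤ Real.log (1 / ((rA : ℚ) : ℝ)) := by
  have h1 : (1 / ((rA : ℚ) : ℝ)) = 2 * 2 / (1 - (-2 / 25 : ℝ)) := by
    rw [rA]; push_cast; norm_num
  rw [h1, Real.log_div (by norm_num) (by norm_num), Real.log_mul (by norm_num) (by norm_num)]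
  have h2 := Real.log_two_gt_d9
  have h3 := Real.abs_log_sub_add_sum_range_le (x := (-2 / 25 : ℝ)) (by norm_num [abs_lt]) 4
  have h4 := (abs_le.1 h3).2
  have h5 : |(-2 / 25 : ℝ)| = 2 / 25 := by norm_num [abs_of_neg]
  rw [h5] at h4
  norm_num [Finset.sum_range_succ] at h4
  rw [LA]
  push_cast
  norm_num
  linarith

theorem fina_R1 (hL1 : St_Low1) (ev : Q2 → ℝ) (h : Hom ev) (A B T : Q2)
    (h1 : (rA : ℝ) - SA ≤ ev T) (h2 : ev T ≤ rA) : ev (f1A A B T) ≤ R1 (ev A) (ev B) (ev T) := by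
  rw [f1A, h.add]
  refine hL1 Q2 _ ev h rA LA 10 5 6 A B T (by norm_num [rA]) (by norm_num [rA])
    fina_log (by norm_num) (le_trans ?_ h1) h2
  norm_num [rA, SA]

theorem fina_R2 (hS2 : St_Spl2) (h2a : St_Low2a) (h2b : St_Low2b) (h2c : St_Low2c)
    (h2d : St_Low2d) (ev : Q2 → ℝ) (h : Hom ev) (A B T : Q2)
    (h1 : (rA : ℝ) - SA ≤ ev T) (h2 : ev T ≤ rA) : ev (f2A A B T) ≤ R2 (ev A) (ev B) (ev T) := by
  have hT : (1 / 500 : ℝ) ≤ ev T := le_trans (by norm_num [rA, SA]) h1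
  have hr : (0 : ℚ) < rA := by norm_num [rA]
  have hr3 : rA ≤ 1 / 3 := by norm_num [rA]
  have hT3 : ev T ≤ 1 / 3 := h2.trans (by norm_num [rA])
  have e := hS2 (ev A) (ev B) (ev T) hT hT3
  have a := h2a Q2 _ ev h rA LA 8 8 12 5 T hr hr3 fina_log (by norm_num) hT h2
  have b := h2b Q2 _ ev h rA LA 8 6 5 A B T hr hr3 fina_log (by norm_num) hT h2
  have c := h2c Q2 _ ev h rA LA 1 0 1 1 2 (5 / 2 / rA) (8 / 5 / rA) 3 3 A B T hr hr3 (Or.inl rfl)
    fina_log (by norm_num) (by norm_num) (by norm_num) (by norm_num [rA]) (by norm_num [rA])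
    (by norm_num [rA]) (by decide) (by decide) (by norm_num) hT h2
  have d := h2d Q2 _ ev h rA LA 1 0 1 1 3 B T hr hr3 (Or.inl rfl) fina_log (by norm_num)
    (by norm_num) (by norm_num) hT h2
  rw [f2A, h.add, h.add, h.add, h.mul]
  have q : ev (q0 A B T) = GR (ev A) (ev B) (ev T) ^ 2 := by
    simp only [q0, GP, h.mul, h.add, h.sc, GR]
    push_cast
    ring
  rw [q]
  have := mul_le_mul_of_nonneg_left a (sq_nonneg (GR (ev A) (ev B) (ev T)))
  push_cast at c d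
  linarith

/-- the three integrals -/
noncomputable def J0 (c e r S : ℝ) : ℝ := ∫ a in (0 : ℝ)..S, ∫ b in (0 : ℝ)..(S - a),
  R0 (Aab c e r a b) (Bab c e r a b) (r - max a b)
noncomputable def J1 (c e r S : ℝ) : ℝ := ∫ a in (0 : ℝ)..S, ∫ b in (0 : ℝ)..(S - a),
  R1 (Aab c e r a b) (Bab c e r a b) (r - max a b)
noncomputable def J2 (c e r S : ℝ) : ℝ := ∫ a in (0 : ℝ)..S, ∫ b in (0 : ℝ)..(S - a),
  R2 (Aab c e r a b) (Bab c e r a b) (r - max a b)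

theorem fina_cont0 : Continuous fun q : ℝ × ℝ × ℝ => R0 q.1 q.2.1 q.2.2 := by
  unfold R0 GR
  fun_prop

theorem fina_q0 (ev : Q2 → ℝ) (h : Hom ev) (A B T : Q2) :
    ev (q0 A B T) = R0 (ev A) (ev B) (ev T) := by
  simp only [q0, GP, h.mul, h.add, h.sc, GR, R0]
  push_cast
  ring

/-- the inequality -/
theorem fina_main (hOut : St_Out) (hII : St_II) (hC : St_Cont) (hL1 : St_Low1) (hS2 : St_Spl2)
    (h2a : St_Low2a) (h2b : St_Low2b) (h2c : St_Low2c) (h2d : St_Low2d) :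
    2 * II (FP 1 (2 / 3) (27 / 100)) (27 / 100) <
      3 * (J0 1 (2 / 3) (27 / 100) (459 / 2000) + J1 1 (2 / 3) (27 / 100) (459 / 2000) +
        1 / 2 * J2 1 (2 / 3) (27 / 100) (459 / 2000)) := by
  have hS : (0 : ℚ) < SA := by norm_num [SA]
  have a0 := fing_out hOut 1 (2 / 3) rA SA q0 R0 hS fina_cont0
    (fun ev h A B T _ _ => (fina_q0 ev h A B T).le)
  have a1 := fing_out hOut 1 (2 / 3) rA SA f1A R1 hS hC.1 (fina_R1 hL1)
  have a2 := fing_out hOut 1 (2 / 3) rA SA f2A R2 hS hC.2 (fina_R2 hS2 h2a h2b h2c h2d)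
  have a3 := fing_II hOut hII 1 (2 / 3) rA (by norm_num [rA])
  have c : ((-(2 * outF 1 (2 / 3) rA rA qN) : ℚ) : ℝ) < ((3 * (outF 1 (2 / 3) rA SA q0 +
      outF 1 (2 / 3) rA SA f1A + 1 / 2 * outF 1 (2 / 3) rA SA f2A) : ℚ) : ℝ) := by
    exact_mod_cast certA
  have e1 : ((rA : ℚ) : ℝ) = 27 / 100 := by norm_num [rA]
  have e2 : ((SA : ℚ) : ℝ) = 459 / 2000 := by norm_num [SA]
  have e3 : (((2 / 3 : ℚ)) : ℝ) = 2 / 3 := by norm_num
  have e4 : (((1 : ℚ)) : ℝ) = 1 := by norm_num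
  rw [e1, e2, e3, e4] at a0 a1 a2
  rw [e1, e3, e4] at a3
  push_cast at c
  unfold J0 J1 J2
  linarith

end Pool.Agent.PTN
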