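import Pool.Agent.PTN.Stmts

set_option autoImplicit false

/-!
# PTN: from the polynomial lower bounds to the integrals `QQ`, `II`
-/

namespace Pool.Agent.PTN

open MeasureTheory Pool.Agent.PT

theorem fing_hom2 (a b : ℝ) : Hom (ev2 a b) := (Hom.rat.list a).list b

theorem fing_av (a b : ℝ) : ev2 a b av = a := by
  simp [ev2, av, evL]

theorem fing_bv (a b : ℝ) : ev2 a b bv = b := by
  simp [ev2, bv, evL]

theorem fing_AP (c e r : ℚ) (a b : ℝ) : ev2 a b (AP c e r) = Aab c e r a b := by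
  have h := fing_hom2 a b
  simp only [AP, h.add, h.hsub, h.one, h.sc, h.mul, fing_av, fing_bv, Aab]
  push_cast
  ring

theorem fing_BP (c e r : ℚ) (a b : ℝ) : ev2 a b (BP c e r) = Bab c e r a b := by
  have h := fing_hom2 a b
  simp only [BP, h.add, h.hkk, h.sc, fing_av, fing_bv, Bab]
  push_cast
  ring

theorem fing_cont (c e r : ℝ) (R : ℝ → ℝ → ℝ → ℝ)
    (hR : Continuous fun q : ℝ × ℝ × ℝ => R q.1 q.2.1 q.2.2) :
    Continuous fun q : ℝ × ℝ => R (Aab c e r q.1 q.2) (Bab c e r q.1 q.2) (r - max q.1 q.2) := by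
  have h1 : Continuous fun q : ℝ × ℝ => (Aab c e r q.1 q.2, Bab c e r q.1 q.2, r - max q.1 q.2) := by
    unfold Aab Bab
    fun_prop
  exact hR.comp h1

/-- lower bound for the outer integral -/
theorem fing_out (hOut : St_Out) (c e r S : ℚ) (φ : Q2 → Q2 → Q2 → Q2) (R : ℝ → ℝ → ℝ → ℝ)
    (hS : 0 < S) (hR : Continuous fun q : ℝ × ℝ × ℝ => R q.1 q.2.1 q.2.2)
    (hφ : ∀ (ev : Q2 → ℝ), Hom ev → ∀ A B T : Q2, (r : ℝ) - S ≤ ev T → ev T ≤ r →
      ev (φ A B T) ≤ R (ev A) (ev B) (ev T)) :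
    ((outF c e r S φ : ℚ) : ℝ) ≤ ∫ a in (0 : ℝ)..(S : ℝ), ∫ b in (0 : ℝ)..((S : ℝ) - a),
      R (Aab c e r a b) (Bab c e r a b) (r - max a b) := by
  unfold outF
  refine hOut S _ _ (fun a b => R (Aab c e r a b) (Bab c e r a b) (r - max a b)) hS
    (fing_cont c e r R hR) ?_ ?_
  · intro a b hb hba hab
    have h := fing_hom2 a b
    have hT : ev2 a b (sub (kk r) av) = r - a := by rw [h.hsub, h.hkk, fing_av]
    have := hφ (ev2 a b) h (AP c e r) (BP c e r) (sub (kk r) av) (by rw [hT]; linarith)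
      (by rw [hT]; linarith)
    rw [fing_AP, fing_BP, hT] at this
    simpa [max_eq_left hba] using this
  · intro a b ha hab hS'
    have h := fing_hom2 a b
    have hT : ev2 a b (sub (kk r) bv) = r - b := by rw [h.hsub, h.hkk, fing_bv]
    have := hφ (ev2 a b) h (AP c e r) (BP c e r) (sub (kk r) bv) (by rw [hT]; linarith)
      (by rw [hT]; linarith)
    rw [fing_AP, fing_BP, hT] at this
    simpa [max_eq_right hab] using this

theorem fing_qI (ev : Q2 → ℝ) (h : Hom ev) (A B T : Q2) :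
    ev (qI A B T) = ∫ t in (0 : ℝ)..(ev T), (ev A + ev B * t) ^ 2 := by
  unfold qI
  have h2 := h.list
  rw [← integral_evL h, h.zero]
  congr 1
  ext t
  have : evL ev t (Ops.mul [A, B] [A, B] : List Q2) = evL ev t [A, B] * evL ev t [A, B] :=
    (h2 t).mul _ _
  rw [this]
  simp [evL]
  ring

theorem fing_contI : Continuous fun q : ℝ × ℝ × ℝ =>
    -∫ t in (0 : ℝ)..q.2.2, (q.1 + q.2.1 * t) ^ 2 := by
  have : (fun q : ℝ × ℝ × ℝ => -∫ t in (0 : ℝ)..q.2.2, (q.1 + q.2.1 * t) ^ 2) =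
      fun q : ℝ × ℝ × ℝ => -(q.1 ^ 2 * q.2.2 + q.1 * q.2.1 * q.2.2 ^ 2 +
        q.2.1 ^ 2 * q.2.2 ^ 3 / 3) := by
    ext q
    congr 1
    have h1 : ∀ t ∈ Set.uIcc (0 : ℝ) q.2.2, HasDerivAt
        (fun t => q.1 ^ 2 * t + q.1 * q.2.1 * t ^ 2 + q.2.1 ^ 2 * t ^ 3 / 3)
        ((q.1 + q.2.1 * t) ^ 2) t := by
      intro t _
      have e1 := (hasDerivAt_id t).const_mul (q.1 ^ 2)
      have e2 := (hasDerivAt_pow 2 t).const_mul (q.1 * q.2.1)
      have e3 := ((hasDerivAt_pow 3 t).const_mul (q.2.1 ^ 2)).div_const 3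
      refine ((e1.add e2).add e3).congr_deriv ?_
      simp
      ring
    rw [intervalIntegral.integral_eq_sub_of_hasDerivAt h1 (by
      apply Continuous.intervalIntegrable; fun_prop)]
    ring
  rw [this]
  fun_prop

/-- upper bound for `II` -/
theorem fing_II (hOut : St_Out) (hII : St_II) (c e r : ℚ) (hr : 0 < r) :
    II (FP c e r) r ≤ -((outF c e r r qN : ℚ) : ℝ) := by
  have h1 := fing_out hOut c e r r qN (fun A B T => -∫ t in (0 : ℝ)..T, (A + B * t) ^ 2) hr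
    fing_contI (by
      intro ev h A B T _ _
      unfold qN
      rw [h.sc, fing_qI ev h]
      push_cast
      linarith)
  rw [hII (c : ℝ) (e : ℝ) (r : ℝ) (by exact_mod_cast hr)]
  have h2 : (∫ a in (0 : ℝ)..(r : ℝ), ∫ b in (0 : ℝ)..((r : ℝ) - a),
      -∫ t in (0 : ℝ)..((r : ℝ) - max a b), (Aab c e r a b + Bab c e r a b * t) ^ 2) =
      -∫ a in (0 : ℝ)..(r : ℝ), ∫ b in (0 : ℝ)..((r : ℝ) - a),
        ∫ t in (0 : ℝ)..((r : ℝ) - max a b), (Aab c e r a b + Bab c e r a b * t) ^ 2 := by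
    simp only [intervalIntegral.integral_neg]
  rw [h2] at h1
  linarith

end Pool.Agent.PTN
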