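import Pool.Agent.PTN.Stmts

set_option autoImplicit false

/-!
# PTN: the lower bound for `P3b`
-/

namespace Pool.Agent.PTN

open MeasureTheory Pool.Agent.PT

/-- the inner integrand -/
noncomputable def low3b_I (x y : ℝ) : ℝ := Real.log ((1 - x - 2 * y) / y) / (y * (1 - x - y))

/-- the inner integrand, extended to a continuous function -/
noncomputable def low3b_F (x y : ℝ) : ℝ :=
  Real.log (max (1 - x - 2 * y) (1 / 500) / max y (1 / 500)) /
    (max y (1 / 500) * max (1 - x - y) (1 / 500))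

theorem low3b_cont : Continuous (fun q : ℝ × ℝ => low3b_F q.1 q.2) := by
  unfold low3b_F
  have h1 : ∀ t : ℝ, 0 < max t (1 / 500) := fun t =>
    lt_of_lt_of_le (by norm_num) (le_max_right t (1 / 500))
  refine Continuous.div (Continuous.log (Continuous.div ?_ ?_ fun q => (h1 _).ne')
    fun q => (div_pos (h1 _) (h1 _)).ne') ?_ fun q => (mul_pos (h1 _) (h1 _)).ne'
  · fun_prop
  · fun_prop
  · fun_prop

theorem low3b_eq {x y : ℝ} (hy : 1 / 500 ≤ y) (h : x + 3 * y ≤ 1) :
    low3b_F x y = low3b_I x y := by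
  unfold low3b_F low3b_I
  rw [max_eq_left hy, max_eq_left (by linarith : (1 : ℝ) / 500 ≤ 1 - x - 2 * y),
    max_eq_left (by linarith : (1 : ℝ) / 500 ≤ 1 - x - y)]

theorem low3b_log_nonneg {x y : ℝ} (hy : 1 / 500 ≤ y) (h : x + 3 * y ≤ 1) :
    0 ≤ Real.log ((1 - x - 2 * y) / y) := by
  apply Real.log_nonneg
  rw [le_div_iff₀ (by linarith)]
  linarith

/-- the second part, pointwise -/
theorem low3b_second {x y : ℝ} (hx0 : 0 ≤ x) (hx : x ≤ 1 / 4) (hy : 1 / 4 ≤ y)
    (h : x + 3 * y ≤ 1) : 27 / 2 * (1 + 3 * x) * (1 - x - 3 * y) ≤ low3b_I x y := by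
  unfold low3b_I
  have hy0 : 0 < y := by linarith
  have hcy : 0 < 1 - x - y := by linarith
  -- the bound for the logarithm
  have hlog : 2 * (1 - x - 3 * y) / (1 - x - y) ≤ Real.log ((1 - x - 2 * y) / y) := by
    have h2 := Real.le_log_one_add_of_nonneg (x := (1 - x - 3 * y) / y)
      (div_nonneg (by linarith) hy0.le)
    have h3 : 2 * ((1 - x - 3 * y) / y) / ((1 - x - 3 * y) / y + 2) =
        2 * (1 - x - 3 * y) / (1 - x - y) := by
      have e : (1 - x - 3 * y) / y + 2 = (1 - x - y) / y := by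
        field_simp
        ring
      rw [e]
      field_simp
    have h4 : 1 + (1 - x - 3 * y) / y = (1 - x - 2 * y) / y := by
      field_simp
      ring
    rwa [h3, h4] at h2
  rw [le_div_iff₀ (mul_pos hy0 hcy)]
  refine le_trans ?_ hlog
  rw [le_div_iff₀ hcy]
  have hc3 : (1 - x) ^ 3 * (1 + 3 * x) ≤ 1 := by
    have e : 1 - (1 - x) ^ 3 * (1 + 3 * x) = x ^ 2 * (6 - 8 * x + 3 * x ^ 2) := by ring
    have : 0 ≤ x ^ 2 * (6 - 8 * x + 3 * x ^ 2) :=
      mul_nonneg (sq_nonneg x) (by nlinarith [sq_nonneg x])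
    linarith
  have hym : y * (1 - x - y) ^ 2 ≤ 4 / 27 * (1 - x) ^ 3 := by
    have e : 4 / 27 * (1 - x) ^ 3 - y * (1 - x - y) ^ 2 =
        1 / 27 * ((1 - x - 3 * y) ^ 2 * (4 * (1 - x) - 3 * y)) := by ring
    have : 0 ≤ (1 - x - 3 * y) ^ 2 * (4 * (1 - x) - 3 * y) :=
      mul_nonneg (sq_nonneg _) (by linarith)
    linarith
  have hk : y * (1 - x - y) ^ 2 * (1 + 3 * x) ≤ 4 / 27 := by
    calc y * (1 - x - y) ^ 2 * (1 + 3 * x) ≤ 4 / 27 * (1 - x) ^ 3 * (1 + 3 * x) :=
          mul_le_mul_of_nonneg_right hym (by linarith)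
      _ = 4 / 27 * ((1 - x) ^ 3 * (1 + 3 * x)) := by ring
      _ ≤ 4 / 27 * 1 := by linarith
      _ = 4 / 27 := by ring
  calc 27 / 2 * (1 + 3 * x) * (1 - x - 3 * y) * (y * (1 - x - y)) * (1 - x - y)
      = 27 / 2 * (1 - x - 3 * y) * (y * (1 - x - y) ^ 2 * (1 + 3 * x)) := by ring
    _ ≤ 27 / 2 * (1 - x - 3 * y) * (4 / 27) :=
        mul_le_mul_of_nonneg_left hk (by linarith)
    _ = 2 * (1 - x - 3 * y) := by ring

/-- the value of `w3b` -/
noncomputable def low3b_W (L : ℚ) (n m k l : ℕ) (x y : ℝ) : ℝ :=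
  evL (evL (fun q : ℚ => (q : ℝ)) x) y (w3b L n m k l)

/-- the first part, pointwise -/
theorem low3b_first (h : St_Ser) (L : ℚ) (n m k l : ℕ) (hL : (L : ℝ) ≤ Real.log 4) (hm : 1 ≤ m)
    {x y : ℝ} (hx0 : 0 ≤ x) (hx : x ≤ 1 / 4) (hy : 1 / 500 ≤ y) (hy2 : y ≤ 1 / 4) :
    low3b_W L n m k l x y ≤ low3b_I x y := by
  obtain ⟨_, h2, h3, _, h5⟩ := h
  have H : Hom (evL (evL (fun q : ℚ => (q : ℝ)) x) y) := Hom.list (Hom.list Hom.rat x) y
  have ezz : evL (evL (fun q : ℚ => (q : ℝ)) x) y (zz : List (List ℚ)) = y :=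
    Hom.hXX (Hom.list Hom.rat x) y
  have exx : evL (evL (fun q : ℚ => (q : ℝ)) x) y (xx : List (List ℚ)) = x := by
    unfold xx
    rw [evL_cons, evL_nil, mul_zero, add_zero]
    exact Hom.hXX Hom.rat x
  have hval : low3b_W L n m k l x y =
      (evL (evL (fun q : ℚ => (q : ℝ)) x) y (LT (1 / 4) L n (zz : List (List ℚ))) +
        evQ (x + 2 * y) (lg1 m (3 / 4))) * (4 * evQ (1 - 4 * y) (ge k)) * evQ (x + y) (ge l) := by
    unfold low3b_W w3b evQ
    rw [H.mul, H.mul, H.add, H.sc, H.hatQ, H.hatQ, H.hatQ, H.hsub, H.one, H.sc, H.add, H.add,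
      H.sc, ezz, exx]
    push_cast
    ring
  rw [hval]
  have b1 : evL (evL (fun q : ℚ => (q : ℝ)) x) y (LT (1 / 4) L n (zz : List (List ℚ))) ≤
      Real.log (1 / y) := by
    have := h5 (List (List ℚ)) _ _ H (1 / 4) L n (zz : List (List ℚ)) (by norm_num)
      (by push_cast; norm_num; exact hL) (by rw [ezz]; linarith)
      (by rw [ezz]; push_cast; exact hy2)
    rwa [ezz] at this
  have b2 : evQ (x + 2 * y) (lg1 m (3 / 4)) ≤ Real.log (1 - (x + 2 * y)) :=
    h2 m (3 / 4) (x + 2 * y) hm (by norm_num) (by linarith) (by push_cast; linarith)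
  have b3 := h3 k (1 - 4 * y) (by linarith) (by linarith)
  have b4 := h3 l (x + y) (by linarith) (by linarith)
  have hlog : Real.log ((1 - x - 2 * y) / y) = Real.log (1 / y) + Real.log (1 - (x + 2 * y)) := by
    rw [← Real.log_mul (by positivity) (by linarith)]
    congr 1
    field_simp
    ring
  have hnn := low3b_log_nonneg (x := x) hy (by linarith)
  have e1 : low3b_I x y = Real.log ((1 - x - 2 * y) / y) * (4 * (1 / (1 - (1 - 4 * y)))) *
      (1 / (1 - (x + y))) := by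
    unfold low3b_I
    have k1 : (1 : ℝ) - (1 - 4 * y) = 4 * y := by ring
    have k2 : (1 : ℝ) - (x + y) = 1 - x - y := by ring
    have k3 : (1 : ℝ) - x - y ≠ 0 := by linarith
    have k4 : y ≠ 0 := by linarith
    rw [k1, k2]
    field_simp
  rw [e1]
  have g1 : 0 ≤ 4 * evQ (1 - 4 * y) (ge k) * evQ (x + y) (ge l) :=
    mul_nonneg (mul_nonneg (by norm_num) b3.2) b4.2
  have g2 : 4 * evQ (1 - 4 * y) (ge k) * evQ (x + y) (ge l) ≤
      4 * (1 / (1 - (1 - 4 * y))) * (1 / (1 - (x + y))) :=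
    mul_le_mul (mul_le_mul_of_nonneg_left b3.1 (by norm_num)) b4.1 b4.2
      (mul_nonneg (by norm_num) (b3.2.trans b3.1))
  calc _ = (evL (evL (fun q : ℚ => (q : ℝ)) x) y (LT (1 / 4) L n (zz : List (List ℚ))) +
        evQ (x + 2 * y) (lg1 m (3 / 4))) *
        (4 * evQ (1 - 4 * y) (ge k) * evQ (x + y) (ge l)) := by ring
    _ ≤ Real.log ((1 - x - 2 * y) / y) *
        (4 * evQ (1 - 4 * y) (ge k) * evQ (x + y) (ge l)) := by
        apply mul_le_mul_of_nonneg_right _ g1
        rw [hlog]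
        linarith
    _ ≤ Real.log ((1 - x - 2 * y) / y) *
        (4 * (1 / (1 - (1 - 4 * y))) * (1 / (1 - (x + y)))) :=
        mul_le_mul_of_nonneg_left g2 hnn
    _ = _ := by ring

theorem low3b_contW (L : ℚ) (n m k l : ℕ) (x : ℝ) : Continuous (low3b_W L n m k l x) :=
  continuous_evL _ _

/-- the inner integral -/
theorem low3b_inner (h : St_Ser) (L : ℚ) (n m k l : ℕ) (hL : (L : ℝ) ≤ Real.log 4) (hm : 1 ≤ m)
    {x T : ℝ} (hx0 : 0 ≤ x) (hx : x ≤ 1 / 4) (hT : 1 / 500 ≤ T) (hT2 : T ≤ 1 / 4) :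
    (∫ y in T..(1 / 4), low3b_W L n m k l x y) + 9 / 4 * ((1 / 4 - x) ^ 2 * (1 + 3 * x)) ≤
      ∫ y in T..((1 - x) / 3), low3b_F x y := by
  have hc : Continuous (fun y => low3b_F x y) :=
    low3b_cont.comp (continuous_const.prodMk continuous_id)
  have hi : ∀ a b : ℝ, IntervalIntegrable (fun y => low3b_F x y) volume a b :=
    fun a b => hc.intervalIntegrable a b
  rw [← intervalIntegral.integral_add_adjacent_intervals (hi T (1 / 4)) (hi (1 / 4) ((1 - x) / 3))]
  apply add_le_add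
  · apply intervalIntegral.integral_mono_on hT2 ((low3b_contW L n m k l x).intervalIntegrable _ _)
      (hi _ _)
    intro y hy
    rw [low3b_eq (hT.trans hy.1) (by linarith [hy.2])]
    exact low3b_first h L n m k l hL hm hx0 hx (hT.trans hy.1) hy.2
  · have h1 : ∫ y in (1 / 4 : ℝ)..((1 - x) / 3), 27 / 2 * (1 + 3 * x) * (1 - x - 3 * y) =
        9 / 4 * ((1 / 4 - x) ^ 2 * (1 + 3 * x)) := by
      have hd : ∀ y ∈ Set.uIcc (1 / 4 : ℝ) ((1 - x) / 3), HasDerivAt
          (fun y : ℝ => 27 / 2 * (1 + 3 * x) * ((1 - x) * y - 3 / 2 * y ^ 2))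
          (27 / 2 * (1 + 3 * x) * (1 - x - 3 * y)) y := by
        intro y _
        have := (((hasDerivAt_id y).const_mul (1 - x)).sub
          ((hasDerivAt_pow 2 y).const_mul (3 / 2 : ℝ))).const_mul (27 / 2 * (1 + 3 * x))
        refine this.congr_deriv ?_
        norm_num
        left
        ring
      rw [intervalIntegral.integral_eq_sub_of_hasDerivAt hd
        (Continuous.intervalIntegrable (by fun_prop) _ _)]
      ring
    rw [← h1]
    apply intervalIntegral.integral_mono_on (by linarith)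
      (Continuous.intervalIntegrable (by fun_prop) _ _) (hi _ _)
    intro y hy
    rw [low3b_eq (by linarith [hy.1]) (by linarith [hy.2])]
    exact low3b_second hx0 hx hy.1 (by linarith [hy.2])

theorem thm_Low3b (h : St_Ser) : St_Low3b := by
  intro α _ ev hev L n m k l A B T hL hm hT hT2
  have hTx : ∀ x ∈ Set.Icc (1 / 1000 : ℝ) (ev T), 0 < x ∧ x ≤ 1 / 4 := fun x hx =>
    ⟨by linarith [hx.1], hx.2.trans hT2⟩
  have hle : (1 / 1000 : ℝ) ≤ ev T := by linarith
  -- the value of `xG2`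
  have hG : ∀ x : ℝ, x ≠ 0 → evL ev x (xG2 A B) = GR (ev A) (ev B) x ^ 2 / x := by
    intro x hx
    unfold xG2 GR
    simp only [evL, hev.zero, hev.mul, hev.sc]
    push_cast
    field_simp
    ring
  have hG2 : ∀ x : ℝ, evL ev x (xG2 A B) = x * (ev A + ev B * x / 2) ^ 2 := by
    intro x
    unfold xG2
    simp only [evL, hev.zero, hev.mul, hev.sc]
    push_cast
    ring
  -- the value of `n3`
  have hn : ∀ x : ℝ, evL ev x (n3 L n m k l T) =
      (∫ y in (ev T)..(1 / 4), low3b_W L n m k l x y) +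
        9 / 4 * ((1 / 4 - x) ^ 2 * (1 + 3 * x)) := by
    intro x
    have Hx := hev.list x
    unfold n3
    rw [Hx.add, Hx.sc, Hx.mul, Hx.mul, Hx.add, Hx.one, Hx.sc, Hx.hsub, Hx.hkk, hev.hXX,
      ← integral_evL Hx, evL_CC, evL_CC, hev.hkk]
    push_cast
    congr 1
    · refine intervalIntegral.integral_congr fun y _ => ?_
      exact hev.mapkk x y _
    · ring
  have hval : ev (p3b L n m k l A B T) = ∫ x in (1 / 1000 : ℝ)..(ev T),
      evL ev x (xG2 A B) * evL ev x (n3 L n m k l T) := by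
    unfold p3b
    rw [← integral_evL hev, hev.hkk]
    push_cast
    refine intervalIntegral.integral_congr fun x _ => ?_
    exact evL_mul hev x _ _
  have hP : P3b (ev A) (ev B) (ev T) = ∫ x in (1 / 1000 : ℝ)..(ev T),
      x * (ev A + ev B * x / 2) ^ 2 * ∫ y in (ev T)..((1 - x) / 3), low3b_F x y := by
    unfold P3b
    refine intervalIntegral.integral_congr fun x hx => ?_
    rw [Set.uIcc_of_le hle] at hx
    have h1 := hTx x hx
    rw [← hG x h1.1.ne', hG2]
    congr 1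
    refine intervalIntegral.integral_congr fun y hy => ?_
    rw [Set.uIcc_of_le (by linarith)] at hy
    exact (low3b_eq (hT.trans hy.1) (by linarith [hy.2])).symm
  rw [hval, hP]
  have hcF : Continuous (fun x : ℝ => ∫ y in (ev T)..((1 - x) / 3), low3b_F x y) := by
    apply intervalIntegral.continuous_parametric_intervalIntegral_of_continuous
    · exact low3b_cont
    · fun_prop
  apply intervalIntegral.integral_mono_on hle
    (((continuous_evL ev _).mul (continuous_evL ev _)).intervalIntegrable _ _)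
    (Continuous.intervalIntegrable (by fun_prop) _ _)
  intro x hx
  have h1 := hTx x hx
  show evL ev x (xG2 A B) * evL ev x (n3 L n m k l T) ≤ _
  rw [hG2, hn]
  apply mul_le_mul_of_nonneg_left _ (mul_nonneg h1.1.le (sq_nonneg _))
  exact low3b_inner h L n m k l hL hm h1.1.le h1.2 hT hT2

end Pool.Agent.PTN
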