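import Pool.Agent.PTN.Stmts

set_option autoImplicit false

/-!
# PTN: outer integration
-/

namespace Pool.Agent.PTN

open MeasureTheory Pool.Agent.PT

/-- value of the variable -/
theorem out_one (a : ℝ) : evL (fun q : ℚ => (q : ℝ)) a [0, 1] = a := by
  simp [evL]

/-- value of `S - a` -/
theorem out_two (S : ℚ) (a : ℝ) : evL (fun q : ℚ => (q : ℝ)) a [S, -1] = (S : ℝ) - a := by
  simp [evL]
  ring

/-- inner integrals -/
theorem out_int (P : Q2) (lo hi : List ℚ) (a : ℝ) :
    ∫ b in (evL (fun q : ℚ => (q : ℝ)) a lo)..(evL (fun q : ℚ => (q : ℝ)) a hi), ev2 a b P =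
      evL (fun q : ℚ => (q : ℝ)) a (intg P lo hi) :=
  integral_evL (Hom.list Hom.rat a) P lo hi

theorem thm_Out : St_Out := by
  intro S P₁ P₂ f hS hf h1 h2
  have hS' : (0 : ℝ) < S := by exact_mod_cast hS
  have hFc : Continuous (fun a : ℝ => ∫ b in (0 : ℝ)..((S : ℝ) - a), f a b) :=
    intervalIntegral.continuous_parametric_intervalIntegral_of_continuous (f := f) hf
      (continuous_const.sub continuous_id)
  have hfa : ∀ a, Continuous (fun b => f a b) := fun a =>
    hf.comp (continuous_const.prodMk continuous_id)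
  have hP : ∀ (P : Q2) (a : ℝ), Continuous (fun b => ev2 a b P) := fun P a =>
    continuous_evL _ P
  -- the two parts
  have hA : ∀ a ∈ Set.Icc (0 : ℝ) ((S : ℝ) / 2),
      evL (fun q : ℚ => (q : ℝ)) a
        (Ops.add (intg P₁ Ops.zero [0, 1]) (intg P₂ [0, 1] [S, -1]) : List ℚ) ≤
      ∫ b in (0 : ℝ)..((S : ℝ) - a), f a b := by
    intro a ha
    have e1 := out_int P₁ Ops.zero [0, 1] a
    have e2 := out_int P₂ [0, 1] [S, -1] a
    have e3 : evL (fun q : ℚ => (q : ℝ)) a (Ops.zero : List ℚ) = 0 := rfl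
    rw [out_one, e3] at e1
    rw [out_one, out_two] at e2
    rw [(Hom.list Hom.rat a).add, ← e1, ← e2,
      ← intervalIntegral.integral_add_adjacent_intervals (b := a)
        ((hfa a).intervalIntegrable _ _) ((hfa a).intervalIntegrable _ _)]
    refine add_le_add ?_ ?_
    · refine intervalIntegral.integral_mono_on ha.1 ((hP P₁ a).intervalIntegrable _ _)
        ((hfa a).intervalIntegrable _ _) fun b hb => ?_
      refine h1 a b hb.1 hb.2 ?_
      linarith [ha.2, hb.2]
    · refine intervalIntegral.integral_mono_on (by linarith [ha.2])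
        ((hP P₂ a).intervalIntegrable _ _) ((hfa a).intervalIntegrable _ _) fun b hb => ?_
      refine h2 a b ha.1 hb.1 ?_
      linarith [hb.2]
  have hB : ∀ a ∈ Set.Icc ((S : ℝ) / 2) (S : ℝ),
      evL (fun q : ℚ => (q : ℝ)) a (intg P₁ Ops.zero [S, -1] : List ℚ) ≤
      ∫ b in (0 : ℝ)..((S : ℝ) - a), f a b := by
    intro a ha
    have e1 := out_int P₁ Ops.zero [S, -1] a
    have e3 : evL (fun q : ℚ => (q : ℝ)) a (Ops.zero : List ℚ) = 0 := rfl
    rw [out_two, e3] at e1
    rw [← e1]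
    refine intervalIntegral.integral_mono_on (by linarith [ha.2])
      ((hP P₁ a).intervalIntegrable _ _) ((hfa a).intervalIntegrable _ _) fun b hb => ?_
    refine h1 a b hb.1 ?_ ?_
    · linarith [ha.1, hb.2]
    · linarith [hb.2]
  have hI1 := integral_evL Hom.rat
    (Ops.add (intg P₁ Ops.zero [0, 1]) (intg P₂ [0, 1] [S, -1]) : List ℚ) 0 (S / 2)
  have hI2 := integral_evL Hom.rat (intg P₁ Ops.zero [S, -1] : List ℚ) (S / 2) S
  simp only [Rat.cast_zero, Rat.cast_div, Rat.cast_ofNat] at hI1 hI2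
  have hO : ((outV S P₁ P₂ : ℚ) : ℝ) =
      (∫ a in (0 : ℝ)..((S : ℝ) / 2), evL (fun q : ℚ => (q : ℝ)) a
        (Ops.add (intg P₁ Ops.zero [0, 1]) (intg P₂ [0, 1] [S, -1]) : List ℚ)) +
      ∫ a in ((S : ℝ) / 2)..(S : ℝ), evL (fun q : ℚ => (q : ℝ)) a
        (intg P₁ Ops.zero [S, -1] : List ℚ) := by
    rw [hI1, hI2]
    unfold outV
    rw [Rat.cast_add]
  rw [hO, ← intervalIntegral.integral_add_adjacent_intervals (b := (S : ℝ) / 2)
    (hFc.intervalIntegrable _ _) (hFc.intervalIntegrable _ _)]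
  refine add_le_add ?_ ?_
  · exact intervalIntegral.integral_mono_on (by linarith)
      ((continuous_evL _ _).intervalIntegrable _ _) (hFc.intervalIntegrable _ _) hA
  · exact intervalIntegral.integral_mono_on (by linarith)
      ((continuous_evL _ _).intervalIntegrable _ _) (hFc.intervalIntegrable _ _) hB

end Pool.Agent.PTN
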