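import Pool.Agent.PTN.Stmts

set_option autoImplicit false

/-!
# PTN: splitting of `R3` (module Spl3)
-/

namespace Pool.Agent.PTN

open MeasureTheory Pool.Agent.PT

theorem spl3_cont {X : Type} [TopologicalSpace X] [FirstCountableTopology X]
    {F : X → ℝ → ℝ} (hF : Continuous fun p : X × ℝ => F p.1 p.2)
    {s t : X → ℝ} (hs : Continuous s) (ht : Continuous t) :
    Continuous fun p => ∫ z in s p..t p, F p z := by
  have hF' : Continuous (Function.uncurry F) := hF
  have h1 : Continuous fun p => ∫ z in (0 : ℝ)..t p, F p z :=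
    intervalIntegral.continuous_parametric_intervalIntegral_of_continuous hF' ht
  have h2 : Continuous fun p => ∫ z in (0 : ℝ)..s p, F p z :=
    intervalIntegral.continuous_parametric_intervalIntegral_of_continuous hF' hs
  have h3 : (fun p => ∫ z in s p..t p, F p z)
      = fun p => (∫ z in (0 : ℝ)..t p, F p z) - ∫ z in (0 : ℝ)..s p, F p z := by
    funext p
    have hp : Continuous fun z => F p z := hF.comp (Continuous.prodMk_right p)
    rw [intervalIntegral.integral_interval_sub_left (hp.intervalIntegrable _ _)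
      (hp.intervalIntegrable _ _)]
  rw [h3]
  exact h1.sub h2

/-- the clamped kernel -/
noncomputable def spl3_k (x y z : ℝ) : ℝ :=
  1 / (max x (1 / 1000) * max y (1 / 1000) * max z (1 / 1000) * max (1 - x - y - z) (1 / 4))

theorem spl3_max_pos (x c : ℝ) (hc : 0 < c) : 0 < max x c := lt_of_lt_of_le hc (le_max_right _ _)

theorem spl3_k_cont : Continuous fun p : (ℝ × ℝ) × ℝ => spl3_k p.1.1 p.1.2 p.2 := by
  unfold spl3_k
  refine Continuous.div continuous_const (by fun_prop) ?_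
  intro p
  have h1 := spl3_max_pos p.1.1 (1 / 1000) (by norm_num)
  have h2 := spl3_max_pos p.1.2 (1 / 1000) (by norm_num)
  have h3 := spl3_max_pos p.2 (1 / 1000) (by norm_num)
  have h4 := spl3_max_pos (1 - p.1.1 - p.1.2 - p.2) (1 / 4) (by norm_num)
  positivity

theorem spl3_k_nonneg (x y z : ℝ) : 0 ≤ spl3_k x y z := by
  unfold spl3_k
  have h1 := spl3_max_pos x (1 / 1000) (by norm_num)
  have h2 := spl3_max_pos y (1 / 1000) (by norm_num)
  have h3 := spl3_max_pos z (1 / 1000) (by norm_num)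
  have h4 := spl3_max_pos (1 - x - y - z) (1 / 4) (by norm_num)
  positivity

theorem spl3_k_eq {x y z : ℝ} (hx : 1 / 1000 ≤ x) (hy : 1 / 1000 ≤ y) (hz : 1 / 1000 ≤ z)
    (hw : 1 / 4 ≤ 1 - x - y - z) : spl3_k x y z = 1 / (x * y * z * (1 - x - y - z)) := by
  unfold spl3_k
  rw [max_eq_left hx, max_eq_left hy, max_eq_left hz, max_eq_left hw]

/-- the numerator -/
noncomputable def spl3_E (A B T x y z : ℝ) : ℝ :=
  gg A B T x + gg A B T y + gg A B T z - gg A B T (x + y) - gg A B T (x + z)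
      - gg A B T (y + z) + gg A B T (x + y + z)

/-- its square -/
noncomputable def spl3_E2 (A B T x y z : ℝ) : ℝ := spl3_E A B T x y z ^ 2

theorem spl3_gg_cont (A B T : ℝ) : Continuous (gg A B T) := by
  unfold gg GR
  fun_prop

theorem spl3_E_cont (A B T : ℝ) :
    Continuous fun p : (ℝ × ℝ) × ℝ => spl3_E A B T p.1.1 p.1.2 p.2 := by
  unfold spl3_E
  have h := spl3_gg_cont A B T
  fun_prop

theorem spl3_gg_lo {A B T x : ℝ} (h : x ≤ T) : gg A B T x = GR A B x := by
  unfold gg; rw [min_eq_left h]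

theorem spl3_gg_hi {A B T x : ℝ} (h : T ≤ x) : gg A B T x = GR A B T := by
  unfold gg; rw [min_eq_right h]

/-- the integral of `1/(z(w-z))` -/
theorem spl3_log (u w : ℝ) (hu : 0 < u) (hw : u ≤ w / 2) :
    ∫ z in u..(w / 2), 1 / (z * (w - z)) = Real.log ((w - u) / u) / w := by
  have hw0 : 0 < w := by linarith
  have hd : ∀ z ∈ Set.uIcc u (w / 2), HasDerivAt (fun z => (Real.log z - Real.log (w - z)) / w)
      (1 / (z * (w - z))) z := by
    intro z hz
    rw [Set.uIcc_of_le hw] at hz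
    have hz0 : 0 < z := lt_of_lt_of_le hu hz.1
    have hz1 : 0 < w - z := by linarith [hz.2]
    have e1 : HasDerivAt (fun z : ℝ => w - z) (-1) z := by
      simpa using (hasDerivAt_id z).const_sub w
    have e2 := (Real.hasDerivAt_log hz0.ne').sub (e1.log hz1.ne')
    have e3 := e2.div_const w
    refine e3.congr_deriv ?_
    field_simp
    ring
  have hc : ContinuousOn (fun z : ℝ => 1 / (z * (w - z))) (Set.uIcc u (w / 2)) := by
    refine ContinuousOn.div continuousOn_const (by fun_prop) ?_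
    intro z hz
    rw [Set.uIcc_of_le hw] at hz
    have hz0 : 0 < z := lt_of_lt_of_le hu hz.1
    have hz1 : 0 < w - z := by linarith [hz.2]
    positivity
  rw [intervalIntegral.integral_eq_sub_of_hasDerivAt hd hc.intervalIntegrable]
  rw [Real.log_div (by linarith) hu.ne']
  have : w - w / 2 = w / 2 := by ring
  rw [this]
  ring

/-- integral of the kernel in the last variable -/
theorem spl3_klog {x y u : ℝ} (hx : 1 / 1000 ≤ x) (hy : 1 / 1000 ≤ y) (hu : 1 / 1000 ≤ u)
    (hw : 1 / 2 ≤ 1 - x - y) (huw : u ≤ (1 - x - y) / 2) (c : ℝ) :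
    ∫ z in u..((1 - x - y) / 2), c * spl3_k x y z
      = c / (x * y * (1 - x - y)) * Real.log ((1 - x - y - u) / u) := by
  have e : ∫ z in u..((1 - x - y) / 2), c * spl3_k x y z
      = ∫ z in u..((1 - x - y) / 2), (c / (x * y)) * (1 / (z * ((1 - x - y) - z))) := by
    refine intervalIntegral.integral_congr ?_
    intro z hz
    rw [Set.uIcc_of_le huw] at hz
    show c * spl3_k x y z = (c / (x * y)) * (1 / (z * ((1 - x - y) - z)))
    rw [spl3_k_eq hx hy (le_trans hu hz.1) (by linarith [hz.2])]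
    have hz0 : 0 < z := by linarith [hz.1]
    have hx0 : 0 < x := by linarith
    have hy0 : 0 < y := by linarith
    have h4 : 0 < 1 - x - y - z := by linarith [hz.2]
    field_simp
  rw [e, intervalIntegral.integral_const_mul, spl3_log u (1 - x - y) (by linarith) huw]
  have hx0 : 0 < x := by linarith
  have hy0 : 0 < y := by linarith
  have h4 : 0 < 1 - x - y := by linarith
  field_simp

/-- integral over `z` of a numerator times the kernel -/
noncomputable def spl3_G (N : ℝ → ℝ → ℝ → ℝ) (u x y : ℝ) : ℝ :=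
  ∫ z in u..((1 - x - y) / 2), N x y z * spl3_k x y z

theorem spl3_NK_cont {N : ℝ → ℝ → ℝ → ℝ} (hN : Continuous fun p : (ℝ × ℝ) × ℝ => N p.1.1 p.1.2 p.2) :
    Continuous fun p : (ℝ × ℝ) × ℝ => N p.1.1 p.1.2 p.2 * spl3_k p.1.1 p.1.2 p.2 :=
  hN.mul spl3_k_cont

theorem spl3_NK_int {N : ℝ → ℝ → ℝ → ℝ} (hN : Continuous fun p : (ℝ × ℝ) × ℝ => N p.1.1 p.1.2 p.2)
    (x y a b : ℝ) :
    IntervalIntegrable (fun z => N x y z * spl3_k x y z) volume a b := by
  have h : Continuous fun z => N x y z * spl3_k x y z :=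
    (spl3_NK_cont hN).comp (Continuous.prodMk_right ((x, y) : ℝ × ℝ))
  exact h.intervalIntegrable _ _

theorem spl3_G_cont {N : ℝ → ℝ → ℝ → ℝ} (hN : Continuous fun p : (ℝ × ℝ) × ℝ => N p.1.1 p.1.2 p.2)
    {s : ℝ × ℝ → ℝ} (hs : Continuous s) :
    Continuous fun p : ℝ × ℝ => spl3_G N (s p) p.1 p.2 := by
  unfold spl3_G
  exact spl3_cont (F := fun (p : ℝ × ℝ) z => N p.1 p.2 z * spl3_k p.1 p.2 z) (spl3_NK_cont hN) hs
    (by fun_prop)

theorem spl3_Gy_int {N : ℝ → ℝ → ℝ → ℝ} (hN : Continuous fun p : (ℝ × ℝ) × ℝ => N p.1.1 p.1.2 p.2)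
    {s : ℝ × ℝ → ℝ} (hs : Continuous s) (x a b : ℝ) :
    IntervalIntegrable (fun y => spl3_G N (s (x, y)) x y) volume a b := by
  have h : Continuous fun y => spl3_G N (s (x, y)) x y :=
    (spl3_G_cont hN hs).comp (Continuous.prodMk_right x)
  exact h.intervalIntegrable _ _

theorem spl3_F_cont {N : ℝ → ℝ → ℝ → ℝ} (hN : Continuous fun p : (ℝ × ℝ) × ℝ => N p.1.1 p.1.2 p.2)
    {s : ℝ × ℝ → ℝ} (hs : Continuous s) {a b : ℝ → ℝ} (ha : Continuous a) (hb : Continuous b) :
    Continuous fun x : ℝ => ∫ y in a x..b x, spl3_G N (s (x, y)) x y :=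
  spl3_cont (F := fun x y => spl3_G N (s (x, y)) x y) (spl3_G_cont hN hs) ha hb

/-- `R3` with the clamped kernel -/
theorem spl3_R3 (A B T : ℝ) :
    R3 A B T = ∫ x in (1 / 1000 : ℝ)..(1 / 4), ∫ y in x..((1 - x) / 3),
      spl3_G (spl3_E2 A B T) y x y := by
  unfold R3
  refine intervalIntegral.integral_congr ?_
  intro x hx
  rw [Set.uIcc_of_le (by norm_num)] at hx
  have hx1 := hx.1
  have hx2 := hx.2
  refine intervalIntegral.integral_congr ?_
  intro y hy
  rw [Set.uIcc_of_le (by linarith)] at hy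
  have hy1 := hy.1
  have hy2 := hy.2
  show _ = spl3_G (spl3_E2 A B T) y x y
  unfold spl3_G
  refine intervalIntegral.integral_congr ?_
  intro z hz
  rw [Set.uIcc_of_le (by linarith)] at hz
  show (gg A B T x + gg A B T y + gg A B T z - gg A B T (x + y) - gg A B T (x + z)
      - gg A B T (y + z) + gg A B T (x + y + z)) ^ 2 / (x * y * z * (1 - x - y - z))
    = spl3_E2 A B T x y z * spl3_k x y z
  have hz1 := hz.1
  have hz2 := hz.2
  rw [spl3_k_eq hx1 (by linarith) (by linarith) (by linarith)]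
  unfold spl3_E2 spl3_E
  ring

/-- `P3b` with the clamped kernel -/
theorem spl3_P3b (A B T : ℝ) (h1 : 1 / 500 ≤ T) (h2 : T ≤ 1 / 4) :
    P3b A B T = ∫ x in (1 / 1000 : ℝ)..T, ∫ y in T..((1 - x) / 3),
      spl3_G (fun x _ _ => GR A B x ^ 2) y x y := by
  unfold P3b
  refine intervalIntegral.integral_congr ?_
  intro x hx
  rw [Set.uIcc_of_le (by linarith)] at hx
  have hx1 := hx.1
  have hx2 := hx.2
  show GR A B x ^ 2 / x *
    (∫ y in T..((1 - x) / 3), Real.log ((1 - x - 2 * y) / y) / (y * (1 - x - y))) =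
    ∫ y in T..((1 - x) / 3), spl3_G (fun x _ _ => GR A B x ^ 2) y x y
  rw [← intervalIntegral.integral_const_mul]
  refine intervalIntegral.integral_congr ?_
  intro y hy
  rw [Set.uIcc_of_le (by linarith)] at hy
  have hy1 := hy.1
  have hy2 := hy.2
  show GR A B x ^ 2 / x * (Real.log ((1 - x - 2 * y) / y) / (y * (1 - x - y)))
    = ∫ z in y..((1 - x - y) / 2), GR A B x ^ 2 * spl3_k x y z
  rw [spl3_klog hx1 (by linarith) (by linarith) (by linarith) (by linarith)]
  have e : 1 - x - y - y = 1 - x - 2 * y := by ring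
  rw [e]
  have hx0 : 0 < x := by linarith
  have hy0 : 0 < y := by linarith
  have h4 : 0 < 1 - x - y := by linarith
  field_simp

theorem spl3_Pcd {N : ℝ → ℝ → ℝ} {T a b x : ℝ} (h1 : 1 / 500 ≤ T) (h2 : T ≤ 1 / 4)
    (hx1 : 1 / 1000 ≤ x) (hx2 : x ≤ T) (hab : a ≤ b) (ha : 1 / 1000 ≤ a) (hb : b ≤ T) :
    ∫ z in a..b, N x z / (x * z * (1 - x - z)) * Real.log ((1 - x - z - T) / T) =
      ∫ y in a..b, spl3_G (fun x y _ => N x y) T x y := by
  refine intervalIntegral.integral_congr ?_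
  intro y hy
  rw [Set.uIcc_of_le hab] at hy
  have hy1 := hy.1
  have hy2 := hy.2
  show N x y / (x * y * (1 - x - y)) * Real.log ((1 - x - y - T) / T)
    = ∫ z in T..((1 - x - y) / 2), N x y * spl3_k x y z
  rw [spl3_klog hx1 (by linarith) (by linarith) (by linarith) (by linarith)]

theorem spl3_P3c (A B T : ℝ) (h1 : 1 / 500 ≤ T) (h2 : T ≤ 1 / 4) :
    P3c A B T = (∫ x in (1 / 1000 : ℝ)..(T / 2), ∫ y in (T - x)..T,
      spl3_G (fun x y _ => (GR A B x + GR A B y - GR A B T) ^ 2) T x y) +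
      ∫ x in (T / 2)..T, ∫ y in x..T,
      spl3_G (fun x y _ => (GR A B x + GR A B y - GR A B T) ^ 2) T x y := by
  unfold P3c
  congr 1
  · refine intervalIntegral.integral_congr ?_
    intro x hx
    rw [Set.uIcc_of_le (by linarith)] at hx
    have hx1 := hx.1
    have hx2 := hx.2
    exact spl3_Pcd (N := fun x y => (GR A B x + GR A B y - GR A B T) ^ 2) h1 h2 hx1
      (by linarith) (by linarith) (by linarith) le_rfl
  · refine intervalIntegral.integral_congr ?_
    intro x hx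
    rw [Set.uIcc_of_le (by linarith)] at hx
    have hx1 := hx.1
    have hx2 := hx.2
    exact spl3_Pcd (N := fun x y => (GR A B x + GR A B y - GR A B T) ^ 2) h1 h2 (by linarith)
      (by linarith) (by linarith) (by linarith) le_rfl

theorem spl3_P3d (B T : ℝ) (h1 : 1 / 500 ≤ T) (h2 : T ≤ 1 / 4) :
    P3d B T = ∫ x in (1 / 1000 : ℝ)..(T / 2), ∫ y in x..(T - x),
      spl3_G (fun x y _ => (B * x * y) ^ 2) T x y := by
  unfold P3d
  refine intervalIntegral.integral_congr ?_
  intro x hx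
  rw [Set.uIcc_of_le (by linarith)] at hx
  have hx1 := hx.1
  have hx2 := hx.2
  exact spl3_Pcd (N := fun x y => (B * x * y) ^ 2) h1 h2 (by linarith)
      (by linarith) (by linarith) (by linarith) (by linarith)

theorem spl3_Pa (T g : ℝ) :
    ∫ x in T..(1 / 4 : ℝ), g * ((256 / 12) * (1 - 4 * x) ^ 2) = g * (16 / 9 * (1 - 4 * T) ^ 3) := by
  have hd : ∀ x ∈ Set.uIcc T (1 / 4 : ℝ), HasDerivAt
      (fun x => g * ((256 / 12) * (-(1 - 4 * x) ^ 3 / 12))) (g * ((256 / 12) * (1 - 4 * x) ^ 2)) x := by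
    intro x _
    have e0 : HasDerivAt (fun x : ℝ => 1 - 4 * x) (-4) x := by
      simpa using ((hasDerivAt_id x).const_mul 4).const_sub 1
    have e1 := (e0.pow 3).neg.div_const 12
    have e2 := (e1.const_mul (256 / 12 : ℝ)).const_mul g
    refine e2.congr_deriv ?_
    push_cast
    ring
  have hc : Continuous fun x : ℝ => g * ((256 / 12) * (1 - 4 * x) ^ 2) := by fun_prop
  rw [intervalIntegral.integral_eq_sub_of_hasDerivAt hd (hc.intervalIntegrable _ _)]
  ring

theorem spl3_E2_cont (A B T : ℝ) :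
    Continuous fun p : (ℝ × ℝ) × ℝ => spl3_E2 A B T p.1.1 p.1.2 p.2 :=
  (spl3_E_cont A B T).pow 2

theorem spl3_G_mono {A B T : ℝ} {N : ℝ → ℝ → ℝ → ℝ} {u u' x y : ℝ} (h1 : u ≤ u')
    (h2 : u' ≤ (1 - x - y) / 2)
    (h : ∀ z, u' ≤ z → z ≤ (1 - x - y) / 2 → N x y z = spl3_E A B T x y z ^ 2) :
    spl3_G N u' x y ≤ spl3_G (spl3_E2 A B T) u x y := by
  unfold spl3_G
  have e : ∫ z in u'..((1 - x - y) / 2), N x y z * spl3_k x y z
      = ∫ z in u'..((1 - x - y) / 2), spl3_E2 A B T x y z * spl3_k x y z := by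
    refine intervalIntegral.integral_congr ?_
    intro z hz
    rw [Set.uIcc_of_le h2] at hz
    show N x y z * spl3_k x y z = spl3_E A B T x y z ^ 2 * spl3_k x y z
    rw [h z hz.1 hz.2]
  rw [e, ← intervalIntegral.integral_add_adjacent_intervals
    (spl3_NK_int (spl3_E2_cont A B T) x y u u')
    (spl3_NK_int (spl3_E2_cont A B T) x y u' ((1 - x - y) / 2))]
  have h3 : 0 ≤ ∫ z in u..u', spl3_E2 A B T x y z * spl3_k x y z := by
    refine intervalIntegral.integral_nonneg h1 ?_
    intro z _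
    exact mul_nonneg (sq_nonneg _) (spl3_k_nonneg x y z)
  linarith

theorem spl3_Nb_cont (A B : ℝ) :
    Continuous fun p : (ℝ × ℝ) × ℝ => (fun x _ _ => GR A B x ^ 2 : ℝ → ℝ → ℝ → ℝ) p.1.1 p.1.2 p.2 := by
  show Continuous fun p : (ℝ × ℝ) × ℝ => GR A B p.1.1 ^ 2
  unfold GR
  fun_prop

theorem spl3_Nc_cont (A B T : ℝ) :
    Continuous fun p : (ℝ × ℝ) × ℝ =>
      (fun x y _ => (GR A B x + GR A B y - GR A B T) ^ 2 : ℝ → ℝ → ℝ → ℝ) p.1.1 p.1.2 p.2 := by
  show Continuous fun p : (ℝ × ℝ) × ℝ => (GR A B p.1.1 + GR A B p.1.2 - GR A B T) ^ 2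
  unfold GR
  fun_prop

theorem spl3_Nd_cont (B : ℝ) :
    Continuous fun p : (ℝ × ℝ) × ℝ =>
      (fun x y _ => (B * x * y) ^ 2 : ℝ → ℝ → ℝ → ℝ) p.1.1 p.1.2 p.2 := by
  show Continuous fun p : (ℝ × ℝ) × ℝ => (B * p.1.1 * p.1.2) ^ 2
  fun_prop

/-- the part `y ≥ T ≥ x` -/
theorem spl3_partb {A B T x : ℝ} (h1 : 1 / 500 ≤ T) (h2 : T ≤ 1 / 4)
    (hx1 : 1 / 1000 ≤ x) (hx2 : x ≤ T) :
    ∫ y in T..((1 - x) / 3), spl3_G (fun x _ _ => GR A B x ^ 2) y x y ≤
      ∫ y in T..((1 - x) / 3), spl3_G (spl3_E2 A B T) y x y := by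
  refine intervalIntegral.integral_mono_on (by linarith)
    (spl3_Gy_int (spl3_Nb_cont A B) continuous_snd x _ _)
    (spl3_Gy_int (spl3_E2_cont A B T) continuous_snd x _ _) ?_
  intro y hy
  have hy1 := hy.1
  have hy2 := hy.2
  refine spl3_G_mono le_rfl (by linarith) ?_
  intro z hz1 hz2
  show GR A B x ^ 2 = spl3_E A B T x y z ^ 2
  congr 1
  unfold spl3_E
  rw [spl3_gg_lo hx2, spl3_gg_hi hy1, spl3_gg_hi (by linarith : T ≤ z),
    spl3_gg_hi (by linarith : T ≤ x + y), spl3_gg_hi (by linarith : T ≤ x + z),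
    spl3_gg_hi (by linarith : T ≤ y + z), spl3_gg_hi (by linarith : T ≤ x + y + z)]
  ring

/-- the part `x, y ≤ T ≤ x + y` -/
theorem spl3_partc {A B T x a : ℝ} (h2 : T ≤ 1 / 4)
    (hx1 : 1 / 1000 ≤ x) (hx2 : x ≤ T) (ha1 : x ≤ a) (ha2 : T - x ≤ a) (ha3 : a ≤ T) :
    ∫ y in a..T, spl3_G (fun x y _ => (GR A B x + GR A B y - GR A B T) ^ 2) T x y ≤
      ∫ y in a..T, spl3_G (spl3_E2 A B T) y x y := by
  refine intervalIntegral.integral_mono_on (by linarith)
    (spl3_Gy_int (spl3_Nc_cont A B T) continuous_const x _ _)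
    (spl3_Gy_int (spl3_E2_cont A B T) continuous_snd x _ _) ?_
  intro y hy
  have hy1 := hy.1
  have hy2 := hy.2
  refine spl3_G_mono hy2 (by linarith) ?_
  intro z hz1 hz2
  show (GR A B x + GR A B y - GR A B T) ^ 2 = spl3_E A B T x y z ^ 2
  congr 1
  unfold spl3_E
  rw [spl3_gg_lo hx2, spl3_gg_lo hy2, spl3_gg_hi (by linarith : T ≤ z),
    spl3_gg_hi (by linarith : T ≤ x + y), spl3_gg_hi (by linarith : T ≤ x + z),
    spl3_gg_hi (by linarith : T ≤ y + z), spl3_gg_hi (by linarith : T ≤ x + y + z)]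
  ring

/-- the part `x + y ≤ T` -/
theorem spl3_partd {A B T x : ℝ} (h2 : T ≤ 1 / 4)
    (hx1 : 1 / 1000 ≤ x) (hx2 : x ≤ T / 2) :
    ∫ y in x..(T - x), spl3_G (fun x y _ => (B * x * y) ^ 2) T x y ≤
      ∫ y in x..(T - x), spl3_G (spl3_E2 A B T) y x y := by
  refine intervalIntegral.integral_mono_on (by linarith)
    (spl3_Gy_int (spl3_Nd_cont B) continuous_const x _ _)
    (spl3_Gy_int (spl3_E2_cont A B T) continuous_snd x _ _) ?_
  intro y hy
  have hy1 := hy.1
  have hy2 := hy.2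
  refine spl3_G_mono (by linarith) (by linarith) ?_
  intro z hz1 hz2
  show (B * x * y) ^ 2 = spl3_E A B T x y z ^ 2
  unfold spl3_E
  rw [spl3_gg_lo (by linarith : x ≤ T), spl3_gg_lo (by linarith : y ≤ T),
    spl3_gg_hi (by linarith : T ≤ z),
    spl3_gg_lo (by linarith : x + y ≤ T), spl3_gg_hi (by linarith : T ≤ x + z),
    spl3_gg_hi (by linarith : T ≤ y + z), spl3_gg_hi (by linarith : T ≤ x + y + z)]
  unfold GR
  ring

/-- `x y z w ≤ 1/256` -/
theorem spl3_amgm {x y z w : ℝ} (hx : 0 < x) (hy : 0 < y) (hz : 0 < z) (hw : 0 < w)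
    (h : x + y + z + w = 1) : 256 ≤ 1 / (x * y * z * w) := by
  have h1 : x * y ≤ ((x + y) / 2) ^ 2 := by nlinarith [sq_nonneg (x - y)]
  have h2 : z * w ≤ ((z + w) / 2) ^ 2 := by nlinarith [sq_nonneg (z - w)]
  have h3 : (x + y) / 2 * ((z + w) / 2) ≤ 1 / 16 := by
    nlinarith [sq_nonneg ((x + y) - (z + w))]
  have h4 : 0 < (x + y) / 2 * ((z + w) / 2) := by positivity
  have h5 : x * y * z * w ≤ 1 / 256 := by
    calc x * y * z * w = (x * y) * (z * w) := by ring
      _ ≤ ((x + y) / 2) ^ 2 * ((z + w) / 2) ^ 2 := by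
          apply mul_le_mul h1 h2 (by positivity) (by positivity)
      _ = ((x + y) / 2 * ((z + w) / 2)) ^ 2 := by ring
      _ ≤ (1 / 16) ^ 2 := by
          apply pow_le_pow_left₀ h4.le h3
      _ = 1 / 256 := by norm_num
  rw [le_div_iff₀ (by positivity)]
  linarith

/-- the part `T ≤ x` -/
theorem spl3_parta {A B T x : ℝ} (h1 : 1 / 500 ≤ T)
    (hx1 : T ≤ x) (hx2 : x ≤ 1 / 4) :
    GR A B T ^ 2 * ((256 / 12) * (1 - 4 * x) ^ 2) ≤
      ∫ y in x..((1 - x) / 3), spl3_G (spl3_E2 A B T) y x y := by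
  have e : ∫ y in x..((1 - x) / 3), GR A B T ^ 2 * (256 * ((1 - x - 3 * y) / 2))
      = GR A B T ^ 2 * ((256 / 12) * (1 - 4 * x) ^ 2) := by
    have hd : ∀ y ∈ Set.uIcc x ((1 - x) / 3), HasDerivAt
        (fun y => GR A B T ^ 2 * (256 * (-(1 - x - 3 * y) ^ 2 / 12)))
        (GR A B T ^ 2 * (256 * ((1 - x - 3 * y) / 2))) y := by
      intro y _
      have e0 : HasDerivAt (fun y : ℝ => 1 - x - 3 * y) (-3) y := by
        simpa using ((hasDerivAt_id y).const_mul 3).const_sub (1 - x)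
      have e1 := (e0.pow 2).neg.div_const 12
      have e2 := (e1.const_mul (256 : ℝ)).const_mul (GR A B T ^ 2)
      refine e2.congr_deriv ?_
      push_cast
      ring
    have hc : Continuous fun y : ℝ => GR A B T ^ 2 * (256 * ((1 - x - 3 * y) / 2)) := by fun_prop
    rw [intervalIntegral.integral_eq_sub_of_hasDerivAt hd (hc.intervalIntegrable _ _)]
    ring
  rw [← e]
  have hc : Continuous fun y : ℝ => GR A B T ^ 2 * (256 * ((1 - x - 3 * y) / 2)) := by fun_prop
  refine intervalIntegral.integral_mono_on (by linarith)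
    (hc.intervalIntegrable _ _)
    (spl3_Gy_int (spl3_E2_cont A B T) continuous_snd x _ _) ?_
  intro y hy
  have hy1 := hy.1
  have hy2 := hy.2
  show _ ≤ ∫ z in y..((1 - x - y) / 2), spl3_E2 A B T x y z * spl3_k x y z
  have e3 : GR A B T ^ 2 * (256 * ((1 - x - 3 * y) / 2))
      = ∫ _z in y..((1 - x - y) / 2), GR A B T ^ 2 * 256 := by
    rw [intervalIntegral.integral_const, smul_eq_mul]
    ring
  rw [e3]
  refine intervalIntegral.integral_mono_on (by linarith)
    (continuous_const.intervalIntegrable _ _) (spl3_NK_int (spl3_E2_cont A B T) x y _ _) ?_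
  intro z hz
  have hz1 := hz.1
  have hz2 := hz.2
  have e4 : spl3_E A B T x y z = GR A B T := by
    unfold spl3_E
    rw [spl3_gg_hi (by linarith : T ≤ x), spl3_gg_hi (by linarith : T ≤ y),
      spl3_gg_hi (by linarith : T ≤ z),
      spl3_gg_hi (by linarith : T ≤ x + y), spl3_gg_hi (by linarith : T ≤ x + z),
      spl3_gg_hi (by linarith : T ≤ y + z), spl3_gg_hi (by linarith : T ≤ x + y + z)]
    ring
  show GR A B T ^ 2 * 256 ≤ spl3_E A B T x y z ^ 2 * spl3_k x y z
  rw [e4, spl3_k_eq (by linarith) (by linarith) (by linarith) (by linarith)]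
  exact mul_le_mul_of_nonneg_left
    (spl3_amgm (by linarith) (by linarith) (by linarith) (by linarith) (by ring)) (sq_nonneg _)

theorem thm_Spl3 : St_Spl3 := by
  intro A B T h1 h2
  rw [spl3_R3, spl3_P3b A B T h1 h2, spl3_P3c A B T h1 h2, spl3_P3d B T h1 h2,
    ← spl3_Pa T (GR A B T ^ 2)]
  -- continuity
  have cF : Continuous fun x : ℝ => ∫ y in x..((1 - x) / 3),
      spl3_G (spl3_E2 A B T) y x y :=
    spl3_F_cont (spl3_E2_cont A B T) continuous_snd continuous_id (by fun_prop)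
  have cb : Continuous fun x : ℝ => ∫ y in T..((1 - x) / 3),
      spl3_G (fun x _ _ => GR A B x ^ 2) y x y :=
    spl3_F_cont (spl3_Nb_cont A B) continuous_snd continuous_const (by fun_prop)
  have cc1 : Continuous fun x : ℝ => ∫ y in (T - x)..T,
      spl3_G (fun x y _ => (GR A B x + GR A B y - GR A B T) ^ 2) T x y :=
    spl3_F_cont (spl3_Nc_cont A B T) continuous_const (by fun_prop) continuous_const
  have cc2 : Continuous fun x : ℝ => ∫ y in x..T,
      spl3_G (fun x y _ => (GR A B x + GR A B y - GR A B T) ^ 2) T x y :=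
    spl3_F_cont (spl3_Nc_cont A B T) continuous_const continuous_id continuous_const
  have cd : Continuous fun x : ℝ => ∫ y in x..(T - x),
      spl3_G (fun x y _ => (B * x * y) ^ 2) T x y :=
    spl3_F_cont (spl3_Nd_cont B) continuous_const continuous_id (by fun_prop)
  have ca : Continuous fun x : ℝ => GR A B T ^ 2 * ((256 / 12) * (1 - 4 * x) ^ 2) := by fun_prop
  -- splitting
  rw [← intervalIntegral.integral_add_adjacent_intervals (cF.intervalIntegrable (1 / 1000) T)
    (cF.intervalIntegrable T (1 / 4)),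
    ← intervalIntegral.integral_add_adjacent_intervals (cF.intervalIntegrable (1 / 1000) (T / 2))
    (cF.intervalIntegrable (T / 2) T),
    ← intervalIntegral.integral_add_adjacent_intervals (cb.intervalIntegrable (1 / 1000) (T / 2))
    (cb.intervalIntegrable (T / 2) T)]
  have k1 : (∫ x in (1 / 1000 : ℝ)..(T / 2), ∫ y in x..(T - x),
        spl3_G (fun x y _ => (B * x * y) ^ 2) T x y) +
      (∫ x in (1 / 1000 : ℝ)..(T / 2), ∫ y in (T - x)..T,
        spl3_G (fun x y _ => (GR A B x + GR A B y - GR A B T) ^ 2) T x y) +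
      (∫ x in (1 / 1000 : ℝ)..(T / 2), ∫ y in T..((1 - x) / 3),
        spl3_G (fun x _ _ => GR A B x ^ 2) y x y) ≤
      ∫ x in (1 / 1000 : ℝ)..(T / 2), ∫ y in x..((1 - x) / 3),
        spl3_G (spl3_E2 A B T) y x y := by
    rw [← intervalIntegral.integral_add (cd.intervalIntegrable _ _) (cc1.intervalIntegrable _ _)]
    have cdc : Continuous fun x : ℝ => (∫ y in x..(T - x),
        spl3_G (fun x y _ => (B * x * y) ^ 2) T x y) + ∫ y in (T - x)..T,
        spl3_G (fun x y _ => (GR A B x + GR A B y - GR A B T) ^ 2) T x y := cd.add cc1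
    rw [← intervalIntegral.integral_add (cdc.intervalIntegrable _ _)
        (cb.intervalIntegrable _ _)]
    refine intervalIntegral.integral_mono_on (by linarith)
      ((cdc.add cb).intervalIntegrable _ _) (cF.intervalIntegrable _ _) ?_
    intro x hx
    have hx1 := hx.1
    have hx2 := hx.2
    have i := fun a b => spl3_Gy_int (spl3_E2_cont A B T) continuous_snd x a b
    have e1 := intervalIntegral.integral_add_adjacent_intervals (i x (T - x)) (i (T - x) T)
    have e2 := intervalIntegral.integral_add_adjacent_intervals (i x T) (i T ((1 - x) / 3))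
    have p1 := spl3_partd (A := A) (B := B) h2 hx1 hx2
    have p2 := spl3_partc (A := A) (B := B) (a := T - x) h2 hx1 (by linarith) (by linarith)
      le_rfl (by linarith)
    have p3 := spl3_partb (A := A) (B := B) h1 h2 hx1 (by linarith)
    dsimp only at e1 e2 p1 p2 p3 ⊢
    linarith
  have k2 : (∫ x in (T / 2)..T, ∫ y in x..T,
        spl3_G (fun x y _ => (GR A B x + GR A B y - GR A B T) ^ 2) T x y) +
      (∫ x in (T / 2)..T, ∫ y in T..((1 - x) / 3),
        spl3_G (fun x _ _ => GR A B x ^ 2) y x y) ≤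
      ∫ x in (T / 2)..T, ∫ y in x..((1 - x) / 3),
        spl3_G (spl3_E2 A B T) y x y := by
    rw [← intervalIntegral.integral_add (cc2.intervalIntegrable _ _) (cb.intervalIntegrable _ _)]
    refine intervalIntegral.integral_mono_on (by linarith)
      ((cc2.add cb).intervalIntegrable _ _) (cF.intervalIntegrable _ _) ?_
    intro x hx
    have hx1 := hx.1
    have hx2 := hx.2
    have i := fun a b => spl3_Gy_int (spl3_E2_cont A B T) continuous_snd x a b
    have e2 := intervalIntegral.integral_add_adjacent_intervals (i x T) (i T ((1 - x) / 3))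
    have p2 := spl3_partc (A := A) (B := B) (a := x) h2 (by linarith) hx2 le_rfl
      (by linarith) hx2
    have p3 := spl3_partb (A := A) (B := B) h1 h2 (by linarith) hx2
    dsimp only at e2 p2 p3 ⊢
    linarith
  have k3 : (∫ x in T..(1 / 4), GR A B T ^ 2 * ((256 / 12) * (1 - 4 * x) ^ 2)) ≤
      ∫ x in T..(1 / 4), ∫ y in x..((1 - x) / 3),
        spl3_G (spl3_E2 A B T) y x y := by
    refine intervalIntegral.integral_mono_on h2 (ca.intervalIntegrable _ _)
      (cF.intervalIntegrable _ _) ?_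
    intro x hx
    exact spl3_parta h1 hx.1 hx.2
  linarith

end Pool.Agent.PTN
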