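import Pool.Agent.PTN.FinG
import Pool.Agent.PTN.FinA
import Pool.Agent.PTN.CertC0
import Pool.Agent.PTN.CertC1
import Pool.Agent.PTN.CertC2
import Pool.Agent.PTN.CertC3
import Pool.Agent.PTN.CertC4
import Pool.Agent.PTN.CertC5
import Pool.Agent.PTN.CertC6
import Pool.Agent.PTN.QF
import Pool.Agent.PTN.HB
import Pool.Agent.PTN.Hh
import Pool.Agent.PTN.II
import Pool.Agent.PTN.Swap
import Pool.Agent.PTN.DDm
import Pool.Agent.PTN.DD1
import Pool.Agent.PTN.DD2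
import Pool.Agent.PTN.DD3
import Pool.Agent.PTN.Cont
import Pool.Agent.PTN.Cont3
import Pool.Agent.PTN.Ser
import Pool.Agent.PTN.Low1
import Pool.Agent.PTN.Spl2
import Pool.Agent.PTN.Spl3
import Pool.Agent.PTN.Low2a
import Pool.Agent.PTN.Low2b
import Pool.Agent.PTN.Low2d
import Pool.Agent.PTN.Low3b
import Pool.Agent.PTN.Out

set_option autoImplicit false

/-!
# PTN: the numerical inequality for C
-/

namespace Pool.Agent.PTN

open MeasureTheory Pool.Agent.PT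

theorem numc_log4 : ((LC : ℚ) : ℝ) ≤ Real.log 4 := by
  have h1 : (4 : ℝ) = 2 * 2 := by norm_num
  rw [h1, Real.log_mul (by norm_num) (by norm_num)]
  have h2 := Real.log_two_gt_d9
  rw [LC]
  push_cast
  norm_num
  linarith

theorem numc_log : ((LC : ℚ) : ℝ) ≤ Real.log (1 / ((rC : ℚ) : ℝ)) := by
  have h1 : (1 / ((rC : ℚ) : ℝ)) = 4 := by rw [rC]; push_cast; norm_num
  rw [h1]
  exact numc_log4

/-- lower bound for `R2 + R3` -/
def f2C (A B T : Q2) : Q2 :=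
  Ops.add (Ops.add (Ops.add (Ops.add (Ops.add (Ops.add (gA A B T) (gB A B T)) (gC A B T))
    (gD A B T)) (gE A B T)) (gF A B T)) (gG A B T)

theorem numc_R1 (ev : Q2 → ℝ) (h : Hom ev) (A B T : Q2)
    (h1 : (rC : ℝ) - SC ≤ ev T) (h2 : ev T ≤ rC) : ev (f1C A B T) ≤ R1 (ev A) (ev B) (ev T) := by
  rw [f1C, h.add]
  refine thm_Low1 thm_Ser Q2 _ ev h rC LC 10 5 5 A B T (by norm_num [rC]) (by norm_num [rC])
    numc_log (by norm_num) (le_trans ?_ h1) h2
  norm_num [rC, SC]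

theorem numc_R23 (ev : Q2 → ℝ) (h : Hom ev) (A B T : Q2)
    (h1 : (rC : ℝ) - SC ≤ ev T) (h2 : ev T ≤ rC) :
    ev (f2C A B T) ≤ R2 (ev A) (ev B) (ev T) + R3 (ev A) (ev B) (ev T) := by
  have hT : (1 / 500 : ℝ) ≤ ev T := le_trans (by norm_num [rC, SC]) h1
  have hr : (0 : ℚ) < rC := by norm_num [rC]
  have hr3 : rC ≤ 1 / 3 := by norm_num [rC]
  have hr4 : rC ≤ 1 / 4 := by norm_num [rC]
  have hT3 : ev T ≤ 1 / 3 := h2.trans (by norm_num [rC])
  have hT4 : ev T ≤ 1 / 4 := h2.trans (by norm_num [rC])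
  have s2 := thm_Spl2 (ev A) (ev B) (ev T) hT hT3
  have s3 := thm_Spl3 (ev A) (ev B) (ev T) hT hT4
  have a := thm_Low2a thm_Ser Q2 _ ev h rC LC 8 8 12 5 T hr hr3 numc_log (by norm_num) hT h2
  have h3 := comp_hom (ev A) (ev B) (ev T)
  have e3 := comp_T3 (ev A) (ev B) (ev T)
  have hT' : (1 / 500 : ℝ) ≤ ev3 (ev A) (ev B) (ev T) T3 := by rw [e3]; exact hT
  have hT'' : ev3 (ev A) (ev B) (ev T) T3 ≤ rC := by rw [e3]; exact h2
  have hT4' : ev3 (ev A) (ev B) (ev T) T3 ≤ 1 / 4 := by rw [e3]; exact hT4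
  have b := thm_Low2b thm_Ser Q3 _ (ev3 (ev A) (ev B) (ev T)) h3 rC LC 8 7 4 A3 B3 T3 hr hr3
    numc_log (by norm_num) hT' hT''
  have c := thm_Low3b thm_Ser Q3 _ (ev3 (ev A) (ev B) (ev T)) h3 LC 7 7 7 3 A3 B3 T3
    numc_log4 (by norm_num) hT' hT4'
  have d := thm_Low2d thm_Ser Q3 _ (ev3 (ev A) (ev B) (ev T)) h3 rC LC 1 1 5 5 2 B3 T3 hr hr3
    (Or.inr hr4) numc_log (by norm_num) (by norm_num) (by norm_num) hT' hT''
  have e := thm_Low2c thm_Ser Q3 _ (ev3 (ev A) (ev B) (ev T)) h3 rC LC 1 1 5 5 2 (5 / 2 / rC)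
    (8 / 5 / rC) 5 3 A3 B3 T3 hr hr3 (Or.inr hr4) numc_log (by norm_num) (by norm_num)
    (by norm_num) (by norm_num [rC]) (by norm_num [rC]) (by norm_num [rC]) (by decide)
    (by decide) (by decide +kernel) hT' hT''
  rw [comp_A3, comp_B3, comp_T3] at b c e
  rw [comp_B3, comp_T3] at d
  have q := quad_eq rC LC 1 1 5 5 2 (5 / 2 / rC) (8 / 5 / rC) 5 3 (ev A) (ev B) (ev T)
  have v0 : ev (q0 A B T) = GR (ev A) (ev B) (ev T) ^ 2 := by
    simp only [q0, GP, h.mul, h.add, h.sc, GR]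
    push_cast
    ring
  have v3 : ev (p3a T) = 16 / 9 * (1 - 4 * ev T) ^ 3 := by
    simp only [p3a, h.mul, h.hsub, h.sc, h.one]
    push_cast
    ring
  rw [f2C, h.add, h.add, h.add, h.add, h.add, h.add, gA, h.mul, h.add, v0, v3, gB, comp_ev h,
    gC, comp_ev h, gD, comp_ev h, gE, h.mul, h.mul, h.hatQ, gF, h.mul, h.mul, h.sc, h.hatQ,
    gG, h.mul, h.mul, h.hatQ]
  have := mul_le_mul_of_nonneg_left a (sq_nonneg (GR (ev A) (ev B) (ev T)))
  unfold evQ at q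
  push_cast at d e ⊢
  linarith

/-- the inequality for the double integrals -/
theorem numc_main :
    2 * II (FP (51 / 50) (7 / 10) (1 / 4)) (1 / 4) <
      3 * (∫ a in (0 : ℝ)..(49 / 200), ∫ b in (0 : ℝ)..(49 / 200 - a),
        R0 (Aab (51 / 50) (7 / 10) (1 / 4) a b) (Bab (51 / 50) (7 / 10) (1 / 4) a b)
          (1 / 4 - max a b)) +
      2 * (∫ a in (0 : ℝ)..(49 / 200), ∫ b in (0 : ℝ)..(49 / 200 - a),
        R1 (Aab (51 / 50) (7 / 10) (1 / 4) a b) (Bab (51 / 50) (7 / 10) (1 / 4) a b)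
          (1 / 4 - max a b)) +
      2 * (∫ a in (0 : ℝ)..(49 / 200), ∫ b in (0 : ℝ)..(49 / 200 - a),
        (R2 (Aab (51 / 50) (7 / 10) (1 / 4) a b) (Bab (51 / 50) (7 / 10) (1 / 4) a b)
          (1 / 4 - max a b) +
        R3 (Aab (51 / 50) (7 / 10) (1 / 4) a b) (Bab (51 / 50) (7 / 10) (1 / 4) a b)
          (1 / 4 - max a b))) := by
  have hS : (0 : ℚ) < SC := by norm_num [SC]
  have a0 := fing_out thm_Out (51 / 50) (7 / 10) rC SC q0 R0 hS fina_cont0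
    (fun ev h A B T _ _ => (fina_q0 ev h A B T).le)
  have a1 := fing_out thm_Out (51 / 50) (7 / 10) rC SC f1C R1 hS thm_Cont.1 numc_R1
  have a2 := fing_out thm_Out (51 / 50) (7 / 10) rC SC f2C (fun A B T => R2 A B T + R3 A B T) hS
    (thm_Cont.2.add thm_Cont3) numc_R23
  have a3 := fing_II thm_Out thm_II (51 / 50) (7 / 10) rC (by norm_num [rC])
  have add : outF (51 / 50) (7 / 10) rC SC f2C =
      oC gA + oC gB + oC gC + oC gD + oC gE + oC gF + oC gG := by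
    unfold f2C oC
    rw [quad_outF_add, quad_outF_add, quad_outF_add, quad_outF_add, quad_outF_add, quad_outF_add]
  have c : (-(2 * outF (51 / 50) (7 / 10) rC rC qN) : ℚ) <
      3 * outF (51 / 50) (7 / 10) rC SC q0 + 2 * outF (51 / 50) (7 / 10) rC SC f1C +
      2 * outF (51 / 50) (7 / 10) rC SC f2C := by
    rw [add]
    have i := certC_I
    have i0 := certC_0
    have i1 := certC_1
    have iA := certC_A
    have iB := certC_B
    have iC := certC_C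
    have iD := certC_D
    have iE := certC_E
    have iF := certC_F
    have iG := certC_G
    unfold oC at i0 i1
    linarith
  have c' : ((-(2 * outF (51 / 50) (7 / 10) rC rC qN) : ℚ) : ℝ) <
      ((3 * outF (51 / 50) (7 / 10) rC SC q0 + 2 * outF (51 / 50) (7 / 10) rC SC f1C +
      2 * outF (51 / 50) (7 / 10) rC SC f2C : ℚ) : ℝ) := by
    exact_mod_cast c
  have e1 : ((rC : ℚ) : ℝ) = 1 / 4 := by norm_num [rC]
  have e2 : ((SC : ℚ) : ℝ) = 49 / 200 := by norm_num [SC]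
  have e3 : (((51 / 50 : ℚ)) : ℝ) = 51 / 50 := by norm_num
  have e4 : (((7 / 10 : ℚ)) : ℝ) = 7 / 10 := by norm_num
  rw [e1, e2, e3, e4] at a0 a1 a2
  rw [e1, e3, e4] at a3
  push_cast at c'
  linarith

theorem numc_add (σ : ℝ) (f g : ℝ → ℝ → ℝ) (hf : Continuous (fun q : ℝ × ℝ => f q.1 q.2))
    (hg : Continuous (fun q : ℝ × ℝ => g q.1 q.2)) :
    (∫ a in (0 : ℝ)..σ, ∫ b in (0 : ℝ)..(σ - a), f a b) +
      (∫ a in (0 : ℝ)..σ, ∫ b in (0 : ℝ)..(σ - a), g a b) =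
    ∫ a in (0 : ℝ)..σ, ∫ b in (0 : ℝ)..(σ - a), (f a b + g a b) := by
  have k2 := low2c_cont hf (lo := fun _ => (0 : ℝ)) (hi := fun a => σ - a) (by fun_prop)
    (by fun_prop)
  have k3 := low2c_cont hg (lo := fun _ => (0 : ℝ)) (hi := fun a => σ - a) (by fun_prop)
    (by fun_prop)
  rw [← intervalIntegral.integral_add (k2.intervalIntegrable _ _) (k3.intervalIntegrable _ _)]
  refine intervalIntegral.integral_congr fun a _ => ?_
  have d2 : Continuous (f a) := hf.comp (continuous_const.prodMk continuous_id)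
  have d3 : Continuous (g a) := hg.comp (continuous_const.prodMk continuous_id)
  exact (intervalIntegral.integral_add (d2.intervalIntegrable _ _)
    (d3.intervalIntegrable _ _)).symm

theorem numc_QQ (c e ρ σ : ℝ) (hσ : 0 < σ) (hσρ : σ ≤ ρ) (hρ : ρ ≤ 1 / 4) (j : Fin 3) :
    QQ (FP c e ρ) ρ σ j 2 + QQ (FP c e ρ) ρ σ j 3 =
    ∫ a in (0 : ℝ)..σ, ∫ b in (0 : ℝ)..(σ - a),
        (R2 (Aab c e ρ a b) (Bab c e ρ a b) (ρ - max a b) +
          R3 (Aab c e ρ a b) (Bab c e ρ a b) (ρ - max a b)) := by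
  obtain ⟨-, -, h2, h3⟩ := thm_QQ (thm_hB thm_hh) thm_Swap thm_DDm thm_DD1 thm_DD2 thm_DD3
    c e ρ σ j hσ hσρ
  rw [h2 (by linarith), h3 hρ]
  exact numc_add σ (fun a b => R2 (Aab c e ρ a b) (Bab c e ρ a b) (ρ - max a b))
    (fun a b => R3 (Aab c e ρ a b) (Bab c e ρ a b) (ρ - max a b))
    (fing_cont c e ρ R2 thm_Cont.2) (fing_cont c e ρ R3 thm_Cont3)

theorem thm_NumC : 2 * II (FP (51 / 50) (7 / 10) (1 / 4)) (1 / 4) <
    3 * QQ (FP (51 / 50) (7 / 10) (1 / 4)) (1 / 4) (49 / 200) 0 0 +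
      2 * (QQ (FP (51 / 50) (7 / 10) (1 / 4)) (1 / 4) (49 / 200) 0 1 +
        QQ (FP (51 / 50) (7 / 10) (1 / 4)) (1 / 4) (49 / 200) 0 2 +
        QQ (FP (51 / 50) (7 / 10) (1 / 4)) (1 / 4) (49 / 200) 0 3) := by
  obtain ⟨a, b, -, -⟩ := thm_QQ (thm_hB thm_hh) thm_Swap thm_DDm thm_DD1 thm_DD2 thm_DD3
    (51 / 50) (7 / 10) (1 / 4) (49 / 200) 0 (by norm_num) (by norm_num)
  have h := numc_main
  rw [← a (by norm_num), ← b (by norm_num), ← numc_QQ (51 / 50) (7 / 10) (1 / 4) (49 / 200)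
    (by norm_num) (by norm_num) le_rfl 0] at h
  linarith

end Pool.Agent.PTN
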