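import Pool.Agent.PTN.Comp
import Pool.Agent.PTN.Low2c

set_option autoImplicit false

/-!
# PTN: `p2c` as a quadratic form in `A`, `B` with coefficients in `ℚ[T]`, additivity of `outV`
-/

namespace Pool.Agent.PTN

open MeasureTheory

section
variable {α : Type} [Ops α]

/-- `x + z - T` -/
def e1c (T : α) : List (List α) := sub (Ops.add xx zz) (CC (CC T))

/-- `(x² + z² - T²)/2` -/
def e2d (T : α) : List (List α) :=
  Ops.sc (1 / 2) (sub (Ops.add (Ops.mul xx xx) (Ops.mul zz zz)) (CC (CC (Ops.mul T T))))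

/-- the weight -/
def w2 (r L w₀ w₁ : ℚ) (n m K : ℕ) (cx cz : ℚ) (kx kz : ℕ) (T : α) : List (List α) :=
  Ops.mul (Ops.mul (Ops.mul (iv cz kz zz) (atQ (ge K) (Ops.add xx zz))) (iv cx kx xx))
    (lw r L w₀ w₁ n m T)

/-- integration over the two regions -/
def int2 (p : List (List α)) (T : α) : α :=
  Ops.add (intg (intg p (sub (CC T) XX) (CC T)) (kk (1 / 1000)) (Ops.sc (1 / 2) T))
    (intg (intg p XX (CC T)) (Ops.sc (1 / 2) T) T)

end

/-- the same for functions -/
noncomputable def quad_I (T : ℝ) (f : ℝ → ℝ → ℝ) : ℝ :=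
  (∫ x in (1 / 1000 : ℝ)..(T / 2), ∫ z in (T - x)..T, f x z) +
    ∫ x in (T / 2)..T, ∫ z in x..T, f x z

theorem quad_int2 {α : Type} [Ops α] {ev : α → ℝ} (h : Hom ev) (p : List (List α)) (T : α) :
    ev (int2 p T) = quad_I (ev T) fun x z => evL (evL ev x) z p := by
  unfold int2 quad_I
  rw [h.add, ← integral_evL h, ← integral_evL h]
  have e1 : ∀ x : ℝ, evL ev x (intg p (sub (CC T) XX) (CC T)) =
      ∫ z in (ev T - x)..(ev T), evL (evL ev x) z p := by
    intro x
    rw [← integral_evL (h.list x), (h.list x).hsub, evL_CC, h.hXX]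
  have e2 : ∀ x : ℝ, evL ev x (intg p XX (CC T)) = ∫ z in x..(ev T), evL (evL ev x) z p := by
    intro x
    rw [← integral_evL (h.list x), evL_CC, h.hXX]
  simp only [e1, e2]
  rw [h.hkk, h.sc]
  have e3 : ((1 / 2 : ℚ) : ℝ) * ev T = ev T / 2 := by push_cast; ring
  have e4 : ((1 / 1000 : ℚ) : ℝ) = 1 / 1000 := by push_cast; ring
  rw [e3, e4]

theorem quad_add (T : ℝ) (f g : ℝ → ℝ → ℝ) (hf : Continuous (fun q : ℝ × ℝ => f q.1 q.2))
    (hg : Continuous (fun q : ℝ × ℝ => g q.1 q.2)) :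
    quad_I T (fun x z => f x z + g x z) = quad_I T f + quad_I T g := by
  have cf : ∀ x, Continuous (f x) := fun x => hf.comp (continuous_const.prodMk continuous_id)
  have cg : ∀ x, Continuous (g x) := fun x => hg.comp (continuous_const.prodMk continuous_id)
  have h1 : ∀ x lo hi : ℝ, ∫ z in lo..hi, (f x z + g x z) =
      (∫ z in lo..hi, f x z) + ∫ z in lo..hi, g x z := fun x lo hi =>
    intervalIntegral.integral_add ((cf x).intervalIntegrable _ _) ((cg x).intervalIntegrable _ _)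
  unfold quad_I
  simp only [h1]
  have c1 : ∀ k : ℝ → ℝ → ℝ, Continuous (fun q : ℝ × ℝ => k q.1 q.2) →
      Continuous (fun x => ∫ z in (T - x)..T, k x z) := fun k hk =>
    low2c_cont hk (lo := fun x => T - x) (hi := fun _ => T) (by fun_prop) (by fun_prop)
  have c2 : ∀ k : ℝ → ℝ → ℝ, Continuous (fun q : ℝ × ℝ => k q.1 q.2) →
      Continuous (fun x => ∫ z in x..T, k x z) := fun k hk =>
    low2c_cont hk (lo := fun x => x) (hi := fun _ => T) (by fun_prop) (by fun_prop)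
  rw [intervalIntegral.integral_add ((c1 f hf).intervalIntegrable _ _)
      ((c1 g hg).intervalIntegrable _ _),
    intervalIntegral.integral_add ((c2 f hf).intervalIntegrable _ _)
      ((c2 g hg).intervalIntegrable _ _)]
  ring

theorem quad_smul (T c : ℝ) (f : ℝ → ℝ → ℝ) :
    quad_I T (fun x z => c * f x z) = c * quad_I T f := by
  unfold quad_I
  simp only [intervalIntegral.integral_const_mul]
  ring

theorem quad_xx {α : Type} [Ops α] {ev : α → ℝ} (h : Hom ev) (x z : ℝ) :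
    evL (evL ev x) z (xx : List (List α)) = x := by
  unfold xx
  rw [evL_cons, evL_nil, h.hXX x]
  ring

theorem quad_zz {α : Type} [Ops α] {ev : α → ℝ} (h : Hom ev) (x z : ℝ) :
    evL (evL ev x) z (zz : List (List α)) = z := (h.list x).hXX z

theorem quad_e1 {α : Type} [Ops α] {ev : α → ℝ} (h : Hom ev) (T : α) (x z : ℝ) :
    evL (evL ev x) z (e1c T) = x + z - ev T := by
  have H := (h.list x).list z
  unfold e1c
  rw [H.hsub, H.add, quad_xx h, quad_zz h, evL_CC, evL_CC]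

theorem quad_e2 {α : Type} [Ops α] {ev : α → ℝ} (h : Hom ev) (T : α) (x z : ℝ) :
    evL (evL ev x) z (e2d T) = (x ^ 2 + z ^ 2 - ev T ^ 2) / 2 := by
  have H := (h.list x).list z
  unfold e2d
  rw [H.sc, H.hsub, H.add, H.mul, H.mul, quad_xx h, quad_zz h, evL_CC, evL_CC, h.mul]
  push_cast
  ring

theorem quad_w2 {α : Type} [Ops α] {ev : α → ℝ} (h : Hom ev) (r L w₀ w₁ : ℚ) (n m K : ℕ)
    (cx cz : ℚ) (kx kz : ℕ) (T : α) (x z : ℝ) :
    evL (evL ev x) z (w2 r L w₀ w₁ n m K cx cz kx kz T) =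
      evL (evL ev x) z (lw r L w₀ w₁ n m T) * evL (evL ev x) z (iv cx kx (xx : List (List α))) *
        evL (evL ev x) z (iv cz kz (zz : List (List α))) * evQ (x + z) (ge K) := by
  have H := (h.list x).list z
  unfold w2
  rw [H.mul, H.mul, H.mul, H.hatQ, H.add, quad_xx h, quad_zz h]
  unfold evQ
  ring

section
variable (r L w₀ w₁ : ℚ) (n m K : ℕ) (cx cz : ℚ) (kx kz : ℕ)

/-- coefficient of `A²` -/
def qP : List ℚ := int2 (Ops.mul (e1c XX) (Ops.mul (e1c XX) (w2 r L w₀ w₁ n m K cx cz kx kz XX))) XX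

/-- half the coefficient of `AB` -/
def qQ : List ℚ := int2 (Ops.mul (e2d XX) (Ops.mul (e1c XX) (w2 r L w₀ w₁ n m K cx cz kx kz XX))) XX

/-- coefficient of `B²` -/
def qR : List ℚ := int2 (Ops.mul (e2d XX) (Ops.mul (e2d XX) (w2 r L w₀ w₁ n m K cx cz kx kz XX))) XX

end

/-- the value of the weight depends only on the value of `T` -/
theorem quad_lw {α β : Type} [Ops α] [Ops β] {ev : α → ℝ} {ev' : β → ℝ} (h : Hom ev)
    (h' : Hom ev') (r L w₀ w₁ : ℚ) (n m : ℕ) (T : α) (T' : β) (hT : ev T = ev' T') (x z : ℝ) :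
    evL (evL ev x) z (lw r L w₀ w₁ n m T) = evL (evL ev' x) z (lw r L w₀ w₁ n m T') := by
  have H := (h.list x).list z
  have H' := (h'.list x).list z
  unfold lw
  split_ifs with hw
  · rw [H.hkk, H'.hkk]
  · simp only [H.add, H'.add, H.hkk, H'.hkk, H.sc, H'.sc, evL_CC, H.hatQ, H'.hatQ, quad_xx h,
      quad_xx h', quad_zz h, quad_zz h', hT, LT, h.add, h'.add, h.hkk, h'.hkk, h.hatQ, h'.hatQ,
      h.hsub, h'.hsub, h.one, h'.one, h.sc, h'.sc]

theorem quad_ivx {α β : Type} [Ops α] [Ops β] {ev : α → ℝ} {ev' : β → ℝ} (h : Hom ev)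
    (h' : Hom ev') (c : ℚ) (k : ℕ) (x z : ℝ) :
    evL (evL ev x) z (iv c k (xx : List (List α))) =
      evL (evL ev' x) z (iv c k (xx : List (List β))) := by
  have H := (h.list x).list z
  have H' := (h'.list x).list z
  unfold iv
  simp only [H.sc, H'.sc, H.hatQ, H'.hatQ, H.hsub, H'.hsub, H.one, H'.one, quad_xx h, quad_xx h']

theorem quad_ivz {α β : Type} [Ops α] [Ops β] {ev : α → ℝ} {ev' : β → ℝ} (h : Hom ev)
    (h' : Hom ev') (c : ℚ) (k : ℕ) (x z : ℝ) :
    evL (evL ev x) z (iv c k (zz : List (List α))) =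
      evL (evL ev' x) z (iv c k (zz : List (List β))) := by
  have H := (h.list x).list z
  have H' := (h'.list x).list z
  unfold iv
  simp only [H.sc, H'.sc, H.hatQ, H'.hatQ, H.hsub, H'.hsub, H.one, H'.one, quad_zz h, quad_zz h']

/-- the quadratic form -/
theorem quad_eq (r L w₀ w₁ : ℚ) (n m K : ℕ) (cx cz : ℚ) (kx kz : ℕ) (A B T : ℝ) :
    A ^ 2 * evQ T (qP r L w₀ w₁ n m K cx cz kx kz) +
      2 * A * B * evQ T (qQ r L w₀ w₁ n m K cx cz kx kz) +
      B ^ 2 * evQ T (qR r L w₀ w₁ n m K cx cz kx kz) =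
    ev3 A B T (p2c r L w₀ w₁ n m K cx cz kx kz A3 B3 T3) := by
  have h1 : Hom (evL (fun q : ℚ => (q : ℝ)) T) := Hom.rat.list T
  have h3 := comp_hom A B T
  have hX : evL (fun q : ℚ => (q : ℝ)) T (XX : List ℚ) = T := Hom.rat.hXX T
  have e3 : ev3 A B T (p2c r L w₀ w₁ n m K cx cz kx kz A3 B3 T3) =
      quad_I T fun x z => evL (evL (ev3 A B T) x) z (e2c r L w₀ w₁ n m K cx cz kx kz A3 B3 T3) := by
    have := quad_int2 h3 (e2c r L w₀ w₁ n m K cx cz kx kz A3 B3 T3) T3
    rw [comp_T3] at this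
    exact this
  rw [e3]
  unfold evQ qP qQ qR
  rw [quad_int2 h1, quad_int2 h1, quad_int2 h1, hX, ← quad_smul, ← quad_smul, ← quad_smul,
    ← quad_add, ← quad_add]
  · congr 1
    funext x z
    have H1 := (h1.list x).list z
    rw [low2c_val h3, comp_A3, comp_B3, comp_T3]
    simp only [H1.mul, quad_e1 h1, quad_e2 h1, quad_w2 h1, hX]
    rw [quad_lw h1 h3 r L w₀ w₁ n m XX T3 (by rw [hX, comp_T3]) x z, quad_ivx h1 h3 cx kx x z,
      quad_ivz h1 h3 cz kz x z]
    unfold GR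
    ring
  · exact (continuous_const.mul (low2c_contP _ _)).add (continuous_const.mul (low2c_contP _ _))
  · exact continuous_const.mul (low2c_contP _ _)
  · exact continuous_const.mul (low2c_contP _ _)
  · exact continuous_const.mul (low2c_contP _ _)

/-! ### Additivity -/

theorem quad_intg_add {α : Type} [Ops α] {ev : α → ℝ} (h : Hom ev) (p q : List α) (lo hi : α) :
    ev (intg (Ops.add p q) lo hi) = ev (intg p lo hi) + ev (intg q lo hi) := by
  rw [← integral_evL h, ← integral_evL h, ← integral_evL h, ← intervalIntegral.integral_add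
    ((continuous_evL ev p).intervalIntegrable _ _) ((continuous_evL ev q).intervalIntegrable _ _)]
  congr 1
  funext x
  exact (h.list x).add p q

theorem quad_intg_congr {α : Type} [Ops α] {ev : α → ℝ} (h : Hom ev) (p q : List α) (lo hi : α)
    (he : ∀ x, evL ev x p = evL ev x q) : ev (intg p lo hi) = ev (intg q lo hi) := by
  rw [← integral_evL h, ← integral_evL h]
  congr 1
  funext x
  exact he x

theorem quad_outV_add (S : ℚ) (P₁ P₂ Q₁ Q₂ : Q2) :
    outV S (Ops.add P₁ Q₁) (Ops.add P₂ Q₂) = outV S P₁ P₂ + outV S Q₁ Q₂ := by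
  have key : ((outV S (Ops.add P₁ Q₁) (Ops.add P₂ Q₂) : ℚ) : ℝ) =
      ((outV S P₁ P₂ : ℚ) : ℝ) + ((outV S Q₁ Q₂ : ℚ) : ℝ) := by
    have H := Hom.rat
    have a1 : ∀ (lo hi : List ℚ) (P Q : Q2) (x : ℝ),
        evL (fun q : ℚ => (q : ℝ)) x (intg (Ops.add P Q) lo hi) =
        evL (fun q : ℚ => (q : ℝ)) x (intg P lo hi) + evL (fun q : ℚ => (q : ℝ)) x (intg Q lo hi) :=
      fun lo hi P Q x => quad_intg_add (H.list x) P Q lo hi
    unfold outV
    push_cast
    have b1 := quad_intg_congr H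
      (Ops.add (intg (Ops.add P₁ Q₁) Ops.zero [0, 1]) (intg (Ops.add P₂ Q₂) [0, 1] [S, -1]) : List ℚ)
      (Ops.add (Ops.add (intg P₁ Ops.zero [0, 1]) (intg P₂ [0, 1] [S, -1]))
        (Ops.add (intg Q₁ Ops.zero [0, 1]) (intg Q₂ [0, 1] [S, -1])) : List ℚ) 0 (S / 2) (by
          intro x
          simp only [(H.list x).add, a1]
          ring)
    have b2 := quad_intg_congr H (intg (Ops.add P₁ Q₁) Ops.zero [S, -1] : List ℚ)
      (Ops.add (intg P₁ Ops.zero [S, -1]) (intg Q₁ Ops.zero [S, -1]) : List ℚ) (S / 2) S (by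
          intro x
          simp only [(H.list x).add, a1])
    have c1 := quad_intg_add H (Ops.add (intg P₁ Ops.zero [0, 1]) (intg P₂ [0, 1] [S, -1]) : List ℚ)
      (Ops.add (intg Q₁ Ops.zero [0, 1]) (intg Q₂ [0, 1] [S, -1]) : List ℚ) 0 (S / 2)
    have c2 := quad_intg_add H (intg P₁ Ops.zero [S, -1] : List ℚ)
      (intg Q₁ Ops.zero [S, -1] : List ℚ) (S / 2) S
    rw [b1, b2, c1, c2]
    ring
  exact_mod_cast key

theorem quad_outF_add (c e r S : ℚ) (φ ψ : Q2 → Q2 → Q2 → Q2) :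
    outF c e r S (fun A B T => Ops.add (φ A B T) (ψ A B T)) = outF c e r S φ + outF c e r S ψ := by
  unfold outF
  exact quad_outV_add S _ _ _ _

end Pool.Agent.PTN
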