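import Pool.Agent.PTN.Defs

set_option autoImplicit false

/-!
# PTN: statements of the modules (proofs in the docstrings)

Module `X` is the file `Pool/Agent/PTN/X` with `theorem thm_X : St_X` (namespace `Pool.Agent.PTN`).
-/

namespace Pool.Agent.PTN

open MeasureTheory Pool.Agent.PT

/-! ### Profile -/

/-- `FP` is a profile.  `K = 1 + 3|c| + 3|e| + (|c| + 2|e|)/ρ`; on the region `0 ≤ a i ≤ ρ`. -/
def St_Prof : Prop := ∀ c e ρ : ℝ, 0 < ρ → ∃ K, Prof ρ K (FP c e ρ)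

/-- For `a, b ≥ 0`, `a + b ≤ ρ` and real `t`: `FP (cor j a b t) = A + B t` if `0 ≤ t ≤ T`, else `0`
(`Reg`: `a + t ≤ ρ` and `b + t ≤ ρ` iff `t ≤ ρ - max a b`; check `j = 0, 1, 2` by cases, `e₂ = ab +
(a+b) t`).  So `∫_u^ρ` (`0 ≤ u`) is `∫_u^T (A + B t)` if `u ≤ T` (note `T ≤ ρ`) and `0` if `u > T`
(also for `u > ρ`, the integrand vanishes). -/
def St_hh : Prop := ∀ (c e ρ : ℝ) (j : Fin 3) (a b u : ℝ), 0 < ρ → 0 ≤ a → 0 ≤ b → a + b ≤ ρ →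
  0 ≤ u →
  hh (FP c e ρ) ρ j a b u =
    GR (Aab c e ρ a b) (Bab c e ρ a b) (ρ - max a b) -
      gg (Aab c e ρ a b) (Bab c e ρ a b) (ρ - max a b) u

/-- Explicit forms of `hB` for `n = 0, 1, 2, 3` (from `St_hh`; the constants cancel for `n ≥ 1`, for
`n = 0` use `gg A B T 0 = 0`).  The sum over `Finset (Fin n)` by `Fin.sum_univ..`/`simp [Finset.sum]`,
or `Finset.univ = Finset.powerset ..` and `decide`. -/
def St_hB : Prop := ∀ (c e ρ : ℝ) (j : Fin 3) (a b : ℝ), 0 < ρ → 0 ≤ a → 0 ≤ b → a + b ≤ ρ →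
  (∀ u : Fin 0 → ℝ, hB (FP c e ρ) ρ j u a b =
    GR (Aab c e ρ a b) (Bab c e ρ a b) (ρ - max a b)) ∧
  (∀ u : Fin 1 → ℝ, (∀ i, 0 ≤ u i) → hB (FP c e ρ) ρ j u a b =
    gg (Aab c e ρ a b) (Bab c e ρ a b) (ρ - max a b) (u 0)) ∧
  (∀ u : Fin 2 → ℝ, (∀ i, 0 ≤ u i) → hB (FP c e ρ) ρ j u a b =
    gg (Aab c e ρ a b) (Bab c e ρ a b) (ρ - max a b) (u 0) +
      gg (Aab c e ρ a b) (Bab c e ρ a b) (ρ - max a b) (u 1) -
      gg (Aab c e ρ a b) (Bab c e ρ a b) (ρ - max a b) (u 0 + u 1)) ∧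
  (∀ u : Fin 3 → ℝ, (∀ i, 0 ≤ u i) → hB (FP c e ρ) ρ j u a b =
    gg (Aab c e ρ a b) (Bab c e ρ a b) (ρ - max a b) (u 0) +
      gg (Aab c e ρ a b) (Bab c e ρ a b) (ρ - max a b) (u 1) +
      gg (Aab c e ρ a b) (Bab c e ρ a b) (ρ - max a b) (u 2) -
      gg (Aab c e ρ a b) (Bab c e ρ a b) (ρ - max a b) (u 0 + u 1) -
      gg (Aab c e ρ a b) (Bab c e ρ a b) (ρ - max a b) (u 0 + u 2) -
      gg (Aab c e ρ a b) (Bab c e ρ a b) (ρ - max a b) (u 1 + u 2) +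
      gg (Aab c e ρ a b) (Bab c e ρ a b) (ρ - max a b) (u 0 + u 1 + u 2))

/-- `II` of the profile.  `![a, b, t]` is in the region iff `a + b ≤ ρ` and `t ≤ ρ - max a b` (for
`a, b, t ≥ 0`); split `∫_0^ρ db = ∫_0^{ρ-a} + ∫_{ρ-a}^ρ` (the second integrand is `0` for
`b > ρ - a`), and `∫_0^ρ dt = ∫_0^T + ∫_T^ρ`.  (For the splitting in `b` integrability is needed:
the function `b ↦ ∫_0^{ρ - max a b} (A + B t)²` is continuous and the other piece is a.e. `0`;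
or use `intervalIntegral.integral_of_le`, `Set.indicator` and `setIntegral_congr_ae`.) -/
def St_II : Prop := ∀ c e ρ : ℝ, 0 < ρ →
  II (FP c e ρ) ρ = ∫ a in (0 : ℝ)..ρ, ∫ b in (0 : ℝ)..(ρ - a), ∫ t in (0 : ℝ)..(ρ - max a b),
    (Aab c e ρ a b + Bab c e ρ a b * t) ^ 2

/-! ### Fubini -/

/-- Interchange.  `(u, a) ↦ ∫_0^{σ-a} κ u a b db` is continuous
(`intervalIntegral.continuous_parametric_intervalIntegral_of_continuous`), `D` has finite measure,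
everything is bounded on the (bounded) domain of integration and measurable, so integrable on the
product; use `MeasureTheory.intervalIntegral_integral_swap` twice (once for `a`, once for `b` with
`a` fixed). -/
def St_Swap : Prop := ∀ (n : ℕ) (D : Set (Fin n → ℝ)) (dn : (Fin n → ℝ) → ℝ)
  (κ : (Fin n → ℝ) → ℝ → ℝ → ℝ) (σ C : ℝ), 0 ≤ σ → MeasurableSet D →
  (∀ u ∈ D, ∀ i, 0 ≤ u i ∧ u i ≤ 1) → Measurable dn → (∀ u ∈ D, |dn u| ≤ C) →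
  Continuous (fun q : (Fin n → ℝ) × ℝ × ℝ => κ q.1 q.2.1 q.2.2) →
  ∫ u in D, (∫ a in (0 : ℝ)..σ, ∫ b in (0 : ℝ)..(σ - a), κ u a b) * dn u =
    ∫ a in (0 : ℝ)..σ, ∫ b in (0 : ℝ)..(σ - a), ∫ u in D, κ u a b * dn u

/-- Simple facts on `DD` and `dens`: measurable, `0 < u i < 1` and `0 < dens u ≤ 1000^n/ρ` on it. -/
def St_DDm : Prop := ∀ (n : ℕ) (ρ : ℝ), 0 < ρ → MeasurableSet (DD ρ n) ∧
  Measurable (dens (n := n)) ∧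
  (∀ u ∈ DD ρ n, ∀ i, 0 < u i ∧ u i < 1) ∧
  ∀ u ∈ DD ρ n, 0 < dens u ∧ dens u ≤ 1000 ^ n / ρ

/-- `n = 0`: `volume` on `Fin 0 → ℝ` is a point mass (`MeasureTheory.integral_unique` or
`Measure.volume_pi_eq_dirac`), `DD ρ 0 = univ` for `ρ < 1`, `dens = 1`.
`n = 1`: `volume_preserving_funUnique (Fin 1) ℝ`; `DD ρ 1` is `1/1000 < x`, `x < 1 - x` (then
`ρ ≤ 1/2 < 1 - x`), so `Ioo (1/1000) (1/2)`. -/
def St_DD1 : Prop :=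
  (∀ (ρ : ℝ) (k : ℝ), ρ < 1 → ∫ u in DD ρ 0, k * dens u = k) ∧
  ∀ (ρ : ℝ) (k : ℝ → ℝ), ρ ≤ 1 / 2 →
    ∫ u in DD ρ 1, k (u 0) * dens u = ∫ x in (1 / 1000 : ℝ)..(1 / 2), k x / (x * (1 - x))

/-- `n = 2`: `volume_preserving_finTwoArrow ℝ`; `DD ρ 2` is `1/1000 < x < z < 1 - x - z` (then
`1 - x - z > 1/3 ≥ ρ`), i.e. `1/1000 < x < 1/3`, `x < z < (1-x)/2`.  `integral_prod` for the
indicator function; integrable as it is bounded (`k` is bounded on `[0,1]²`, denominators bounded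
below) and measurable. -/
def St_DD2 : Prop := ∀ (ρ : ℝ) (k : ℝ → ℝ → ℝ), ρ ≤ 1 / 3 →
  Continuous (fun q : ℝ × ℝ => k q.1 q.2) →
  ∫ u in DD ρ 2, k (u 0) (u 1) * dens u =
    ∫ x in (1 / 1000 : ℝ)..(1 / 3), ∫ z in x..((1 - x) / 2), k x z / (x * z * (1 - x - z))

/-- `n = 3`, the same with `volume_preserving_piFinSuccAbove` (for `C` only). -/
def St_DD3 : Prop := ∀ (ρ : ℝ) (k : ℝ → ℝ → ℝ → ℝ), ρ ≤ 1 / 4 →
  Continuous (fun q : ℝ × ℝ × ℝ => k q.1 q.2.1 q.2.2) →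
  ∫ u in DD ρ 3, k (u 0) (u 1) (u 2) * dens u =
    ∫ x in (1 / 1000 : ℝ)..(1 / 4), ∫ y in x..((1 - x) / 3), ∫ z in y..((1 - x - y) / 2),
      k x y z / (x * y * z * (1 - x - y - z))

/-- Continuity of `R1`, `R2`, `R3` in all parameters.  On the domains of integration the denominators
can be replaced by continuous nonvanishing functions of everything: `x` by `max x (1/1000)`,
`1 - x` by `max (1-x) (1/2)`, `1 - x - z` by `max (1-x-z) (1/3)`, `1-x-y-z` by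
`max (1-x-y-z) (1/4)`; then `intervalIntegral.continuous_parametric_intervalIntegral_of_continuous'`
(constant limits) and `..._of_continuous` (variable upper limit), inner limits as
`∫_x^y = ∫_0^y - ∫_0^x`. -/
def St_Cont : Prop :=
  Continuous (fun q : ℝ × ℝ × ℝ => R1 q.1 q.2.1 q.2.2) ∧
  Continuous (fun q : ℝ × ℝ × ℝ => R2 q.1 q.2.1 q.2.2)

/-- the same for `R3` -/
def St_Cont3 : Prop := Continuous (fun q : ℝ × ℝ × ℝ => R3 q.1 q.2.1 q.2.2)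

/-- `QQ` of the profile (from `St_hB`, `St_Swap`, `St_DDm`, `St_DD1`, `St_DD2`, `St_DD3`). -/
def St_QQ : Prop := ∀ (c e ρ σ : ℝ) (j : Fin 3), 0 < σ → σ ≤ ρ →
  (ρ ≤ 1 / 2 → QQ (FP c e ρ) ρ σ j 0 = ∫ a in (0 : ℝ)..σ, ∫ b in (0 : ℝ)..(σ - a),
    R0 (Aab c e ρ a b) (Bab c e ρ a b) (ρ - max a b)) ∧
  (ρ ≤ 1 / 2 → QQ (FP c e ρ) ρ σ j 1 = ∫ a in (0 : ℝ)..σ, ∫ b in (0 : ℝ)..(σ - a),
    R1 (Aab c e ρ a b) (Bab c e ρ a b) (ρ - max a b)) ∧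
  (ρ ≤ 1 / 3 → QQ (FP c e ρ) ρ σ j 2 = ∫ a in (0 : ℝ)..σ, ∫ b in (0 : ℝ)..(σ - a),
    R2 (Aab c e ρ a b) (Bab c e ρ a b) (ρ - max a b)) ∧
  (ρ ≤ 1 / 4 → QQ (FP c e ρ) ρ σ j 3 = ∫ a in (0 : ℝ)..σ, ∫ b in (0 : ℝ)..(σ - a),
    R3 (Aab c e ρ a b) (Bab c e ρ a b) (ρ - max a b))

/-! ### Series -/

/-- Lower bounds for the elementary functions.  (1) truncated sums of `-log(1-s) = ∑ s^k/k`
(`Real.hasSum_pow_div_log_of_abs_lt_one`).  (2) `-log(1-p) = ∑_{k<m} + ∑_{k≥m} p^k/k` and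
`∑_{k≥m} p^k/k ≤ (1/m) p^m/(1-p) ≤ p^m/(m(1-μ))`; (or differentiate).  (3) geometric sum.  (4) for
odd `k`: `∑_{i≤k} q^i = (1-q^{k+1})/(1-q)` with `q = 1 - c y`, `1 - q = c y`, `q^{k+1} ≥ 0` (and
`q^{k+1} ≤ 1` if `c y ≤ 2`).  (5) `log(1/T) = log(1/r) - log(1-s)`, `s = 1 - T/r`. -/
def St_Ser : Prop :=
  (∀ (n : ℕ) (s : ℝ), 0 ≤ s → s < 1 → evQ s (lgS n) ≤ -Real.log (1 - s)) ∧
  (∀ (m : ℕ) (μ : ℚ) (p : ℝ), 1 ≤ m → μ < 1 → 0 ≤ p → p ≤ μ →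
    evQ p (lg1 m μ) ≤ Real.log (1 - p)) ∧
  (∀ (n : ℕ) (q : ℝ), 0 ≤ q → q < 1 → evQ q (ge n) ≤ 1 / (1 - q) ∧ 0 ≤ evQ q (ge n)) ∧
  (∀ (β : Type) (_ : Ops β) (ev : β → ℝ) (_ : Hom ev) (c : ℚ) (k : ℕ) (y : β), 0 < c → Odd k →
    0 < ev y → ev (iv c k y) ≤ 1 / ev y ∧ (c * ev y ≤ 2 → 0 ≤ ev (iv c k y))) ∧
  (∀ (β : Type) (_ : Ops β) (ev : β → ℝ) (_ : Hom ev) (r L : ℚ) (n : ℕ) (T : β), 0 < r →
    (L : ℝ) ≤ Real.log (1 / r) → 0 < ev T → ev T ≤ r →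
    ev (LT r L n T) ≤ Real.log (1 / ev T))

/-! ### Lower bounds, one and two primes -/

/-- `R1`: split at `T`; `gg = GR x` below `T` and `GR T` above, `∫_T^{1/2} dx/(x(1-x)) =
log((1-T)/T)` (antiderivative `log x - log(1-x)`).  For `q1a`: `GR²/x = x (A + B x/2)²` is `xG2`,
`1/(1-x) ≥ ge K`, then `integral_evL` for the polynomial; `q1b`: `log((1-T)/T) = log(1/T) +
log(1-T)`. -/
def St_Low1 : Prop := ∀ (α : Type) (_ : Ops α) (ev : α → ℝ) (_ : Hom ev) (r L : ℚ) (n m K : ℕ)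
  (A B T : α), 0 < r → r ≤ 1 / 2 → (L : ℝ) ≤ Real.log (1 / r) → 1 ≤ m →
  1 / 500 ≤ ev T → ev T ≤ r →
  ev (q1a K A B T) + ev (q1b r L n m A B T) ≤ R1 (ev A) (ev B) (ev T)

/-- Splitting of `R2` (equality holds).  `x` from `1/1000` to `T/2`, to `T`, to `1/3`; for `x < T/2`
the variable `z` runs over `(x, T-x)`: `E = GR x + GR z - GR (x+z) = -B x z`; `(T-x, T)`:
`E = GR x + GR z - GR T`; `(T, (1-x)/2)`: `E = GR x`, `∫ dz/(z(1-x-z)) = log((1-x-T)/T)/(1-x)`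
(antiderivative `(log z - log(1-x-z))/(1-x)`).  For `T/2 < x < T`: `(x,T)` and `(T,(1-x)/2)`.  For
`x > T`: `E = GR T` and `∫_x^{(1-x)/2} dz/(z(1-x-z)) = log((1-2x)/x)/(1-x)`. -/
def St_Spl2 : Prop := ∀ A B T : ℝ, 1 / 500 ≤ T → T ≤ 1 / 3 →
  GR A B T ^ 2 * P2a T + P2b A B T + P2c A B T + P2d B T ≤ R2 A B T

/-- `P2a`: on `[T, r]` the integrand is `≥ evQ v (w2a ..)` (the log is `≥ 0` as `v ≤ 1/3`; if
`ℓ ≥ L'`, `ℓ ≥ 0`, `t ≥ s ≥ 0` then `ℓ t ≥ L' s`), on `[r, 1/3]`: `log y ≥ 2(y-1)/(y+1)` for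
`y = (1-2v)/v ≥ 1` gives `2(1-3v)/(1-v)`, and `v(1-v)² ≤ 4/27`, so integrand `≥ (27/2)(1-3v)`,
integral `(9/4)(1-3r)²`. -/
def St_Low2a : Prop := ∀ (α : Type) (_ : Ops α) (ev : α → ℝ) (_ : Hom ev) (r L : ℚ)
  (n m k l : ℕ) (T : α), 0 < r → r ≤ 1 / 3 → (L : ℝ) ≤ Real.log (1 / r) → 1 ≤ m →
  1 / 500 ≤ ev T → ev T ≤ r → ev (p2a r L n m k l T) ≤ P2a (ev T)

/-- `P2b`: `GR²/x = x(A+Bx/2)²`, `1/(1-x) ≥ ge K`, `log((1-x-T)/T) = log(1/T) + log(1-(x+T))`, it is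
`≥ 0`; same product rule. -/
def St_Low2b : Prop := ∀ (α : Type) (_ : Ops α) (ev : α → ℝ) (_ : Hom ev) (r L : ℚ)
  (n m K : ℕ) (A B T : α), 0 < r → r ≤ 1 / 3 → (L : ℝ) ≤ Real.log (1 / r) → 1 ≤ m →
  1 / 500 ≤ ev T → ev T ≤ r → ev (p2b r L n m K A B T) ≤ P2b (ev A) (ev B) (ev T)

/-- `P2d` and `P3d`: `(Bxz)²/(xz(1-x-z)) = B² x z/(1-x-z)`, `1/(1-x-z) ≥ ge K`,
`w₀ + w₁ log((1-x-z-T)/T) ≥ 0` and `≥ lw` (as `log((1-x-z-T)/T) = log(1/T) + log(1-(x+z+T))`).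
If `w₁ = 0` nothing is needed on the logarithm. -/
def St_Low2d : Prop := ∀ (α : Type) (_ : Ops α) (ev : α → ℝ) (_ : Hom ev) (r L w₀ w₁ : ℚ)
  (n m K : ℕ) (B T : α), 0 < r → r ≤ 1 / 3 → (w₁ = 0 ∨ r ≤ 1 / 4) →
  (L : ℝ) ≤ Real.log (1 / r) → 1 ≤ m → 0 ≤ w₀ → 0 ≤ w₁ →
  1 / 500 ≤ ev T → ev T ≤ r →
  ev (p2d r L w₀ w₁ n m K B T) ≤ w₀ * P2d (ev B) (ev T) + w₁ * P3d (ev B) (ev T)

/-- `P2c` and `P3c`: as `St_Low2d`, with `1/x ≥ iv cx kx x` (may be negative), `1/z ≥ iv cz kz z ≥ 0`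
(as `cz z ≤ cz r ≤ 2`).  `E² w · iv x · iv z · ge ≤ E² w/(x z (1-x-z))`: use first `1/x ≥ iv x` with
the other factors `≥ 0`. For the factor `lw`, which can be negative: replace it first,
`E² (w₀ + w₁ log) /(x z (1-x-z)) ≥ E² lw iv(x) iv(z) ge` needs care: if `iv x < 0` it is wrong to
replace `lw` by the larger value; so assume `0 ≤ lw` on the domain, hypothesis `hlw`. -/
def St_Low2c : Prop := ∀ (α : Type) (_ : Ops α) (ev : α → ℝ) (_ : Hom ev) (r L w₀ w₁ : ℚ)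
  (n m K : ℕ) (cx cz : ℚ) (kx kz : ℕ) (A B T : α), 0 < r → r ≤ 1 / 3 →
  (w₁ = 0 ∨ r ≤ 1 / 4) → (L : ℝ) ≤ Real.log (1 / r) → 1 ≤ m → 0 ≤ w₀ → 0 ≤ w₁ →
  0 < cx → 0 < cz → cz * r ≤ 2 → Odd kx → Odd kz →
  0 ≤ w₀ + w₁ * (L + horner (3 * r) (lg1 m (3 * r))) →
  1 / 500 ≤ ev T → ev T ≤ r →
  ev (p2c r L w₀ w₁ n m K cx cz kx kz A B T) ≤
    w₀ * P2c (ev A) (ev B) (ev T) + w₁ * P3c (ev A) (ev B) (ev T)

/-! ### Lower bounds, three primes (for C) -/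

/-- Splitting of `R3`; the part with three variables below `T` is dropped, the part with none is
`≥ GR(T)² · 256 · volume`, volume `= (1-4T)³/144` (`x y z (1-x-y-z) ≤ 4^{-4}`). -/
def St_Spl3 : Prop := ∀ A B T : ℝ, 1 / 500 ≤ T → T ≤ 1 / 4 →
  GR A B T ^ 2 * (16 / 9 * (1 - 4 * T) ^ 3) + P3b A B T + P3c A B T + P3d B T ≤ R3 A B T

/-- `P3b`.  Inner integral over `y` with `c = 1 - x`: `[T, 1/4]` and `[1/4, c/3]`.  First part: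
integrand `≥ w3b` (product rule as in `St_Low2a`; `x + 2y ≤ 3/4`).  Second part:
`log((c-2y)/y) ≥ 2(c-3y)/(c-y)`, `y (c-y)² ≤ 4c³/27`, so the integral is
`≥ (9/4)(c-3/4)²/c³ ≥ (9/4)(1/4-x)²(1+3x)`. -/
def St_Low3b : Prop := ∀ (α : Type) (_ : Ops α) (ev : α → ℝ) (_ : Hom ev) (L : ℚ)
  (n m k l : ℕ) (A B T : α), (L : ℝ) ≤ Real.log 4 → 1 ≤ m →
  1 / 500 ≤ ev T → ev T ≤ 1 / 4 → ev (p3b L n m k l A B T) ≤ P3b (ev A) (ev B) (ev T)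

/-! ### Outer integration -/

/-- Lower bound by polynomials.  For `0 ≤ a ≤ S/2`: `∫_0^{S-a} = ∫_0^a + ∫_a^{S-a}`; for
`S/2 ≤ a ≤ S` only `b ≤ a` occurs.  `integral_evL` with `Hom.rat`, `Hom.list`. -/
def St_Out : Prop := ∀ (S : ℚ) (P₁ P₂ : Q2) (f : ℝ → ℝ → ℝ), 0 < S →
  Continuous (fun q : ℝ × ℝ => f q.1 q.2) →
  (∀ a b : ℝ, 0 ≤ b → b ≤ a → a + b ≤ S → ev2 a b P₁ ≤ f a b) →
  (∀ a b : ℝ, 0 ≤ a → a ≤ b → a + b ≤ S → ev2 a b P₂ ≤ f a b) →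
  ((outV S P₁ P₂ : ℚ) : ℝ) ≤ ∫ a in (0 : ℝ)..(S : ℝ), ∫ b in (0 : ℝ)..((S : ℝ) - a), f a b

end Pool.Agent.PTN
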